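import Pool.Agent.KQG.StTh

/-!
# KQG, module GE: coherent sheaves on an affine scheme are finitely generated modules
-/

set_option autoImplicit false

noncomputable section

namespace Pool.Agent.KQG

open CategoryTheory CategoryTheory.Limits AlgebraicGeometry TopologicalSpace
open Pool.Agent.KSS Pool.Agent.KIN Pool.Agent.KQ Pool.Agent.KTX

/-- the right adjoints agree -/
def ge_right {A B : Type} [CommRing A] [CommRing B] (φ : A →+* B) :
    Scheme.Modules.pushforward (Spec.map (CommRingCat.ofHom φ)) ⋙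
      moduleSpecΓFunctor (R := CommRingCat.of A) ≅
    moduleSpecΓFunctor (R := CommRingCat.of B) ⋙ ModuleCat.restrictScalars.{0, 0, 0} φ :=
  (Functor.associator _ _ _).symm ≪≫
  Functor.isoWhiskerRight (pushforwardCompModulesSpecToSheafIso (CommRingCat.ofHom φ))
    (TopCat.Sheaf.forget _ _ ⋙ (evaluation _ _).obj (.op ⊤)) ≪≫
  NatIso.ofComponents (fun M => Iso.refl _) (fun f => by rfl)

/-- base change of the sheaves of modules -/
def ge_bc {A B : Type} [CommRing A] [CommRing B] (φ : A →+* B) :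
    tilde.functor (CommRingCat.of A) ⋙ Scheme.Modules.pullback (Spec.map (CommRingCat.ofHom φ)) ≅
    ModuleCat.extendScalars.{0, 0, 0} φ ⋙ tilde.functor (CommRingCat.of B) :=
  Adjunction.leftAdjointUniq
    ((tilde.adjunction (R := CommRingCat.of A)).comp
      (Scheme.Modules.pullbackPushforwardAdjunction (Spec.map (CommRingCat.ofHom φ))))
    (((ModuleCat.extendRestrictScalarsAdj.{0, 0, 0} φ).comp
      (tilde.adjunction (R := CommRingCat.of B))).ofNatIsoRight (ge_right φ).symm)

theorem ge_ap (R : CommRingCat.{0}) {M N : (Spec R).Modules} (f : M ⟶ N)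
    (x : (moduleSpecΓFunctor (R := R)).obj M) :
    ((moduleSpecΓFunctor (R := R)).map f).hom x = ap f ⊤ x := rfl

theorem ge_fin (R : CommRingCat.{0}) {M : (Spec R).Modules}
    (h : Module.Finite Γ(Spec R, ⊤) Γ(M, ⊤)) :
    Module.Finite R ((moduleSpecΓFunctor (R := R)).obj M) := by
  have h1 : Module.Finite R Γ(M, ⊤) := by
    have h2 : Module.Finite R Γ(Spec R, ⊤) := by
      refine Module.Finite.of_surjective (Algebra.linearMap R Γ(Spec R, ⊤)) ?_
      exact ((ConcreteCategory.isIso_iff_bijective (Scheme.ΓSpecIso R).inv).1 inferInstance).2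
    exact Module.Finite.trans (R := R) (A := Γ(Spec R, ⊤)) Γ(M, ⊤)
  exact h1

theorem ge_fin' (R : CommRingCat.{0}) (M : ModuleCat.{0} R) (h : Module.Finite R M) :
    Module.Finite Γ(Spec R, ⊤) Γ((tilde.functor R).obj M, ⊤) := by
  have h1 : Module.Finite R Γ((tilde.functor R).obj M, ⊤) :=
    Module.Finite.equiv (tilde.isoTop (R := R) M).toLinearEquiv
  exact Module.Finite.of_restrictScalars_finite R Γ(Spec R, ⊤) _

theorem ge_qc (R : CommRingCat.{0}) (M : ModuleCat.{0} R) :
    ((tilde.functor R).obj M).IsQuasicoherent := by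
  change (tilde M).IsQuasicoherent
  infer_instance

theorem ge_isIso (R : CommRingCat.{0}) (M : (Spec R).Modules) (h : M.IsQuasicoherent) :
    IsIso (Scheme.Modules.fromTildeΓ M) := by
  infer_instance

theorem ge_coh (R : CommRingCat.{0}) (M : ModuleCat.{0} R) (h : Module.Finite R M) :
    IsCoh ((tilde.functor R).obj M) :=
  (thm_L0 (Spec R)).2.2.2 _ (ge_qc R M) fun _ =>
    ⟨⊤, isAffineOpen_top _, trivial, ge_fin' R M h⟩

/-- the elements of a module as global sections -/
def ge_i (R : CommRingCat.{0}) (M : ModuleCat.{0} R) (m : M) :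
    Γ((tilde.functor R).obj M, ⊤) := (tilde.isoTop (R := R) M).hom.hom m

theorem ge_i_bij (R : CommRingCat.{0}) (M : ModuleCat.{0} R) : Function.Bijective (ge_i R M) :=
  (ConcreteCategory.isIso_iff_bijective (tilde.isoTop (R := R) M).hom).1 inferInstance

theorem ge_i_ap (R : CommRingCat.{0}) {M N : ModuleCat.{0} R} (f : M ⟶ N) (m : M) :
    ap ((tilde.functor R).map f) ⊤ (ge_i R M m) = ge_i R N (f.hom m) := by
  have h := (tilde.toTildeΓNatIso (R := R)).hom.naturality f
  exact (congrArg (fun e => e.hom m) h).symm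

theorem ge_ses (R : CommRingCat.{0}) {M N K : ModuleCat.{0} R} (f : M ⟶ N) (g : N ⟶ K)
    (h : SES f g) : SES ((tilde.functor R).map f) ((tilde.functor R).map g) := by
  obtain ⟨h1, h2, h3⟩ := (ses_mod f g).1 h
  obtain ⟨w, -⟩ := h
  have w' : (tilde.functor R).map f ≫ (tilde.functor R).map g = 0 := by
    rw [← Functor.map_comp, w, Functor.map_zero]
  refine ⟨w', (thm_L0 (Spec R)).1 (ShortComplex.mk _ _ w')
    (ge_qc R M) (ge_qc R N) (ge_qc R K) fun y =>
      ⟨⊤, isAffineOpen_top _, trivial, ?_, ?_, ?_⟩⟩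
  · intro s t hst
    obtain ⟨m, rfl⟩ := (ge_i_bij R M).2 s
    obtain ⟨n, rfl⟩ := (ge_i_bij R M).2 t
    change ap ((tilde.functor R).map f) ⊤ _ = ap ((tilde.functor R).map f) ⊤ _ at hst
    rw [ge_i_ap, ge_i_ap] at hst
    rw [h1 ((ge_i_bij R N).1 hst)]
  · intro s
    obtain ⟨n, rfl⟩ := (ge_i_bij R N).2 s
    change ap ((tilde.functor R).map g) ⊤ _ = 0 ↔ ∃ t, ap ((tilde.functor R).map f) ⊤ t = _
    have h0 : ge_i R K 0 = 0 := map_zero (tilde.isoTop (R := R) K).hom.hom
    rw [ge_i_ap, ← h0]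
    constructor
    · intro h4
      obtain ⟨m, hm⟩ := (h2 n).1 ((ge_i_bij R K).1 h4)
      refine ⟨ge_i R M m, ?_⟩
      rw [ge_i_ap, hm]
    · rintro ⟨t, ht⟩
      obtain ⟨m, rfl⟩ := (ge_i_bij R M).2 t
      rw [ge_i_ap] at ht
      rw [(h2 n).2 ⟨m, (ge_i_bij R N).1 ht⟩]
  · intro s
    obtain ⟨k, rfl⟩ := (ge_i_bij R K).2 s
    obtain ⟨n, rfl⟩ := h3 k
    refine ⟨ge_i R N n, ?_⟩
    change ap ((tilde.functor R).map g) ⊤ _ = _
    rw [ge_i_ap]

/-- the functor `M ↦ M^~` -/
def ge_T (A : Type) [CommRing A] : ModuleCat.{0} A ⥤ QC (Sp A) :=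
  (qcP (Sp A)).lift (tilde.functor (CommRingCat.of A)) fun M => ge_qc (CommRingCat.of A) M

theorem ge_add (R : CommRingCat.{0}) : (tilde.functor R).Additive := inferInstance

instance ge_T_add (A : Type) [CommRing A] : (ge_T A).Additive where
  map_add {M N a b} := by
    apply ObjectProperty.hom_ext
    exact (ge_add (CommRingCat.of A)).map_add

instance ge_Γ_add (R : CommRingCat.{0}) : (moduleSpecΓFunctor (R := R)).Additive :=
  (tilde.adjunction (R := R)).right_adjoint_additive

/-- the functor of global sections -/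
def ge_G (A : Type) [CommRing A] : QC (Sp A) ⥤ ModuleCat.{0} A :=
  (qcP (Sp A)).ι ⋙ moduleSpecΓFunctor (R := CommRingCat.of A)

instance ge_G_add (A : Type) [CommRing A] : (ge_G A).Additive where
  map_add {M N a b} := (ge_Γ_add (CommRingCat.of A)).map_add

theorem ge_G_ses (A : Type) [CommRing A] {M N K : QC (Sp A)} (f : M ⟶ N) (g : N ⟶ K)
    (h : SES f g) : SES ((ge_G A).map f) ((ge_G A).map g) := by
  obtain ⟨h1, h2, h3⟩ := ses_sec ((ses_qc f g).1 h) M.property N.property ⊤
    (isAffineOpen_top (Sp A))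
  exact (ses_mod _ _).2 ⟨h1, h2, h3⟩

/-- finitely generated modules and coherent sheaves -/
def ge_equiv (A : Type) [CommRing A] : ExEquiv (MA A) (Coh (Sp A)) where
  fwd := @ExFun.ofFunctor (MA A) (Coh (Sp A)) (ge_T A) (ge_T_add A)
    (fun M hM => ge_coh (CommRingCat.of A) M hM) fun f g _ _ _ h =>
      (ses_qc _ _).2 (ge_ses (CommRingCat.of A) f g h)
  bwd := @ExFun.ofFunctor (Coh (Sp A)) (MA A) (ge_G A) (ge_G_add A)
    (fun M hM => ge_fin (CommRingCat.of A) (hM.2 ⊤ (isAffineOpen_top (Sp A))))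
    fun f g _ _ _ h => ge_G_ses A f g h
  unit := NatIso.ofComponents (fun M => ObjectProperty.isoMk _
    ((tilde.toTildeΓNatIso (R := CommRingCat.of A)).app M.obj)) fun f =>
      ObjectProperty.hom_ext _
        ((tilde.toTildeΓNatIso (R := CommRingCat.of A)).hom.naturality f.hom)
  counit := NatIso.ofComponents (fun M => ObjectProperty.isoMk _ (ObjectProperty.isoMk _
      (@asIso (Sp A).Modules _ _ _
        ((tilde.adjunction (R := CommRingCat.of A)).counit.app M.obj.obj)
        (ge_isIso (CommRingCat.of A) M.obj.obj M.obj.property)))) fun f =>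
    ObjectProperty.hom_ext _ (ObjectProperty.hom_ext _
      ((tilde.adjunction (R := CommRingCat.of A)).counit.naturality f.hom.hom))

theorem thm_GE : St_GE := by
  refine ⟨fun A _ => ge_equiv A, fun A B _ _ _ _ φ hφ _ => ⟨?_⟩⟩
  exact NatIso.ofComponents (fun M => ObjectProperty.isoMk _ (ObjectProperty.isoMk _
    ((ge_bc φ).app M.obj))) fun f => ObjectProperty.hom_ext _ (ObjectProperty.hom_ext _
      ((ge_bc φ).hom.naturality f.hom))

end Pool.Agent.KQG
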