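import Pool.Agent.KIN.All
import Pool.Agent.KQ.DEx2

/-!
# KQG: coherent sheaves on schemes as exact categories: definitions

Geometric end of the library KQ (Quillen's `K'_n`), architect helper12.

* `QC X`: the abelian category of quasi-coherent sheaves on the scheme `X` (a full subcategory of
  `X.Modules`, `Mathlib.CategoryTheory.Abelian.Subcategory`);
* `Coh X : ExCat.{0}`: the coherent sheaves, in the ambient category `QC X`;
* `VanS O : SubP (Coh X)`: the coherent sheaves which vanish on the open set `O`;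
* `pbQ f : QC X ⥤ QC Y`, `pfQ f : QC Y ⥤ QC X`: pull-back, push-forward (`f` affine or an open immersion).
-/

set_option autoImplicit false

noncomputable section

namespace Pool.Agent.KQG

open CategoryTheory CategoryTheory.Limits AlgebraicGeometry TopologicalSpace
open Pool.Agent.KSS Pool.Agent.KSS.S4 Pool.Agent.KIN Pool.Agent.KQ
open scoped ZeroObject

/-! ### quasi-coherent sheaves -/

/-- quasi-coherent sheaves -/
def qcP (X : Scheme.{0}) : ObjectProperty X.Modules := fun M => M.IsQuasicoherent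

theorem qcP_iff {X : Scheme.{0}} (M : X.Modules) : qcP X M ↔ QLoc M := thm_S2 X M

theorem qloc_iso {X : Scheme.{0}} {M N : X.Modules} (e : M ≅ N) (h : QLoc M) : QLoc N := by
  intro U hU f
  obtain ⟨h1, h2⟩ := h U hU f
  have he : ∀ (W : X.Opens) (s : Γ(N, W)), ap e.hom W (ap e.inv W s) = s := by
    intro W s
    rw [← ap_comp, e.inv_hom_id, ap_id]
  refine ⟨fun s => ?_, fun t ht => ?_⟩
  · obtain ⟨n, t, ht⟩ := h1 (ap e.inv _ s)
    refine ⟨n, ap e.hom U t, ?_⟩
    rw [rM_ap, ht, (ap e.hom _).map_smul, he]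
  · obtain ⟨n, hn⟩ := h2 (ap e.inv U t) (by rw [rM_ap, ht, (ap e.inv _).map_zero])
    refine ⟨n, ?_⟩
    rw [← he U t, ← (ap e.hom U).map_smul, hn, (ap e.hom U).map_zero]

instance (X : Scheme.{0}) : (qcP X).IsClosedUnderIsomorphisms where
  of_iso e h := (qcP_iff _).2 (qloc_iso e ((qcP_iff _).1 h))

theorem ap_isZero {X : Scheme.{0}} {M : X.Modules} (h : IsZero M) (U : X.Opens) (s : Γ(M, U)) :
    s = 0 := by
  have h1 : 𝟙 M = 0 := h.eq_of_src _ _
  rw [← ap_id U s, h1, ap_zero]

instance (X : Scheme.{0}) : (qcP X).ContainsZero where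
  exists_zero := ⟨0, isZero_zero _, (qcP_iff _).2 fun _ _ _ =>
    ⟨fun _ => ⟨0, 0, (ap_isZero (isZero_zero _) _ _).trans (ap_isZero (isZero_zero _) _ _).symm⟩,
      fun _ _ => ⟨0, ap_isZero (isZero_zero _) _ _⟩⟩⟩

instance (X : Scheme.{0}) : (qcP X).IsClosedUnderKernels where
  kernels_le := by
    rintro _ ⟨f, k, hk, hf⟩
    rw [qcP_iff]
    exact qloc_iso ((kernelIsKernel f).conePointUniqueUpToIso hk)
      (qloc_ker thm_S1 f ((qcP_iff _).1 hf.1) ((qcP_iff _).1 hf.2))

/-- the cokernel of a monomorphism -/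
theorem qc_coker_mono {X : Scheme.{0}} {M N : X.Modules} (f : M ⟶ N) [Mono f]
    (hM : M.IsQuasicoherent) (hN : N.IsQuasicoherent) : (cokernel f).IsQuasicoherent := by
  have h : (ShortComplex.mk f (cokernel.π f) (cokernel.condition f)).ShortExact :=
    ShortComplex.ShortExact.mk' (ShortComplex.exact_cokernel f) ‹_› inferInstance
  exact (all_S3 X _ h hM hN).1

instance (X : Scheme.{0}) : (qcP X).IsClosedUnderCokernels where
  cokernels_le := by
    rintro _ ⟨f, k, hk, hf⟩
    have h1 : (kernel f).IsQuasicoherent := (qcP X).prop_kernel f hf.1 hf.2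
    have h2 : (Abelian.coimage f).IsQuasicoherent := qc_coker_mono (kernel.ι f) h1 hf.1
    have h3 : (Abelian.image f).IsQuasicoherent :=
      (qcP X).prop_of_iso (Abelian.coimageIsoImage f) h2
    have h4 : (cokernel (Abelian.image.ι f)).IsQuasicoherent :=
      qc_coker_mono (Abelian.image.ι f) h3 hf.2
    have h5 : cokernel (Abelian.image.ι f) ≅ cokernel f := by
      refine (cokernelEpiComp (Abelian.factorThruImage f) (Abelian.image.ι f)).symm ≪≫
        cokernelIsoOfEq (Abelian.image.fac f)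
    exact (qcP X).prop_of_iso
      (h5 ≪≫ (cokernelIsCokernel f).coconePointUniqueUpToIso hk) h4

instance (X : Scheme.{0}) : (qcP X).IsClosedUnderBinaryProducts where
  limitsOfShape_le := by
    rintro M ⟨p⟩
    have e1 : p.diag ≅ pair (p.diag.obj ⟨WalkingPair.left⟩) (p.diag.obj ⟨WalkingPair.right⟩) :=
      diagramIsoPair p.diag
    have e : M ≅ p.diag.obj ⟨WalkingPair.left⟩ ⊞ p.diag.obj ⟨WalkingPair.right⟩ :=
      IsLimit.conePointsIsoOfNatIso p.isLimit (BinaryBiproduct.isLimit _ _) e1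
    rw [qcP_iff]
    exact qloc_iso e.symm (qloc_biprod ((qcP_iff _).1 (p.prop_diag_obj _))
      ((qcP_iff _).1 (p.prop_diag_obj _)))

instance (X : Scheme.{0}) : (qcP X).IsClosedUnderFiniteProducts :=
  ObjectProperty.IsClosedUnderFiniteProducts.mk'

/-- the abelian category of quasi-coherent sheaves -/
abbrev QC (X : Scheme.{0}) : Type 1 := (qcP X).FullSubcategory

/-- the quasi-coherent sheaf `M` as an object of `QC X` -/
abbrev QC.mk {X : Scheme.{0}} (M : X.Modules) (h : M.IsQuasicoherent) : QC X := ⟨M, h⟩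

/-- a short exact sequence in `QC X` is a short exact sequence of sheaves of modules -/
theorem ses_qc {X : Scheme.{0}} {M N K : QC X} (f : M ⟶ N) (g : N ⟶ K) :
    SES f g ↔ SES f.hom g.hom := by
  constructor
  · intro h
    have hm : Mono f := h.mono
    have he : Epi g := h.epi
    have := (qcP X).preservesMonomorphisms_ι_of_isNormalEpiCategory
    have := (qcP X).preservesEpimorphisms_ι_of_isNormalMonoCategory
    have hm' : Mono f.hom := (qcP X).ι.map_mono f
    have he' : Epi g.hom := (qcP X).ι.map_epi g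
    rw [ses_iff]
    refine ⟨congrArg InducedCategory.Hom.hom h.w, hm', he', fun A y hy => ?_⟩
    let k : QC X := ⟨kernel g.hom, (qcP X).prop_kernel g.hom N.property K.property⟩
    let i : k ⟶ N := ObjectProperty.homMk (kernel.ι g.hom)
    obtain ⟨x, hx⟩ := h.lift i (by
      apply ObjectProperty.hom_ext
      exact kernel.condition g.hom)
    refine ⟨kernel.lift g.hom y hy ≫ x.hom, ?_⟩
    have h1 : x.hom ≫ f.hom = kernel.ι g.hom := congrArg InducedCategory.Hom.hom hx
    rw [Category.assoc, h1, kernel.lift_ι]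
  · intro h
    have hm : Mono f.hom := h.mono
    have he : Epi g.hom := h.epi
    rw [ses_iff]
    refine ⟨?_, (qcP X).ι.mono_of_mono_map (f := f) hm, (qcP X).ι.epi_of_epi_map (f := g) he,
      fun A y hy => ?_⟩
    · apply ObjectProperty.hom_ext
      exact h.w
    · obtain ⟨x, hx⟩ := h.lift y.hom (congrArg InducedCategory.Hom.hom hy)
      refine ⟨ObjectProperty.homMk x, ?_⟩
      apply ObjectProperty.hom_ext
      exact hx

/-! ### coherent sheaves -/

theorem coh_iso {X : Scheme.{0}} {M N : X.Modules} (e : M ≅ N) (h : IsCoh M) : IsCoh N := by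
  refine ⟨(qcP X).prop_of_iso e h.1, fun U hU => ?_⟩
  have := h.2 U hU
  refine Module.Finite.of_surjective (ap e.hom U) fun s => ⟨ap e.inv U s, ?_⟩
  rw [← ap_comp, e.inv_hom_id, ap_id]

theorem coh_zero {X : Scheme.{0}} {M : X.Modules} (h : IsZero M) : IsCoh M := by
  refine ⟨(qcP X).prop_of_isZero h, fun U _ => ?_⟩
  have : Subsingleton Γ(M, U) := ⟨fun s t => (ap_isZero h U s).trans (ap_isZero h U t).symm⟩
  exact Module.Finite.of_finite

/-- the sections of short exact sequences of quasi-coherent sheaves over affine open sets -/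
theorem ses_sec {X : Scheme.{0}} {M N K : X.Modules} {f : M ⟶ N} {g : N ⟶ K} (h : SES f g)
    (hM : M.IsQuasicoherent) (hN : N.IsQuasicoherent) (U : X.Opens) (hU : IsAffineOpen U) :
    Function.Injective (ap f U) ∧ (∀ s, ap g U s = 0 ↔ ∃ t, ap f U t = s) ∧
      Function.Surjective (ap g U) := by
  obtain ⟨w, hs⟩ := h
  have hm : Mono f := hs.mono_f
  refine ⟨(thm_S1 X).1 _ _ f hm U, fun s => ⟨fun h0 => (thm_S1 X).2.1 _ hs.exact hm U s h0, ?_⟩,
    (all_S3 X _ hs hM hN).2 U hU⟩
  rintro ⟨t, rfl⟩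
  rw [← ap_comp, w, ap_zero]

theorem coh_ext {X : Scheme.{0}} {M N K : X.Modules} {f : M ⟶ N} {g : N ⟶ K} (h : SES f g)
    (hN : N.IsQuasicoherent) (h1 : IsCoh M) (h2 : IsCoh K) : IsCoh N := by
  refine ⟨hN, fun U hU => ?_⟩
  obtain ⟨-, e2, e3⟩ := ses_sec h h1.1 hN U hU
  have := h1.2 U hU
  have := h2.2 U hU
  exact Module.Finite.of_exact (f := ap f U) (g := ap g U) (fun s => (e2 s).trans Iff.rfl) e3

/-- the exact category of coherent sheaves on `X` -/
def Coh (X : Scheme.{0}) : ExCat.{0} where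
  C := QC X
  cat := inferInstance
  ab := inferInstance
  P := fun M => IsCoh M.obj
  iso := fun e h => coh_iso ((qcP X).ι.mapIso e) h
  zero := fun _ h => coh_zero ((qcP X).ι.map_isZero h)
  ext := fun {_ Y _} f g h h1 h2 => coh_ext ((ses_qc f g).1 h) Y.property h1 h2

/-- the coherent sheaves which vanish on the open set `O` -/
def VanS {X : Scheme.{0}} (O : X.Opens) : SubP (Coh X) where
  P := fun M => IsCoh (X := X) M.obj ∧ Van (X := X) O M.obj
  le := fun _ h => h.1
  iso := fun {M N} e h => ⟨(Coh X).iso e h.1, fun W hW hA s => by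
    have e' : (M : QC X).obj ≅ (N : QC X).obj := (qcP X).ι.mapIso e
    have h1 : ap e'.hom W (ap e'.inv W s) = s := by
      rw [← ap_comp, e'.inv_hom_id, ap_id]
    rw [← h1, h.2 W hW hA (ap e'.inv W s), map_zero]⟩
  zero := fun M h => ⟨(Coh X).zero M h, fun W _ _ s =>
    ap_isZero ((qcP X).ι.map_isZero h) W s⟩
  ext := fun {M N K} f g h h1 h2 => by
    have hs : SES (InducedCategory.Hom.hom f) (InducedCategory.Hom.hom g) := (ses_qc f g).1 h
    refine ⟨(Coh X).ext f g h h1.1 h2.1, fun W hW hA s => ?_⟩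
    obtain ⟨-, e2, -⟩ := ses_sec hs M.property N.property W hA
    obtain ⟨t, rfl⟩ := (e2 s).1 (h2.2 W hW hA _)
    rw [h1.2 W hW hA t, map_zero]

/-! ### pull-back and push-forward -/

/-- the pull-back functor `QC X ⥤ QC Y` of `f : Y ⟶ X` -/
def pbQ {X Y : Scheme.{0}} (f : Y ⟶ X) : QC X ⥤ QC Y :=
  (qcP Y).lift ((qcP X).ι ⋙ Scheme.Modules.pullback f) fun M =>
    (thm_P1 X Y f M.obj M.property).1

instance {X Y : Scheme.{0}} (f : Y ⟶ X) : (pbQ f).Additive where
  map_add {M N a b} := by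
    apply ObjectProperty.hom_ext
    exact (Scheme.Modules.pullback f).map_add

/-- the push-forward along `f` preserves quasi-coherence -/
class PfQ {X Y : Scheme.{0}} (f : Y ⟶ X) : Prop where
  qc : ∀ M : Y.Modules, M.IsQuasicoherent → (pf f M).IsQuasicoherent

instance (priority := 900) {X Y : Scheme.{0}} (f : Y ⟶ X) [IsAffineHom f] : PfQ f :=
  ⟨(all_S6 X Y f).1⟩

instance (priority := 900) {X Y : Scheme.{0}} [IsLocallyNoetherian X] (f : Y ⟶ X)
    [IsOpenImmersion f] : PfQ f := ⟨fun M hM => thm_E0 X Y f M hM⟩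

/-- the push-forward functor `QC Y ⥤ QC X` of `f : Y ⟶ X` -/
def pfQ {X Y : Scheme.{0}} (f : Y ⟶ X) [PfQ f] : QC Y ⥤ QC X :=
  (qcP X).lift ((qcP Y).ι ⋙ Scheme.Modules.pushforward f) fun M => PfQ.qc M.obj M.property

instance {X Y : Scheme.{0}} (f : Y ⟶ X) [PfQ f] : (pfQ f).Additive where
  map_add {M N a b} := by
    apply ObjectProperty.hom_ext
    exact (Scheme.Modules.pushforward f).map_add

/-- the adjunction of pull-back and push-forward -/
def adjQ {X Y : Scheme.{0}} (f : Y ⟶ X) [PfQ f] : pbQ f ⊣ pfQ f :=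
  (Scheme.Modules.pullbackPushforwardAdjunction f).restrictFullyFaithful
    (qcP X).fullyFaithfulι (qcP Y).fullyFaithfulι (Iso.refl _) (Iso.refl _)

/-- the exact functor `Coh X ⟶ Coh Y`, the pull-back along the flat morphism `f : Y ⟶ X` -/
def pullE {X Y : Scheme.{0}} [IsLocallyNoetherian X] [IsLocallyNoetherian Y] (f : Y ⟶ X)
    [Flat f] : ExFun (Coh X) (Coh Y) :=
  @ExFun.ofFunctor (Coh X) (Coh Y) (pbQ f) (inferInstanceAs (pbQ f).Additive)
    (fun M hM => all_P2.2.1 X Y f M.obj hM) fun {M N K} a b _ _ _ h => by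
      obtain ⟨w, hs⟩ := (ses_qc a b).1 h
      exact (ses_qc _ _).2 ⟨_, all_P2.1 X Y f (ShortComplex.mk _ _ w) M.property N.property
        K.property hs⟩

/-- the exact functor `Coh Y ⟶ Coh X`, the push-forward along the finite morphism `f : Y ⟶ X` -/
def pushE {X Y : Scheme.{0}} (f : Y ⟶ X) [IsFinite f] : ExFun (Coh Y) (Coh X) :=
  @ExFun.ofFunctor (Coh Y) (Coh X) (pfQ f) (inferInstanceAs (pfQ f).Additive)
    (fun M hM => coh_pf f M.obj hM) fun {M N K} a b _ _ _ h => by
      obtain ⟨w, hs⟩ := (ses_qc a b).1 h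
      exact (ses_qc _ _).2 ⟨_, (all_S6 X Y f).2.1 (ShortComplex.mk _ _ w) hs M.property
        N.property⟩

/-! ### natural isomorphisms, multiplicities -/

/-- the exact functors are naturally isomorphic -/
def NI {E E' : ExCat.{0}} (F G : ExFun E E') : Prop := Nonempty (F.F ≅ G.F)

/-- the exact functor `F` is built from `d` copies of the exact functor `G`: there is a chain
`F_0 ⟶ F_1 ⟶ … ⟶ F_d = F` with `F_0 = 0` and conflations `F_i ⟶ F_(i+1) ⟶ G` -/
inductive Mult {E E' : ExCat.{0}} (G : ExFun E E') : ℕ → ExFun E E' → Prop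
  | zero (F : ExFun E E') (h : ∀ M : E.Ob, IsZero (F.F.obj M)) : Mult G 0 F
  | succ (d : ℕ) (F F' : ExFun E E') (α : F'.F ⟶ F.F) (β : F.F ⟶ G.F)
      (h : ∀ M : E.Ob, E'.Conf (α.app M) (β.app M)) (h' : Mult G d F') : Mult G (d + 1) F

end Pool.Agent.KQG
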