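import Pool.Agent.KQ.DEx2

/-!
# KQG: finitely generated modules over rings as exact categories: definitions

* `MA A : ExCat.{0}`: the finitely generated `A`-modules, ambient category `ModuleCat A`;
* `bcE φ hφ : ExFun (MA A) (MA B)`: base change along the flat homomorphism `φ : A →+* B`;
* `resE φ hφ : ExFun (MA B) (MA A)`: restriction along the finite homomorphism `φ : A →+* B`.
-/

set_option autoImplicit false

noncomputable section

namespace Pool.Agent.KQG

open CategoryTheory CategoryTheory.Limits Pool.Agent.KQ

theorem ses_mod {A : Type} [CommRing A] {M N K : ModuleCat.{0} A} (f : M ⟶ N) (g : N ⟶ K) :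
    SES f g ↔ Function.Injective f.hom ∧ Function.Exact f.hom g.hom ∧
      Function.Surjective g.hom := by
  constructor
  · rintro ⟨w, h⟩
    exact ⟨h.moduleCat_injective_f,
      (ShortComplex.ShortExact.moduleCat_exact_iff_function_exact _).1 h.exact,
      h.moduleCat_surjective_g⟩
  · rintro ⟨h1, h2, h3⟩
    have w : f ≫ g = 0 := by
      ext x
      exact (h2 (f.hom x)).2 ⟨x, rfl⟩
    exact ⟨w, ShortComplex.ShortExact.mk'
      ((ShortComplex.ShortExact.moduleCat_exact_iff_function_exact _).2 h2)
      ((ModuleCat.mono_iff_injective f).2 h1) ((ModuleCat.epi_iff_surjective g).2 h3)⟩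

/-- the exact category of finitely generated `A`-modules -/
def MA (A : Type) [CommRing A] : ExCat.{0} where
  C := ModuleCat.{0} A
  cat := inferInstance
  ab := inferInstance
  P := fun M => Module.Finite A M
  iso := fun e h => by
    have := h
    exact Module.Finite.equiv e.toLinearEquiv
  zero := fun M h => by
    have : Subsingleton M := ModuleCat.subsingleton_of_isZero h
    exact Module.Finite.of_finite
  ext := fun f g h h1 h2 => by
    obtain ⟨-, e2, e3⟩ := (ses_mod f g).1 h
    have := h1
    have := h2
    exact Module.Finite.of_exact e2 e3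

instance {A B : Type} [CommRing A] [CommRing B] (φ : A →+* B) :
    (ModuleCat.extendScalars.{0, 0, 0} φ).Additive :=
  (ModuleCat.extendRestrictScalarsAdj.{0, 0, 0} φ).left_adjoint_additive

/-- base change is exact for flat homomorphisms -/
theorem ses_extend {A B : Type} [CommRing A] [CommRing B] (φ : A →+* B) (hφ : φ.Flat)
    {M N K : ModuleCat.{0} A} (f : M ⟶ N) (g : N ⟶ K) (h : SES f g) :
    SES ((ModuleCat.extendScalars.{0, 0, 0} φ).map f)
      ((ModuleCat.extendScalars.{0, 0, 0} φ).map g) := by
  letI := φ.toAlgebra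
  have : Module.Flat A B := hφ
  obtain ⟨h1, h2, h3⟩ := (ses_mod f g).1 h
  rw [ses_mod]
  exact ⟨Module.Flat.lTensor_preserves_injective_linearMap (M := B) f.hom h1,
    lTensor_exact B h2 h3, LinearMap.lTensor_surjective B h3⟩

theorem fin_extend {A B : Type} [CommRing A] [CommRing B] (φ : A →+* B) (M : ModuleCat.{0} A)
    (h : Module.Finite A M) : Module.Finite B ((ModuleCat.extendScalars.{0, 0, 0} φ).obj M) := by
  letI := φ.toAlgebra
  exact (inferInstance : Module.Finite B (TensorProduct A B M))

theorem fin_restrict {A B : Type} [CommRing A] [CommRing B] (φ : A →+* B) (hφ : φ.Finite)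
    (M : ModuleCat.{0} B) (h : Module.Finite B M) :
    Module.Finite A ((ModuleCat.restrictScalars.{0, 0, 0} φ).obj M) := by
  letI := φ.toAlgebra
  have h1 : Module.Finite A B := hφ
  letI := Module.compHom M φ
  have : IsScalarTower A B M := ⟨fun a b m => by
    rw [Algebra.smul_def, mul_smul]
    rfl⟩
  exact Module.Finite.trans (R := A) (A := B) M

/-- base change along a flat homomorphism -/
def bcE {A B : Type} [CommRing A] [CommRing B] (φ : A →+* B) (hφ : φ.Flat) :
    ExFun (MA A) (MA B) :=
  @ExFun.ofFunctor (MA A) (MA B) (ModuleCat.extendScalars.{0, 0, 0} φ)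
    (inferInstanceAs (ModuleCat.extendScalars.{0, 0, 0} φ).Additive)
    (fun M hM => fin_extend φ M hM) fun f g _ _ _ h => ses_extend φ hφ f g h

/-- restriction of scalars along a finite homomorphism -/
def resE {A B : Type} [CommRing A] [CommRing B] (φ : A →+* B) (hφ : φ.Finite) :
    ExFun (MA B) (MA A) :=
  @ExFun.ofFunctor (MA B) (MA A) (ModuleCat.restrictScalars.{0, 0, 0} φ)
    (inferInstanceAs (ModuleCat.restrictScalars.{0, 0, 0} φ).Additive)
    (fun M hM => fin_restrict φ hφ M hM)
    fun f g _ _ _ h => (ses_mod _ _).2 ((ses_mod f g).1 h)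

end Pool.Agent.KQG
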