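import Pool.Agent.KQG.StLD

/-!
# KQG, module CL: subobjects and quotients of coherent sheaves
-/

set_option autoImplicit false

noncomputable section

namespace Pool.Agent.KQG

open CategoryTheory CategoryTheory.Limits AlgebraicGeometry TopologicalSpace
open Pool.Agent.KSS Pool.Agent.KIN Pool.Agent.KQ

theorem qc_mono_hom {X : Scheme.{0}} {M N : QC X} (f : M ⟶ N) [Mono f] : Mono f.hom := by
  have := (qcP X).preservesMonomorphisms_ι_of_isNormalEpiCategory
  exact (qcP X).ι.map_mono f

theorem qc_epi_hom {X : Scheme.{0}} {M N : QC X} (f : M ⟶ N) [Epi f] : Epi f.hom := by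
  have := (qcP X).preservesEpimorphisms_ι_of_isNormalMonoCategory
  exact (qcP X).ι.map_epi f

/-- monomorphisms of `QC X` are injective on sections -/
theorem qc_inj {X : Scheme.{0}} {M N : QC X} (f : M ⟶ N) [Mono f] (U : X.Opens) :
    Function.Injective (ap f.hom U) :=
  (thm_S1 X).1 _ _ f.hom (qc_mono_hom f) U

/-- epimorphisms of `QC X` are surjective on sections over affine open sets -/
theorem qc_surj {X : Scheme.{0}} {M N : QC X} (f : M ⟶ N) [Epi f] (U : X.Opens)
    (hU : IsAffineOpen U) : Function.Surjective (ap f.hom U) := by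
  have h : SES (kernel.ι f) f := ⟨kernel.condition f,
    ShortComplex.ShortExact.mk' (ShortComplex.exact_kernel f) inferInstance ‹_›⟩
  exact (ses_sec ((ses_qc _ _).1 h) (kernel f).property M.property U hU).2.2

theorem thm_CL : St_CL := by
  intro X _
  have hs : ∀ {M N : QC X} (f : M ⟶ N) [Mono f], IsCoh N.obj → IsCoh M.obj := by
    intro M N f _ hN
    refine ⟨M.property, fun U hU => ?_⟩
    have h1 : IsNoetherianRing Γ(X, U) := IsLocallyNoetherian.component_noetherian ⟨U, hU⟩
    have h2 := hN.2 U hU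
    exact Module.Finite.of_injective (ap f.hom U) (qc_inj f U)
  have hq : ∀ {M N : QC X} (f : M ⟶ N) [Epi f], IsCoh M.obj → IsCoh N.obj := by
    intro M N f _ hM
    refine ⟨N.property, fun U hU => ?_⟩
    have h2 := hM.2 U hU
    exact Module.Finite.of_surjective (ap f.hom U) (qc_surj f U hU)
  refine ⟨fun {M N} f hf h => @hs M N f hf h, fun {M N} f hf h => @hq M N f hf h,
    fun O => ⟨?_, ?_⟩⟩
  · intro M N f _ h
    refine ⟨hs f h.1, fun W hW hA s => qc_inj f W ?_⟩
    rw [h.2 W hW hA (ap f.hom W s), map_zero]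
  · intro M N f _ h
    refine ⟨hq f h.1, fun W hW hA s => ?_⟩
    obtain ⟨t, rfl⟩ := qc_surj f W hA s
    rw [h.2 W hW hA t, map_zero]

end Pool.Agent.KQG
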