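import Pool.Agent.KQG.StLD
import Pool.Agent.KQG.CL

/-!
# KQG, module AR: Artin-Rees for coherent sheaves
-/

set_option autoImplicit false

noncomputable section

namespace Pool.Agent.KQG

open CategoryTheory CategoryTheory.Limits AlgebraicGeometry TopologicalSpace
open Pool.Agent.KSS Pool.Agent.KIN Pool.Agent.KQ

/-- the subsheaf with the sections `I ^ n F` -/
theorem ar_pow {X Z : Scheme.{0}} [IsLocallyNoetherian X] (i : Z ⟶ X) [IsClosedImmersion i]
    (F : X.Modules) (hF : IsCoh F) (n : ℕ) :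
    ∃ (G : X.Modules) (ι : G ⟶ F), IsCoh G ∧ Mono ι ∧
      ∀ U : X.Opens, IsAffineOpen U → ∀ s : Γ(F, U), (∃ t, ap ι U t = s) ↔
        s ∈ RingHom.ker (i.app U).hom ^ n • (⊤ : Submodule Γ(X, U) Γ(F, U)) := by
  induction n with
  | zero =>
    refine ⟨F, 𝟙 F, hF, inferInstance, fun U _ s => ?_⟩
    rw [pow_zero, Ideal.one_eq_top, Submodule.top_smul]
    exact ⟨fun _ => trivial, fun _ => ⟨s, ap_id _ _⟩⟩
  | succ n ih =>
    obtain ⟨G, ι, hG, hi, hs⟩ := ih
    obtain ⟨K, κ, w, hK, hse, -, hs'⟩ := (all_D1 Z X i).2.2.2 G hG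
    have hκ : Mono κ := hse.mono_f
    refine ⟨K, κ ≫ ι, hK, inferInstance, fun U hU s => ?_⟩
    have e : (⊤ : Submodule Γ(X, U) Γ(G, U)).map (ap ι U) =
        RingHom.ker (i.app U).hom ^ n • (⊤ : Submodule Γ(X, U) Γ(F, U)) := by
      ext s
      rw [← hs U hU s, Submodule.mem_map]
      exact ⟨fun ⟨t, _, ht⟩ => ⟨t, ht⟩, fun ⟨t, ht⟩ => ⟨t, trivial, ht⟩⟩
    rw [pow_succ', Submodule.mul_smul, ← e, ← Submodule.map_smul'']
    constructor
    · rintro ⟨t, rfl⟩
      exact ⟨ap κ U t, (hs' U hU _).1 ⟨t, rfl⟩, rfl⟩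
    · rintro ⟨g, hg, rfl⟩
      obtain ⟨t, rfl⟩ := (hs' U hU _).2 hg
      exact ⟨t, rfl⟩

/-- Artin-Rees for modules -/
theorem ar_mod {A M N : Type} [CommRing A] [IsNoetherianRing A] [AddCommGroup M] [Module A M]
    [AddCommGroup N] [Module A N] [Module.Finite A N] (f : M →ₗ[A] N)
    (hf : Function.Injective f) (I : Ideal A) (m : ℕ) (hm : ∀ r ∈ I ^ m, ∀ s : M, r • s = 0) :
    ∃ c : ℕ, ∀ n ≥ c, ∀ s : M, f s ∈ I ^ n • (⊤ : Submodule A N) → s = 0 := by
  obtain ⟨k, hk⟩ := Ideal.exists_pow_inf_eq_pow_smul I (LinearMap.range f)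
  refine ⟨k + m, fun n hn s hs => ?_⟩
  have h1 : f s ∈ I ^ n • (⊤ : Submodule A N) ⊓ LinearMap.range f := ⟨hs, ⟨s, rfl⟩⟩
  rw [hk n (by omega)] at h1
  have h2 : I ^ (n - k) • (I ^ k • (⊤ : Submodule A N) ⊓ LinearMap.range f) ≤
      I ^ m • LinearMap.range f :=
    Submodule.smul_mono (Ideal.pow_le_pow_right (by omega)) inf_le_right
  have h3 : I ^ m • LinearMap.range f = ⊥ := by
    rw [eq_bot_iff, Submodule.smul_le]
    rintro r hr _ ⟨t, rfl⟩
    rw [← map_smul, hm r hr t, map_zero]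
    exact zero_mem _
  have h4 := h2 h1
  rw [h3, Submodule.mem_bot] at h4
  exact hf (h4.trans (map_zero f).symm)

theorem thm_AR (h : St_CL) : St_AR := by
  intro X U _ j _ b K k hk hb hv
  -- the closed complement
  let C0 : Closeds X := ⟨(j.opensRange : Set X)ᶜ, j.opensRange.isOpen.isClosed_compl⟩
  let I : X.IdealSheafData := Scheme.IdealSheafData.vanishingIdeal C0
  let i : I.subscheme ⟶ X := I.subschemeι
  have hi : Set.range i = ((j.opensRange : X.Opens) : Set X)ᶜ := by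
    show Set.range I.subschemeι = _
    rw [Scheme.IdealSheafData.range_subschemeι, Scheme.IdealSheafData.coe_support_vanishingIdeal]
    rfl
  have hK : IsCoh K.obj := @(h X).1 K b k hk hb
  obtain ⟨m, hm⟩ := (thm_D2 I.subscheme X i).1 j.opensRange hi K.obj hK hv
  -- the number for an affine open set
  have key : ∀ V : X.Opens, IsAffineOpen V → ∃ c : ℕ, ∀ n ≥ c, ∀ s : Γ(K.obj, V),
      ap k.hom V s ∈ RingHom.ker (i.app V).hom ^ n • (⊤ : Submodule Γ(X, V) Γ(b.obj, V)) →
        s = 0 := by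
    intro V hV
    have h1 : IsNoetherianRing Γ(X, V) := IsLocallyNoetherian.component_noetherian ⟨V, hV⟩
    have h2 := hb.2 V hV
    exact ar_mod (ap k.hom V) (qc_inj k V) _ m (hm V hV)
  -- the finite affine cover
  have hV : ∀ x : X, ∃ V : X.Opens, IsAffineOpen V ∧ x ∈ V := by
    intro x
    obtain ⟨W, hW, hx, -⟩ := exists_isAffineOpen_mem_and_subset (x := x) (U := ⊤) trivial
    exact ⟨W, hW, hx⟩
  choose V hVa hxV using hV
  obtain ⟨t, ht⟩ := CompactSpace.elim_nhds_subcover (fun x => (V x : Set X))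
    fun x => (V x).isOpen.mem_nhds (hxV x)
  choose c hc using fun x => key (V x) (hVa x)
  let n : ℕ := t.sup c
  have hn : ∀ x ∈ t, c x ≤ n := fun x hx => Finset.le_sup hx
  obtain ⟨G, ι, hG, hι, hs⟩ := ar_pow i b.obj hb n
  let b' : QC X := ⟨G, hG.1⟩
  let μ : b' ⟶ b := ObjectProperty.homMk ι
  have hμ : Mono μ := (qcP X).ι.mono_of_mono_map (f := μ) hι
  refine ⟨b', μ, hμ, ?_, ?_⟩
  · -- the cokernel
    intro W hW hA s
    obtain ⟨u, rfl⟩ := qc_surj (cokernel.π μ) W hA s
    have h1 : RingHom.ker (i.app W).hom = ⊤ := by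
      have h2 : i ⁻¹ᵁ W = ⊥ := by
        rw [eq_bot_iff]
        intro z hz
        have h3 : i z ∈ Set.range i := ⟨z, rfl⟩
        rw [hi] at h3
        exact h3 (hW hz)
      rw [Ideal.eq_top_iff_one, RingHom.mem_ker, map_one]
      have h4 : Subsingleton Γ(I.subscheme, i ⁻¹ᵁ W) := by
        rw [h2]
        infer_instance
      exact Subsingleton.elim _ _
    have h2 : u ∈ RingHom.ker (i.app W).hom ^ n •
        (⊤ : Submodule Γ(X, W) Γ(b.obj, W)) := by
      rw [h1, ← Ideal.one_eq_top, one_pow, Ideal.one_eq_top, Submodule.top_smul]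
      trivial
    obtain ⟨v, hv'⟩ := (hs W hA u).2 h2
    have h5 : μ.hom ≫ (cokernel.π μ).hom = 0 :=
      congrArg InducedCategory.Hom.hom (cokernel.condition μ)
    have h6 : ap (cokernel.π μ).hom W (ap μ.hom W v) = 0 := by
      rw [← ap_comp, h5, ap_zero]
    rw [← hv']
    exact h6
  · -- the intersection with `K`
    intro T x y hxy
    have h0 : ∀ a ∈ t, ∀ s : Γ((image x).obj, V a), s = 0 := by
      intro a ha s
      obtain ⟨u, rfl⟩ := qc_surj (factorThruImage x) (V a) (hVa a) s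
      apply qc_inj (image.ι x) (V a)
      have h1 : ap (image.ι x).hom (V a) (ap (factorThruImage x).hom (V a) u) =
          ap x.hom (V a) u := by
        rw [← ap_comp]
        have h2 : (factorThruImage x).hom ≫ (image.ι x).hom = x.hom :=
          congrArg InducedCategory.Hom.hom (image.fac x)
        rw [h2]
      rw [h1, map_zero]
      apply hc a n (hn a ha)
      rw [← hs (V a) (hVa a)]
      refine ⟨ap y.hom (V a) u, ?_⟩
      have h3 : x.hom ≫ k.hom = y.hom ≫ ι := congrArg InducedCategory.Hom.hom hxy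
      rw [← ap_comp, ← ap_comp, h3]
    have h1 : Van ⊤ (image x).obj := by
      refine (thm_L0 X).2.2.1 _ ⊤ (image x).property fun z _ => ?_
      have h2 : z ∈ ⋃ a ∈ t, (V a : Set X) := by
        rw [ht]
        trivial
      simp only [Set.mem_iUnion] at h2
      obtain ⟨a, ha, hz⟩ := h2
      exact ⟨V a, hVa a, hz, h0 a ha⟩
    have h2 : factorThruImage x = 0 := by
      apply ObjectProperty.hom_ext
      apply hom_ext_ap
      intro W s
      exact (thm_S1 X).2.2.2.1 _ ⊤ h1 W le_top _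
    rw [← image.fac x, h2, zero_comp, zero_comp]

end Pool.Agent.KQG
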