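import Pool.Agent.KQG.AsmDefs

/-!
# KQG: statements of the modules (third part): assembly

Architect helper12. Rules as in `Pool/Agent/KQG/StGeo.lean`: every `def St_X : Prop` is one module
`Pool/Agent/KQG/X.lean` with `theorem thm_X (h.. : St_..) : St_X` in the namespace `Pool.Agent.KQG`.
-/

set_option autoImplicit false

noncomputable section

namespace Pool.Agent.KQG

open CategoryTheory CategoryTheory.Limits AlgebraicGeometry TopologicalSpace
open Pool.Agent.KSS Pool.Agent.KIN Pool.Agent.KQ Pool.Agent.KTX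

universe u

/-- **AS** (2.5 h). The theory `LThy0` with the groups `G.K n (Coh X)` (`LThy0`: `Pool/Agent/KQG/ThDefs.lean`,
`GInt`: `Pool/Agent/KQG/AsmDefs.lean`). Take `T n X = G.K n (Coh X)`, `pull n f` = `G.map n (pullE f)` if both schemes
are locally noetherian, otherwise `0`; `push n f = G.map n (pushE f)`; `bd n i j`: if `X` is noetherian and
`range i = (range j)ᶜ` then the inverse of the bijection `G.map n (pushV i j.opensRange _)` (`G.dev`) after
`G.bd n j`, otherwise `0` (`Classical` choice). Fields: `pull_id`, `pull_comp`, `push_id`, `push_comp`: `St_GA`, `G.ni`,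
`G.map_id`, `G.map_comp`; `bc`: `St_GB`; `free`: `St_GC`, induction on `Mult` with `G.add` (`d = 0`: a functor `F`
with zero values is a conflation `F ⟶ F ⟶ F`, so `map F x = 2 map F x`). `(pushV i O h).comp (incl' (VanS O)) = pushE i` is
`rfl` up to the structure, so `ex`, `ex0`, `exZ`, `push_bd`, `exU`, `bd_pull` are `G.exX`, `G.exZ`, `G.exU`; `dev`: `G.dev` for
`O = ⊥` and the inclusion `(Coh X).sub (VanS ⊥) ⟶ Coh X`, an isomorphism of exact categories (everything vanishes on
`⊥`, `thm_S5` (3)). `nat`: the squares are cartesian, so `X'`, … noetherian (`U`, `U'` are open, `Z`, `Z'` closed subschemes),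
`range i' = (range j')ᶜ`; `G.nat` and the natural isomorphism
`(pushV i).comp (pullV g) ≅ (pullE a).comp (pushV i')` (from `St_GB` for the cartesian square `a, i', i, g` by full faithfulness
of `incl'`), then injectivity of `map n (pushV i')` (`G.dev`). `onto`: `G.onto`. `aff`: `St_GE` and `G.hom`, `G.ni`,
`G.map_comp` (an `ExEquiv` induces bijections).
needs: GA, GB, GC, GE -/
def St_AS : Prop := ∀ G : GInt.{u}, ∃ (L : LThy0.{u})
  (e : ∀ (n : ℕ) (X : Scheme.{0}), (L.th n).T X ≃+ G.K n (Coh X)),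
  (∀ (n : ℕ) (X Y : Scheme.{0}) [IsLocallyNoetherian X] [IsLocallyNoetherian Y] (f : Y ⟶ X)
    [Flat f] (x : (L.th n).T X), e n Y ((L.th n).pull f x) = G.map n (pullE f) (e n X x)) ∧
  (∀ (n : ℕ) (X Y : Scheme.{0}) (f : Y ⟶ X) [IsFinite f] (x : (L.th n).T Y),
    e n X ((L.th n).push f x) = G.map n (pushE f) (e n Y x)) ∧
  (∀ (n : ℕ) (X Z U : Scheme.{0}) [IsNoetherian X] (i : Z ⟶ X) (j : U ⟶ X) [IsClosedImmersion i]
    [IsOpenImmersion j] (h : i ⁻¹ᵁ j.opensRange = ⊥), Set.range i = (Set.range j)ᶜ →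
    ∀ u : (L.th (n + 1)).T U, G.map n (pushV i j.opensRange h) (e n Z (L.bd n i j u)) =
      G.bd n j (e (n + 1) U u))

/-- **FIN** (0.5 h). The `ℤ`-graded theory (`LThy0.toLThy`). needs: AS, HI2 -/
def St_FIN : Prop := ∀ G : GInt.{u}, ∃ (L : LThy.{u})
  (e : ∀ (n : ℕ) (X : Scheme.{0}), (L.th n).T X ≃+ G.K n (Coh X)),
  (∀ (n : ℕ) (X : Scheme.{0}) (x : (L.th (Int.negSucc n)).T X), x = 0) ∧
  (∀ (n : ℕ) (X Y : Scheme.{0}) [IsLocallyNoetherian X] [IsLocallyNoetherian Y] (f : Y ⟶ X)
    [Flat f] (x : (L.th n).T X), e n Y ((L.th n).pull f x) = G.map n (pullE f) (e n X x)) ∧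
  (∀ (n : ℕ) (X Y : Scheme.{0}) (f : Y ⟶ X) [IsFinite f] (x : (L.th n).T Y),
    e n X ((L.th n).push f x) = G.map n (pushE f) (e n Y x))

end Pool.Agent.KQG
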