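import Pool.Agent.KTX.Defs

/-!
# KQG: graded theories without homotopy invariance

`STh0` is `Pool.Agent.KTX.STh` without the field `hom`; `LThy0` is the `ℕ`-graded version of
`Pool.Agent.KTX.LThy` with homotopy invariance only for noetherian rings. `LThy0.HomInv` is homotopy
invariance in general, and `LThy0.toLThy` the `ℤ`-graded theory with zero groups in negative degrees.
-/

set_option autoImplicit false

noncomputable section

namespace Pool.Agent.KQG

open CategoryTheory AlgebraicGeometry Pool.Agent.KTX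

universe u

/-- theories as in `Pool.Agent.KTX.STh`, without homotopy invariance -/
structure STh0 where
  /-- the groups -/
  T : Scheme.{0} → Type u
  /-- the group structure -/
  grp : ∀ X, AddCommGroup (T X)
  /-- pull-back along flat morphisms -/
  pull : ∀ {X Y : Scheme.{0}} (f : X ⟶ Y) [Flat f], T Y →+ T X
  /-- push-forward along finite morphisms -/
  push : ∀ {X Y : Scheme.{0}} (f : X ⟶ Y) [IsFinite f], T X →+ T Y
  pull_id : ∀ (X : Scheme.{0}) [IsNoetherian X] (x : T X), pull (𝟙 X) x = x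
  pull_comp : ∀ {X Y Z : Scheme.{0}} [IsNoetherian X] [IsNoetherian Y] [IsNoetherian Z]
    (f : X ⟶ Y) (g : Y ⟶ Z) [Flat f] [Flat g] (x : T Z), pull (f ≫ g) x = pull f (pull g x)
  push_id : ∀ (X : Scheme.{0}) [IsNoetherian X] (x : T X), push (𝟙 X) x = x
  push_comp : ∀ {X Y Z : Scheme.{0}} [IsNoetherian Z] (f : X ⟶ Y) (g : Y ⟶ Z) [IsFinite f]
    [IsFinite g] (x : T X), push (f ≫ g) x = push g (push f x)
  /-- base change -/
  bc : ∀ {X' X Y' Y : Scheme.{0}} [IsNoetherian Y] [IsNoetherian Y'] (g' : X' ⟶ X) (f' : X' ⟶ Y')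
    (f : X ⟶ Y) (g : Y' ⟶ Y) [Flat g] [IsFinite f] [Flat g'] [IsFinite f'],
    IsPullback g' f' f g → ∀ x : T X, pull g (push f x) = push f' (pull g' x)
  /-- exactness in the middle -/
  ex : ∀ {Z X U : Scheme.{0}} [IsNoetherian X] (i : Z ⟶ X) (j : U ⟶ X) [IsClosedImmersion i]
    [IsOpenImmersion j], Set.range i = (Set.range j)ᶜ → ∀ x : T X, pull j x = 0 →
      ∃ z : T Z, push i z = x
  /-- the composition in the exact sequence is zero -/
  ex0 : ∀ {Z X U : Scheme.{0}} [IsNoetherian X] (i : Z ⟶ X) (j : U ⟶ X) [IsClosedImmersion i]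
    [IsOpenImmersion j], Set.range i = (Set.range j)ᶜ → ∀ z : T Z, pull j (push i z) = 0
  /-- devissage -/
  dev : ∀ {Z X : Scheme.{0}} [IsNoetherian X] (i : Z ⟶ X) [IsClosedImmersion i],
    Function.Surjective i → Function.Injective (push i)
  /-- free algebras -/
  free : ∀ {X Y : Scheme.{0}} [IsNoetherian X] (R R' : Type) [CommRing R] [CommRing R']
    [Algebra R R'] (d : ℕ) (_ : Module.Basis (Fin d) R R') (f : Y ⟶ X)
    (g : Y ⟶ Spec (CommRingCat.of R')) (h : X ⟶ Spec (CommRingCat.of R)) [Flat f] [IsFinite f],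
    IsPullback f g h (Spec.map (CommRingCat.ofHom (algebraMap R R'))) →
      ∀ x : T X, push f (pull f x) = d • x

attribute [instance] STh0.grp

/-- `ℕ`-graded theories with boundary maps and exact localization sequences, homotopy invariant for
noetherian rings -/
structure LThy0 where
  /-- the theories -/
  th : ℕ → STh0.{u}
  /-- the boundary maps -/
  bd : ∀ (n : ℕ) {Z X U : Scheme.{0}} (i : Z ⟶ X) (j : U ⟶ X) [IsClosedImmersion i]
    [IsOpenImmersion j], (th (n + 1)).T U →+ (th n).T Z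
  bd_pull : ∀ (n : ℕ) {Z X U : Scheme.{0}} [IsNoetherian X] (i : Z ⟶ X) (j : U ⟶ X)
    [IsClosedImmersion i] [IsOpenImmersion j], Set.range i = (Set.range j)ᶜ →
    ∀ x : (th (n + 1)).T X, bd n i j ((th (n + 1)).pull j x) = 0
  exU : ∀ (n : ℕ) {Z X U : Scheme.{0}} [IsNoetherian X] (i : Z ⟶ X) (j : U ⟶ X)
    [IsClosedImmersion i] [IsOpenImmersion j], Set.range i = (Set.range j)ᶜ →
    ∀ u : (th (n + 1)).T U, bd n i j u = 0 → ∃ x : (th (n + 1)).T X, (th (n + 1)).pull j x = u
  push_bd : ∀ (n : ℕ) {Z X U : Scheme.{0}} [IsNoetherian X] (i : Z ⟶ X) (j : U ⟶ X)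
    [IsClosedImmersion i] [IsOpenImmersion j], Set.range i = (Set.range j)ᶜ →
    ∀ u : (th (n + 1)).T U, (th n).push i (bd n i j u) = 0
  exZ : ∀ (n : ℕ) {Z X U : Scheme.{0}} [IsNoetherian X] (i : Z ⟶ X) (j : U ⟶ X)
    [IsClosedImmersion i] [IsOpenImmersion j], Set.range i = (Set.range j)ᶜ →
    ∀ z : (th n).T Z, (th n).push i z = 0 → ∃ u : (th (n + 1)).T U, bd n i j u = z
  /-- the boundary commutes with flat pull-backs -/
  nat : ∀ (n : ℕ) {Z X U Z' X' U' : Scheme.{0}} [IsNoetherian X] [IsNoetherian X'] (i : Z ⟶ X)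
    (j : U ⟶ X) (i' : Z' ⟶ X') (j' : U' ⟶ X') (a : Z' ⟶ Z) (g : X' ⟶ X) (b : U' ⟶ U)
    [IsClosedImmersion i] [IsOpenImmersion j] [IsClosedImmersion i'] [IsOpenImmersion j']
    [Flat a] [Flat g] [Flat b], Set.range i = (Set.range j)ᶜ → IsPullback a i' i g →
    IsPullback b j' j g → ∀ u : (th (n + 1)).T U,
      (th n).pull a (bd n i j u) = bd n i' j' ((th (n + 1)).pull b u)
  /-- surjectivity in degree `0` -/
  onto : ∀ {X U : Scheme.{0}} [IsNoetherian X] (j : U ⟶ X) [IsOpenImmersion j],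
    Function.Surjective ((th 0).pull j)
  /-- homotopy invariance for noetherian rings -/
  aff : ∀ (n : ℕ) (A : Type) [CommRing A] [IsNoetherianRing A]
    [Flat (Sm (Polynomial.C : A →+* Polynomial A))],
    Function.Bijective ((th n).pull (Sm (Polynomial.C : A →+* Polynomial A)))

/-- homotopy invariance -/
def LThy0.HomInv (L : LThy0.{u}) : Prop := ∀ (n : ℕ) {X Y : Scheme.{0}} [IsNoetherian X]
  (R : Type) [CommRing R] (f : Y ⟶ X) (g : Y ⟶ Spec (CommRingCat.of (Polynomial R)))
  (h : X ⟶ Spec (CommRingCat.of R)) [Flat f],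
    IsPullback f g h (Spec.map (CommRingCat.ofHom (Polynomial.C : R →+* Polynomial R))) →
      Function.Bijective ((L.th n).pull f)

/-- the zero theory -/
def STh0.zero : STh.{u} where
  T _ := PUnit
  grp _ := inferInstance
  pull _ _ := 0
  push _ _ := 0
  pull_id _ _ _ := rfl
  pull_comp _ _ _ _ _ := rfl
  push_id _ _ _ := rfl
  push_comp _ _ _ _ _ := rfl
  bc _ _ _ _ _ _ _ _ _ _ := rfl
  ex _ _ _ _ _ _ _ := ⟨PUnit.unit, rfl⟩
  ex0 _ _ _ _ _ _ := rfl
  dev _ _ _ _ _ _ := rfl
  hom _ _ _ _ _ _ _ := ⟨fun _ _ _ => rfl, fun _ => ⟨PUnit.unit, rfl⟩⟩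
  free _ _ _ _ _ _ _ _ _ _ _ _ _ _ := rfl

/-- a theory without homotopy invariance which is homotopy invariant -/
def STh0.toSTh (S : STh0.{u}) (h : ∀ {X Y : Scheme.{0}} [IsNoetherian X]
    (R : Type) [CommRing R] (f : Y ⟶ X) (g : Y ⟶ Spec (CommRingCat.of (Polynomial R)))
    (h : X ⟶ Spec (CommRingCat.of R)) [Flat f],
    IsPullback f g h (Spec.map (CommRingCat.ofHom (Polynomial.C : R →+* Polynomial R))) →
      Function.Bijective (S.pull f)) : STh.{u} where
  T := S.T
  grp := S.grp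
  pull := S.pull
  push := S.push
  pull_id := S.pull_id
  pull_comp := S.pull_comp
  push_id := S.push_id
  push_comp := S.push_comp
  bc := S.bc
  ex := S.ex
  ex0 := S.ex0
  dev := S.dev
  hom := h
  free := S.free

/-- the theories of degree `n ∈ ℤ` -/
def LThy0.thZ (L : LThy0.{u}) (h : L.HomInv) : ℤ → STh.{u}
  | Int.ofNat n => (L.th n).toSTh (h n)
  | Int.negSucc _ => STh0.zero

/-- the boundary of degree `n ∈ ℤ` -/
def LThy0.bdZ (L : LThy0.{u}) (h : L.HomInv) : ∀ (n : ℤ) {Z X U : Scheme.{0}} (i : Z ⟶ X)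
    (j : U ⟶ X) [IsClosedImmersion i] [IsOpenImmersion j],
    (L.thZ h (n + 1)).T U →+ (L.thZ h n).T Z
  | Int.ofNat n => fun i j _ _ => L.bd n i j
  | Int.negSucc _ => fun _ _ _ _ => 0

theorem LThy0.thZ_neg (L : LThy0.{u}) (h : L.HomInv) (n : ℕ) {X : Scheme.{0}}
    (x y : (L.thZ h (Int.negSucc n)).T X) : x = y := rfl

/-- the `ℤ`-graded theory, zero in negative degrees -/
def LThy0.toLThy (L : LThy0.{u}) (h : L.HomInv) : LThy.{u} where
  th := L.thZ h
  bd := L.bdZ h
  bd_pull n := by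
    cases n with
    | ofNat n => exact L.bd_pull n
    | negSucc n => intros; rfl
  exU n := by
    cases n with
    | ofNat n => exact L.exU n
    | negSucc n =>
      intro Z X U _ i j _ _ hij u _
      cases n with
      | zero => exact L.onto j u
      | succ n => exact ⟨PUnit.unit, rfl⟩
  push_bd n := by
    cases n with
    | ofNat n => exact L.push_bd n
    | negSucc n => intros; rfl
  exZ n := by
    cases n with
    | ofNat n => exact L.exZ n
    | negSucc n =>
      intro Z X U _ i j _ _ hij z _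
      exact ⟨0, rfl⟩
  nat n := by
    cases n with
    | ofNat n => exact L.nat n
    | negSucc n => intros; rfl

end Pool.Agent.KQG
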