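import Pool.Agent.KQG.GDefs
import Pool.Agent.KQG.MDefs
import Pool.Agent.KQG.ThDefs

/-!
# KQG: statements of the modules (second part): affine schemes, homotopy invariance

Architect helper12. Rules as in `Pool/Agent/KQG/StGeo.lean`: every `def St_X : Prop` is one module
`Pool/Agent/KQG/X.lean` with `theorem thm_X (h.. : St_..) : St_X` in the namespace `Pool.Agent.KQG`.
-/

set_option autoImplicit false

noncomputable section

namespace Pool.Agent.KQG

open CategoryTheory CategoryTheory.Limits AlgebraicGeometry TopologicalSpace
open Pool.Agent.KSS Pool.Agent.KIN Pool.Agent.KQ Pool.Agent.KTX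

universe u

/-- **GE** (2 h). Coherent sheaves on an affine noetherian scheme `Spec A` are finitely generated
`A`-modules, compatibly with flat base change. The functor `MA A ⟶ Coh (Spec A)` is `tilde.functor`
(`Mathlib.AlgebraicGeometry.Modules.Tilde`; fully faithful, `isIso_fromTildeΓ_of_isQuasicoherent` gives
essential surjectivity; sections over `⊤` are the module); coherent: `thm_L0` (4) (the whole space is affine) or as in
`Pool/Agent/KIN/H1.lean`; exact: `thm_L0` (1) with `V = ⊤`. The inverse functor is global sections with
the isomorphisms of the adjunction `tilde.adjunction`; exact by `ses_sec`. Base change: natural isomorphism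
`(Spec φ)^* N^~ ≅ (B ⊗ N)^~`: the composition of left adjoints
(`tilde` is left adjoint to global sections, pull-back to push-forward, `extendScalars` to `restrictScalars`; the
right adjoints agree: `Γ(f_* M, ⊤) = Γ(M, ⊤)`), or the natural map induced by `eta` with `thm_P1` on global
sections and `thm_L0` (2) for `V = ⊤` (see `Pool/Agent/KIN/H1.lean`). needs: nothing -/
def St_GE : Prop := ∃ e : ∀ (A : Type) [CommRing A], ExEquiv (MA A) (Coh (Sp A)),
  ∀ (A B : Type) [CommRing A] [CommRing B] [IsNoetherianRing A] [IsNoetherianRing B]
    (φ : A →+* B) (hφ : φ.Flat) [Flat (Sm φ)],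
    NI ((e A).fwd.comp (pullE (Sm φ))) ((bcE φ hφ).comp (e B).fwd)

/-- **HI1** (1.5 h). Homotopy invariance for affine schemes `X ≅ Spec A` (`A` noetherian): the
cartesian square over `R → R[t]` is isomorphic to `Spec A[t] → Spec A` (`Limits.IsPullback.isoIsPullback`; the square
of `Spec A[t]`, `Spec A`, `Spec R[t]`, `Spec R` is cartesian: `A[t] = A ⊗[R] R[t]`, see
`Pool/Agent/KIN/H2.lean` or `Pool/Agent/KTX/R0.lean` for the same argument); `pull` of an isomorphism is
bijective (`pull_id`, `pull_comp`, `Flat` of isomorphisms), `LThy0.aff`. needs: nothing -/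
def St_HI1 : Prop := ∀ (L : LThy0.{u}) (n : ℕ) (X Y : Scheme.{0}) [IsNoetherian X] [IsAffine X]
  (R : Type) [CommRing R] (f : Y ⟶ X) (g : Y ⟶ Spec (CommRingCat.of (Polynomial R)))
  (h : X ⟶ Spec (CommRingCat.of R)) [Flat f],
    IsPullback f g h (Spec.map (CommRingCat.ofHom (Polynomial.C : R →+* Polynomial R))) →
      Function.Bijective ((L.th n).pull f)

/-- **HI2** (2.5 h). Homotopy invariance in general, all degrees at once, by noetherian induction over
the closed subsets of `X` (as in `Pool/Agent/KIN/H2.lean`): claim for all closed immersions `Z → X` with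
range `C`, where `Y_Z = Y ×_X Z`. `Z` empty: all groups are zero (`ex0` for the identities of the empty scheme). `Z`
nonempty: `W` a nonempty affine open subscheme, `Z'` its complement with the reduced structure. For `Z`:
INJECTIVE in degree `n`: `x ↦ 0`; `x|W = 0` (`St_HI1`), `x = push z'`, `push (pull z') = pull (push z') = 0` (`bc`),
`pull z' = bd y` (`exZ`), `y = pull w` (`St_HI1`), `pull z' = pull (bd w)` (`nat`), `z' = bd w` (induction), `x = 0` (`push_bd`).
SURJECTIVE: `y`; `y|Y_W = pull w`; `w` lifts to `T_n Z`: for `n = 0` by `onto`, for `n = m + 1` because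
`pull (bd w) = bd (pull w) = bd (y|Y_W) = 0` (`nat`, `bd_pull`), so `bd w = 0` (induction), `exU`. Then `y - pull x` restricts
to `0` on `Y_W`, so it is `push y'` (`ex`), `y' = pull z'` (induction), `push (pull z') = pull (push z')`.
All squares are cartesian by construction (`Limits.pullback`, pasting); `Y_Z` is noetherian (finite type over `Z`).
needs: HI1 -/
def St_HI2 : Prop := ∀ L : LThy0.{u}, L.HomInv

end Pool.Agent.KQG
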