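import Pool.Agent.KQG.StGeo
import Pool.Agent.KQG.StTh
import Pool.Agent.KQG.StAsm

/-!
# KQG: module AS: the graded theory
-/

set_option autoImplicit false

noncomputable section

namespace Pool.Agent.KQG

open CategoryTheory CategoryTheory.Limits AlgebraicGeometry TopologicalSpace
open Pool.Agent.KSS Pool.Agent.KIN Pool.Agent.KQ Pool.Agent.KTX

universe u

/-! ### geometry -/

theorem as_range {X' X Y' Y : Scheme.{0}} {g' : X' ⟶ X} {f' : X' ⟶ Y'} {f : X ⟶ Y} {g : Y' ⟶ Y}
    (h : IsPullback g' f' f g) : Set.range f' = g ⁻¹' Set.range f := by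
  rw [← Scheme.Pullback.range_snd f g]
  ext y
  constructor
  · rintro ⟨x, rfl⟩
    exact ⟨h.isoPullback.hom x, by rw [← Scheme.Hom.comp_apply, h.isoPullback_hom_snd]⟩
  · rintro ⟨x, rfl⟩
    exact ⟨h.isoPullback.inv x, by rw [← Scheme.Hom.comp_apply, h.isoPullback_inv_snd]⟩

theorem as_bot {X Z U : Scheme.{0}} (i : Z ⟶ X) (j : U ⟶ X) [IsOpenImmersion j]
    (hij : Set.range i = (Set.range j)ᶜ) : i ⁻¹ᵁ j.opensRange = ⊥ := by
  rw [eq_bot_iff]
  intro z hz
  have h1 : i z ∈ Set.range j := hz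
  have h2 : i z ∈ (Set.range j)ᶜ := hij ▸ ⟨z, rfl⟩
  exact h2 h1

theorem as_compl {X Z U : Scheme.{0}} (i : Z ⟶ X) (j : U ⟶ X) [IsOpenImmersion j]
    (hij : Set.range i = (Set.range j)ᶜ) : Set.range i = (j.opensRange : Set X)ᶜ := by
  rw [hij]
  rfl

/-! ### functors -/

theorem as_incl {X Z : Scheme.{0}} (i : Z ⟶ X) [IsFinite i] (O : X.Opens) (h : i ⁻¹ᵁ O = ⊥) :
    (pushV i O h).comp ((Coh X).incl' (VanS O)) = pushE i := rfl

/-- everything vanishes on the empty set -/
def as_r (X : Scheme.{0}) : ExFun (Coh X) ((Coh X).sub (VanS ⊥)) where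
  F :=
    { obj := fun M => ⟨M.obj, ⟨M.property, (thm_S5 thm_S1 thm_S2 X).2.2.1 _⟩⟩
      map := fun f => ObjectProperty.homMk f.hom
      map_id := fun _ => rfl
      map_comp := fun _ _ => rfl }
  add _ _ := rfl
  exact _ _ hc := hc

theorem as_r_incl (X : Scheme.{0}) :
    ((Coh X).incl' (VanS ⊥)).comp (as_r X) = ExFun.id _ := rfl

/-- natural isomorphisms of functors to a full subcategory -/
theorem as_ni {E E' : ExCat.{0}} (A : SubP E') (F F' : ExFun E (E'.sub A))
    (h : NI (F.comp (E'.incl' A)) (F'.comp (E'.incl' A))) : NI F F' := by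
  obtain ⟨e⟩ := h
  refine ⟨NatIso.ofComponents (fun M => ObjectProperty.isoMk _ ((E'.P.ι).mapIso (e.app M)))
    fun {M N} f => ?_⟩
  apply ObjectProperty.hom_ext
  have h2 := congrArg (fun t : (F.comp (E'.incl' A)).F.obj M ⟶ (F'.comp (E'.incl' A)).F.obj N =>
    t.hom) (e.hom.naturality f)
  exact h2

/-! ### the groups -/

section

variable (G : GInt.{u})

/-- a functor with zero values -/
theorem as_zero (n : ℕ) {E E' : ExCat.{0}} (F : ExFun E E') (h : ∀ M : E.Ob, IsZero (F.F.obj M))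
    (x : G.K n E) : G.map n F x = 0 := by
  have h1 : ∀ M : E.Ob, IsZero (F.F.obj M).obj := fun M => by
    rw [IsZero.iff_id_eq_zero]
    exact congrArg (fun t : F.F.obj M ⟶ F.F.obj M => t.hom) ((h M).eq_of_src (𝟙 _) 0)
  have h2 := G.add n F F F (𝟙 _) (𝟙 _) (fun M => ses_of_isZero _ _ (h1 M) (h1 M) (h1 M)) x
  exact left_eq_add.1 h2

theorem as_mult (n : ℕ) {E E' : ExCat.{0}} (F₀ : ExFun E E') (d : ℕ) (F : ExFun E E')
    (h : Mult F₀ d F) (x : G.K n E) : G.map n F x = d • G.map n F₀ x := by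
  induction h with
  | zero F h => rw [as_zero G n F h, zero_smul]
  | succ d F F' α β h h' ih => rw [G.add n F' F F₀ α β h x, ih, succ_nsmul]

open Classical in
/-- pull-back -/
def as_pull (n : ℕ) {X Y : Scheme.{0}} (f : X ⟶ Y) [Flat f] : G.K n (Coh Y) →+ G.K n (Coh X) :=
  if h : IsLocallyNoetherian X ∧ IsLocallyNoetherian Y then
    (haveI := h.1; haveI := h.2; G.map n (pullE f))
  else 0

theorem as_pull_eq (n : ℕ) {X Y : Scheme.{0}} (f : X ⟶ Y) [Flat f] [h1 : IsLocallyNoetherian X]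
    [h2 : IsLocallyNoetherian Y] : as_pull G n f = G.map n (pullE f) := dif_pos ⟨h1, h2⟩

/-- the theory of degree `n` -/
def as_th (hGA : St_GA) (hGB : St_GB) (hGC : St_GC) (n : ℕ) : STh0.{u} where
  T X := G.K n (Coh X)
  grp X := G.grp n (Coh X)
  pull f _ := as_pull G n f
  push f _ := G.map n (pushE f)
  pull_id X _ x := by
    rw [as_pull_eq, G.ni n _ _ (hGA.1 X), G.map_id]
  pull_comp {X Y Z} _ _ _ f g _ _ x := by
    rw [as_pull_eq, as_pull_eq, as_pull_eq, G.ni n _ _ (hGA.2.1 X Y Z f g), G.map_comp]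
  push_id X _ x := by
    rw [G.ni n _ _ (hGA.2.2.1 X), G.map_id]
  push_comp {X Y Z} _ f g _ _ x := by
    rw [G.ni n _ _ (hGA.2.2.2 X Y Z f g), G.map_comp]
  bc {X' X Y' Y} _ _ g' f' f g _ _ _ _ h x := by
    have : IsLocallyNoetherian X := LocallyOfFiniteType.isLocallyNoetherian f
    have : IsLocallyNoetherian X' := LocallyOfFiniteType.isLocallyNoetherian f'
    rw [as_pull_eq, as_pull_eq, ← G.map_comp, ← G.map_comp]
    exact G.ni n _ _ (hGB X' X Y' Y g' f' f g h) x
  ex {Z X U} _ i j _ _ hij x hx := by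
    have : IsLocallyNoetherian U := isLocallyNoetherian_of_isOpenImmersion j
    rw [as_pull_eq] at hx
    obtain ⟨z, rfl⟩ := (G.exX n j x).1 hx
    obtain ⟨z', rfl⟩ := (G.dev n i j.opensRange (as_bot i j hij) (as_compl i j hij)).2 z
    exact ⟨z', by rw [← G.map_comp, as_incl]⟩
  ex0 {Z X U} _ i j _ _ hij z := by
    have : IsLocallyNoetherian U := isLocallyNoetherian_of_isOpenImmersion j
    rw [as_pull_eq, G.exX n j]
    exact ⟨G.map n (pushV i j.opensRange (as_bot i j hij)) z, by rw [← G.map_comp, as_incl]⟩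
  dev {Z X} _ i _ hi := by
    have h0 : i ⁻¹ᵁ (⊥ : X.Opens) = ⊥ := rfl
    have h1 : Set.range i = ((⊥ : X.Opens) : Set X)ᶜ := by
      rw [hi.range_eq]
      simp
    rw [← as_incl i ⊥ h0]
    intro x y hxy
    rw [G.map_comp, G.map_comp] at hxy
    refine (G.dev n i ⊥ h0 h1).1 ?_
    have h2 := congrArg (G.map n (as_r X)) hxy
    rw [← G.map_comp n ((Coh X).incl' (VanS ⊥)) (as_r X),
      ← G.map_comp n ((Coh X).incl' (VanS ⊥)) (as_r X), as_r_incl, G.map_id, G.map_id] at h2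
    exact h2
  free {X Y} _ R R' _ _ _ d b f g h _ _ hp x := by
    have : IsLocallyNoetherian Y := LocallyOfFiniteType.isLocallyNoetherian f
    rw [as_pull_eq, ← G.map_comp, as_mult G n _ d _ (hGC X Y R R' d b f g h hp), G.map_id]

/-! ### the boundary -/

/-- devissage as an isomorphism -/
def as_dev (n : ℕ) {X Z : Scheme.{0}} [IsNoetherian X] (i : Z ⟶ X) [IsClosedImmersion i]
    (O : X.Opens) (h : i ⁻¹ᵁ O = ⊥) (h' : Set.range i = (O : Set X)ᶜ) :
    G.K n (Coh Z) ≃+ G.K n ((Coh X).sub (VanS O)) :=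
  AddEquiv.ofBijective (G.map n (pushV i O h)) (G.dev n i O h h')

open Classical in
/-- the boundary -/
def as_bd (n : ℕ) {Z X U : Scheme.{0}} (i : Z ⟶ X) (j : U ⟶ X) [IsClosedImmersion i]
    [IsOpenImmersion j] : G.K (n + 1) (Coh U) →+ G.K n (Coh Z) :=
  if h : IsNoetherian X ∧ Set.range i = (Set.range j)ᶜ then
    (@as_dev G n X Z h.1 i _ j.opensRange (as_bot i j h.2)
      (as_compl i j h.2)).symm.toAddMonoidHom.comp (@GInt.bd G n X U h.1 j _)
  else 0

theorem as_bd_spec (n : ℕ) {Z X U : Scheme.{0}} [hX : IsNoetherian X] (i : Z ⟶ X) (j : U ⟶ X)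
    [IsClosedImmersion i] [IsOpenImmersion j] (hij : Set.range i = (Set.range j)ᶜ)
    (u : G.K (n + 1) (Coh U)) :
    G.map n (pushV i j.opensRange (as_bot i j hij)) (as_bd G n i j u) = G.bd n j u := by
  unfold as_bd
  rw [dif_pos ⟨hX, hij⟩]
  exact (as_dev G n i j.opensRange (as_bot i j hij) (as_compl i j hij)).apply_symm_apply
    (G.bd n j u)

theorem as_inj (n : ℕ) {Z X U : Scheme.{0}} [hX : IsNoetherian X] (i : Z ⟶ X) (j : U ⟶ X)
    [IsClosedImmersion i] [IsOpenImmersion j] (hij : Set.range i = (Set.range j)ᶜ) :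
    Function.Injective (G.map n (pushV i j.opensRange (as_bot i j hij))) :=
  (G.dev n i j.opensRange (as_bot i j hij) (as_compl i j hij)).1

theorem as_bd_pull (n : ℕ) {Z X U : Scheme.{0}} [IsNoetherian X] (i : Z ⟶ X) (j : U ⟶ X)
    [IsClosedImmersion i] [IsOpenImmersion j] (hij : Set.range i = (Set.range j)ᶜ)
    (x : G.K (n + 1) (Coh X)) : as_bd G n i j (as_pull G (n + 1) j x) = 0 := by
  have : IsLocallyNoetherian U := isLocallyNoetherian_of_isOpenImmersion j
  apply as_inj G n i j hij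
  rw [as_bd_spec G n i j hij, map_zero, as_pull_eq, G.exU n j]
  exact ⟨x, rfl⟩

theorem as_exU (n : ℕ) {Z X U : Scheme.{0}} [IsNoetherian X] (i : Z ⟶ X) (j : U ⟶ X)
    [IsClosedImmersion i] [IsOpenImmersion j] (hij : Set.range i = (Set.range j)ᶜ)
    (u : G.K (n + 1) (Coh U)) (hu : as_bd G n i j u = 0) : ∃ x, as_pull G (n + 1) j x = u := by
  have : IsLocallyNoetherian U := isLocallyNoetherian_of_isOpenImmersion j
  have h1 := as_bd_spec G n i j hij u
  rw [hu, map_zero] at h1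
  obtain ⟨y, hy⟩ := (G.exU n j u).1 h1.symm
  exact ⟨y, by rw [as_pull_eq, hy]⟩

theorem as_push_bd (n : ℕ) {Z X U : Scheme.{0}} [IsNoetherian X] (i : Z ⟶ X) (j : U ⟶ X)
    [IsClosedImmersion i] [IsOpenImmersion j] (hij : Set.range i = (Set.range j)ᶜ)
    (u : G.K (n + 1) (Coh U)) : G.map n (pushE i) (as_bd G n i j u) = 0 := by
  rw [← as_incl i j.opensRange (as_bot i j hij), G.map_comp, as_bd_spec G n i j hij, G.exZ n j]
  exact ⟨u, rfl⟩

theorem as_exZ (n : ℕ) {Z X U : Scheme.{0}} [IsNoetherian X] (i : Z ⟶ X) (j : U ⟶ X)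
    [IsClosedImmersion i] [IsOpenImmersion j] (hij : Set.range i = (Set.range j)ᶜ)
    (z : G.K n (Coh Z)) (hz : G.map n (pushE i) z = 0) : ∃ u, as_bd G n i j u = z := by
  rw [← as_incl i j.opensRange (as_bot i j hij), G.map_comp, G.exZ n j] at hz
  obtain ⟨u, hu⟩ := hz
  refine ⟨u, as_inj G n i j hij ?_⟩
  rw [← hu]
  exact as_bd_spec G n i j hij u

theorem as_nat (hGB : St_GB) (n : ℕ) {Z X U Z' X' U' : Scheme.{0}} [IsNoetherian X]
    [IsNoetherian X'] (i : Z ⟶ X) (j : U ⟶ X) (i' : Z' ⟶ X') (j' : U' ⟶ X') (a : Z' ⟶ Z)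
    (g : X' ⟶ X) (b : U' ⟶ U) [IsClosedImmersion i] [IsOpenImmersion j] [IsClosedImmersion i']
    [IsOpenImmersion j'] [Flat a] [Flat g] [Flat b] (hij : Set.range i = (Set.range j)ᶜ)
    (hp : IsPullback a i' i g) (hq : IsPullback b j' j g) (u : G.K (n + 1) (Coh U)) :
    as_pull G n a (as_bd G n i j u) = as_bd G n i' j' (as_pull G (n + 1) b u) := by
  have hU : IsLocallyNoetherian U := isLocallyNoetherian_of_isOpenImmersion j
  have hU' : IsLocallyNoetherian U' := isLocallyNoetherian_of_isOpenImmersion j'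
  have hZ : IsLocallyNoetherian Z := LocallyOfFiniteType.isLocallyNoetherian i
  have hZ' : IsLocallyNoetherian Z' := LocallyOfFiniteType.isLocallyNoetherian i'
  have hij' : Set.range i' = (Set.range j')ᶜ := by
    rw [as_range hp, as_range hq, hij, Set.preimage_compl]
  have hO : j'.opensRange ≤ g ⁻¹ᵁ j.opensRange := by
    intro x hx
    have h1 : x ∈ Set.range j' := hx
    rw [as_range hq] at h1
    exact h1
  have hni : NI ((pushV i j.opensRange (as_bot i j hij)).comp
      (pullV g j.opensRange j'.opensRange hO))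
      ((pullE a).comp (pushV i' j'.opensRange (as_bot i' j' hij'))) :=
    as_ni _ _ _ (hGB Z' Z X' X a i' i g hp)
  apply as_inj G n i' j' hij'
  rw [as_bd_spec G n i' j' hij', as_pull_eq, as_pull_eq, ← G.map_comp, ← G.ni n _ _ hni,
    G.map_comp, as_bd_spec G n i j hij, G.nat n j j' g b hO hq.w]

/-- equivalences -/
theorem as_equiv (n : ℕ) {E E' : ExCat.{0}} (e : ExEquiv E E') :
    Function.Bijective (G.map n e.fwd) := by
  refine Function.bijective_iff_has_inverse.2 ⟨G.map n e.bwd, fun x => ?_, fun x => ?_⟩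
  · rw [← G.map_comp, ← G.ni n (ExFun.id E) (e.fwd.comp e.bwd) ⟨e.unit⟩, G.map_id]
  · rw [← G.map_comp, G.ni n (e.bwd.comp e.fwd) (ExFun.id E') ⟨e.counit⟩, G.map_id]

theorem as_aff (hGE : St_GE) (n : ℕ) (A : Type) [CommRing A] [IsNoetherianRing A]
    [Flat (Sm (Polynomial.C : A →+* Polynomial A))] :
    Function.Bijective (as_pull G n (Sm (Polynomial.C : A →+* Polynomial A))) := by
  obtain ⟨e, he⟩ := hGE
  have hφ : (Polynomial.C : A →+* Polynomial A).Flat := by
    have h0 : (algebraMap A (Polynomial A)).Flat := RingHom.flat_algebraMap_iff.2 inferInstance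
    rwa [Polynomial.algebraMap_eq] at h0
  have h1 := G.ni n _ _ (he A (Polynomial A) Polynomial.C hφ)
  rw [as_pull_eq]
  have h2 : Function.Bijective (fun x => G.map n (pullE (Sm (Polynomial.C : A →+* Polynomial A)))
      (G.map n (e A).fwd x)) := by
    have h3 : (fun x => G.map n (pullE (Sm (Polynomial.C : A →+* Polynomial A)))
        (G.map n (e A).fwd x)) = fun x => G.map n (e (Polynomial A)).fwd
        (G.map n (bcE Polynomial.C hφ) x) := by
      funext x
      rw [← G.map_comp, h1, G.map_comp]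
    rw [h3]
    exact (as_equiv G n (e (Polynomial A))).comp (G.hom n A hφ)
  exact (Function.Bijective.of_comp_iff _ (as_equiv G n (e A))).1 h2

/-- the theory -/
def as_L (hGA : St_GA) (hGB : St_GB) (hGC : St_GC) (hGE : St_GE) : LThy0.{u} where
  th n := as_th G hGA hGB hGC n
  bd n {Z X U} i j _ _ := as_bd G n i j
  bd_pull n {Z X U} _ i j _ _ hij x := as_bd_pull G n i j hij x
  exU n {Z X U} _ i j _ _ hij u hu := as_exU G n i j hij u hu
  push_bd n {Z X U} _ i j _ _ hij u := as_push_bd G n i j hij u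
  exZ n {Z X U} _ i j _ _ hij z hz := as_exZ G n i j hij z hz
  nat n {Z X U Z' X' U'} _ _ i j i' j' a g b _ _ _ _ _ _ _ hij hp hq u :=
    as_nat G hGB n i j i' j' a g b hij hp hq u
  onto {X U} _ j _ := by
    have : IsLocallyNoetherian U := isLocallyNoetherian_of_isOpenImmersion j
    change Function.Surjective (as_pull G 0 j)
    rw [as_pull_eq]
    exact G.onto j
  aff n A _ _ _ := as_aff G hGE n A

end

theorem thm_AS (hGA : St_GA) (hGB : St_GB) (hGC : St_GC) (hGE : St_GE) : St_AS.{u} := by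
  intro G
  refine ⟨as_L G hGA hGB hGC hGE, fun n X => AddEquiv.refl _, ?_, ?_, ?_⟩
  · intro n X Y _ _ f _ x
    exact congrArg (fun t : G.K n (Coh X) →+ G.K n (Coh Y) => t x) (as_pull_eq G n f)
  · intro n X Y f _ x
    rfl
  · intro n X Z U _ i j _ _ h hij u
    exact as_bd_spec G n i j hij u

end Pool.Agent.KQG
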