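import Pool.Agent.KQG.StLD
import Pool.Agent.KIN.All

/-!
# KQG, module DA: closed immersions, the counit and the essential image of the push-forward
-/

set_option autoImplicit false

noncomputable section

namespace Pool.Agent.KQG

open CategoryTheory CategoryTheory.Limits AlgebraicGeometry TopologicalSpace Function
open Pool.Agent.KSS Pool.Agent.KIN Pool.Agent.KQ

/-- the ideal of `Z` kills `i_* N` -/
theorem da_kill {Z X : Scheme.{0}} (i : Z ⟶ X) (N : Z.Modules) (U : X.Opens)
    (r : Γ(X, U)) (hr : r ∈ RingHom.ker (i.app U).hom) (s : Γ(pf i N, U)) : r • s = 0 := by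
  have h1 : r • s = (show Γ(pf i N, U) from
    ((i.app U).hom r) • (show Γ(N, i ⁻¹ᵁ U) from s)) := rfl
  rw [h1, RingHom.mem_ker.1 hr, zero_smul]
  rfl

/-- the counit is an isomorphism on quasi-coherent sheaves -/
theorem da_counit {Z X : Scheme.{0}} (i : Z ⟶ X) [IsClosedImmersion i] (N : Z.Modules)
    (hN : N.IsQuasicoherent) :
    IsIso ((Scheme.Modules.pullbackPushforwardAdjunction i).counit.app N) := by
  have hq : (pf i N).IsQuasicoherent := (all_S6 X Z i).1 _ hN
  have hk : ∀ U : X.Opens, IsAffineOpen U → ∀ r ∈ RingHom.ker (i.app U).hom,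
      ∀ s : Γ(pf i N, U), r • s = 0 := fun U _ r hr s => da_kill i N U r hr s
  obtain ⟨hb, -⟩ := d1_two i thm_A0 thm_L0 thm_P1 (pf i N) hq hk
  let ε : pb i (pf i N) ⟶ N := (Scheme.Modules.pullbackPushforwardAdjunction i).counit.app N
  have htri : eta i (pf i N) ≫ (Scheme.Modules.pushforward i).map ε = 𝟙 (pf i N) :=
    (Scheme.Modules.pullbackPushforwardAdjunction i).right_triangle_components N
  have hε : ∀ U : X.Opens, IsAffineOpen U → Bijective (ap ε (i ⁻¹ᵁ U)) := by
    intro U hU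
    have h1 : ∀ s : Γ(pf i N, U), ap ε (i ⁻¹ᵁ U)
        (show Γ(pb i (pf i N), i ⁻¹ᵁ U) from ap (eta i (pf i N)) U s) =
          (show Γ(N, i ⁻¹ᵁ U) from s) := by
      intro s
      have h2 : ap (eta i (pf i N) ≫ (Scheme.Modules.pushforward i).map ε) U s = s := by
        rw [htri, ap_id]
      exact h2
    constructor
    · intro a b hab
      obtain ⟨s, hs⟩ := (hb U hU).2 a
      obtain ⟨t, ht⟩ := (hb U hU).2 b
      have h2 := h1 s
      have h3 := h1 t
      have hs' : (show Γ(pb i (pf i N), i ⁻¹ᵁ U) from ap (eta i (pf i N)) U s) = a := hs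
      have ht' : (show Γ(pb i (pf i N), i ⁻¹ᵁ U) from ap (eta i (pf i N)) U t) = b := ht
      rw [hs'] at h2
      rw [ht'] at h3
      have h4 : s = t := h2.symm.trans (hab.trans h3)
      rw [← hs', ← ht', h4]
    · intro c
      exact ⟨_, h1 c⟩
  refine (thm_L0 Z).2.1 _ _ ε (thm_P1 X Z i _ hq).1 hN fun z => ?_
  obtain ⟨V, hV, hx⟩ := d1_aff X (i z)
  exact ⟨i ⁻¹ᵁ V, hV.preimage i, hx, hε V hV⟩

theorem da_counit_app {Z X : Scheme.{0}} (i : Z ⟶ X) [IsClosedImmersion i] (N : QC Z) :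
    IsIso (((Scheme.Modules.pullbackPushforwardAdjunction i).restrictFullyFaithful (L := pbQ i)
      (R := pfQ i) (qcP X).fullyFaithfulι (qcP Z).fullyFaithfulι (Iso.refl _)
      (Iso.refl _)).counit.app N) := by
  have h1 := Adjunction.map_restrictFullyFaithful_counit_app (L := pbQ i) (R := pfQ i)
    (Scheme.Modules.pullbackPushforwardAdjunction i) (qcP X).fullyFaithfulι
    (qcP Z).fullyFaithfulι (Iso.refl _) (Iso.refl _) N
  have h2 : IsIso ((Scheme.Modules.pullbackPushforwardAdjunction i).counit.app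
      ((qcP Z).ι.obj N)) := da_counit i N.obj N.property
  have h3 : IsIso ((qcP Z).ι.map (((Scheme.Modules.pullbackPushforwardAdjunction
      i).restrictFullyFaithful (L := pbQ i) (R := pfQ i) (qcP X).fullyFaithfulι
      (qcP Z).fullyFaithfulι (Iso.refl _) (Iso.refl _)).counit.app N)) := by
    rw [h1]
    refine @IsIso.comp_isIso _ _ _ _ _ _ _ ?_ (@IsIso.comp_isIso _ _ _ _ _ _ _ ?_ h2)
    · exact IsIso.id _
    · exact @Functor.map_isIso _ _ _ _ _ _ (Scheme.Modules.pullback i) _ (IsIso.id _)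
  exact isIso_of_reflects_iso _ (qcP Z).ι

theorem da_one {Z X : Scheme.{0}} (i : Z ⟶ X) [IsClosedImmersion i] :
    IsIso (adjQ i).counit := by
  have h : ∀ N : QC Z, IsIso ((adjQ i).counit.app N) := fun N => by
    unfold adjQ
    exact da_counit_app i N
  exact NatIso.isIso_of_isIso_app _

/-- **DA.** -/
theorem thm_DA : St_DA := by
  intro X Z _ i _
  refine ⟨da_one i, fun M => ⟨?_, ?_⟩⟩
  · rintro ⟨N, hN, ⟨e⟩⟩
    have e' : pf i N.obj ≅ M.obj := (qcP X).ι.mapIso e
    refine ⟨coh_iso e' (coh_pf i N.obj hN), fun U hU r hr s => ?_⟩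
    have h1 : ap e'.hom U (ap e'.inv U s) = s := by
      rw [← ap_comp, e'.inv_hom_id, ap_id]
    rw [← h1, ← (ap e'.hom U).map_smul, da_kill i N.obj U r hr, map_zero]
  · rintro ⟨hM, h⟩
    have hZ : IsLocallyNoetherian Z := LocallyOfFiniteType.isLocallyNoetherian i
    have hi : IsIso (eta i M.obj) := (all_D1 Z X i).2.1 M.obj hM h
    have hp : IsCoh (pb i M.obj) := all_P2.2.1 X Z i M.obj hM
    let e : M.obj ≅ pf i (pb i M.obj) := asIso (eta i M.obj)
    exact ⟨(pbQ i).obj M, hp, ⟨(qcP X).fullyFaithfulι.preimageIso e.symm⟩⟩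

end Pool.Agent.KQG
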