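import Pool.Agent.KQG.StLD
import Pool.Agent.KQG.CL
import Pool.Agent.KIN.All

/-!
# KQG, module DB: the closure properties for devissage
-/

set_option autoImplicit false

noncomputable section

namespace Pool.Agent.KQG

open CategoryTheory CategoryTheory.Limits AlgebraicGeometry TopologicalSpace
open Pool.Agent.KSS Pool.Agent.KIN Pool.Agent.KQ

/-- sums of sheaves from `kI i` -/
theorem kI_sum {X Z : Scheme.{0}} (i : Z ⟶ X) [IsClosedImmersion i] : SumC (kI i) := by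
  rintro M N ⟨A, hA, ⟨a⟩⟩ ⟨B, hB, ⟨b⟩⟩
  haveI : PreservesBinaryBiproducts (pfQ i) := preservesBinaryBiproducts_of_preservesBiproducts _
  refine ⟨A ⊞ B, ?_, ⟨(pfQ i).mapBiprod A B ≪≫ biprod.mapIso a b⟩⟩
  have h : SES (biprod.inl : A ⟶ A ⊞ B) (biprod.snd : A ⊞ B ⟶ B) :=
    ⟨biprod.inl_snd, (ShortComplex.Splitting.ofHasBinaryBiproduct A B).shortExact⟩
  exact (Coh Z).ext _ _ h hA hB

theorem thm_DB (hCL : St_CL) (hDA : St_DA) : St_DB := by
  intro X Z _ i _ O hO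
  obtain ⟨hs, hq, hv⟩ := hCL X
  obtain ⟨hvs, hvq⟩ := hv O
  obtain ⟨-, hk⟩ := hDA X Z i
  exact
  { isoP := fun e h => (VanS O).iso e h
    extP := fun f g h h1 h2 => (VanS O).ext f g h h1 h2
    zerP := fun M h => (VanS O).zero M h
    subP := hvs
    quoP := hvq
    le := by
      rintro M ⟨N, hN, ⟨e⟩⟩
      exact (VanS O).iso e ⟨coh_pf i N.obj hN, van_pf i O hO N.obj⟩
    isoB := by
      rintro M M' e ⟨N, hN, ⟨e'⟩⟩
      exact ⟨N, hN, ⟨e' ≪≫ e⟩⟩
    zerB := fun M hM => (hk M).2 ⟨coh_zero ((qcP X).ι.map_isZero hM), fun U hU r hr s => by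
      rw [ap_isZero ((qcP X).ι.map_isZero hM) U s, smul_zero]⟩
    subB := by
      intro M N f hf h
      obtain ⟨h1, h2⟩ := (hk N).1 h
      refine (hk M).2 ⟨@hs _ _ f hf h1, fun U hU r hr s => qc_inj f U ?_⟩
      rw [(ap f.hom U).map_smul, h2 U hU r hr, map_zero]
    quoB := by
      intro M N f hf h
      obtain ⟨h1, h2⟩ := (hk M).1 h
      refine (hk N).2 ⟨@hq _ _ f hf h1, fun U hU r hr s => ?_⟩
      obtain ⟨t, rfl⟩ := qc_surj f U hU s
      rw [← (ap f.hom U).map_smul, h2 U hU r hr, map_zero]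
    sumB := kI_sum i }

end Pool.Agent.KQG
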