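import Pool.Agent.KQG.CL
import Pool.Agent.KIN.All

/-!
# KQG DC: the functorial quotients `K → K / I K`
-/

set_option autoImplicit false

noncomputable section

namespace Pool.Agent.KQG

open CategoryTheory CategoryTheory.Limits AlgebraicGeometry TopologicalSpace
open Pool.Agent.KSS Pool.Agent.KIN Pool.Agent.KQ

/-- the unit of `adjQ` is the unit of the adjunction of sheaves of modules -/
theorem DC_unit {X Z : Scheme.{0}} (i : Z ⟶ X) [PfQ i] (M : QC X) :
    ((adjQ i).unit.app M).hom = eta i M.obj := by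
  have h := Adjunction.map_restrictFullyFaithful_unit_app
    (adj := Scheme.Modules.pullbackPushforwardAdjunction i)
    (hiC := (qcP X).fullyFaithfulι) (hiD := (qcP Z).fullyFaithfulι)
    (L := pbQ i) (R := pfQ i) (comm1 := Iso.refl _) (comm2 := Iso.refl _) M
  refine h.trans ?_
  change eta i M.obj ≫ (Scheme.Modules.pushforward i).map (𝟙 _) ≫ 𝟙 _ = _
  rw [Category.comp_id, CategoryTheory.Functor.map_id]
  exact Category.comp_id _

/-- epimorphisms are recognised on affine sections -/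
theorem DC_epi {X : Scheme.{0}} {M N : QC X} (f : M ⟶ N)
    (h : ∀ U : X.Opens, IsAffineOpen U → Function.Surjective (ap f.hom U)) : Epi f := by
  have h1 : Epi f.hom := (thm_S1 X).2.2.1 _ _ f.hom h
  exact (qcP X).ι.epi_of_epi_map (f := f) h1

/-- a sheaf without sections over affine open sets is zero -/
theorem DC_zero {X : Scheme.{0}} (M : QC X)
    (h : ∀ U : X.Opens, IsAffineOpen U → ∀ s : Γ(M.obj, U), s = 0) : IsZero M := by
  have h1 : Van (⊤ : X.Opens) M.obj := fun W _ hA s => h W hA s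
  have h2 := (thm_S1 X).2.2.2.1 M.obj ⊤ h1
  rw [IsZero.iff_id_eq_zero]
  apply ObjectProperty.hom_ext
  refine hom_ext_ap fun U s => ?_
  rw [h2 U le_top (ap _ U s), h2 U le_top (ap (InducedCategory.Hom.hom (0 : M ⟶ M)) U s)]

section

variable {X Z : Scheme.{0}} [IsLocallyNoetherian X] (i : Z ⟶ X) [IsClosedImmersion i]

theorem DC_surj (K : QC X) (hK : IsCoh K.obj) (U : X.Opens) (hU : IsAffineOpen U) :
    Function.Surjective (ap ((adjQ i).unit.app K).hom U) := by
  rw [DC_unit]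
  exact ((all_D1 Z X i).1 K.obj hK U hU).1

theorem DC_ker (K : QC X) (hK : IsCoh K.obj) (U : X.Opens) (hU : IsAffineOpen U)
    (s : Γ(K.obj, U)) : ap ((adjQ i).unit.app K).hom U s = 0 ↔
      s ∈ RingHom.ker (i.app U).hom • (⊤ : Submodule Γ(X, U) Γ(K.obj, U)) := by
  rw [DC_unit]
  exact ((all_D1 Z X i).1 K.obj hK U hU).2 s

theorem DC_ses (K : QC X) (hK : IsCoh K.obj) :
    SES (kernel.ι ((adjQ i).unit.app K)) ((adjQ i).unit.app K) := by
  have : Epi ((adjQ i).unit.app K) := DC_epi _ (DC_surj i K hK)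
  exact ⟨kernel.condition _,
    ShortComplex.ShortExact.mk' (ShortComplex.exact_kernel _) inferInstance ‹_›⟩

theorem DC_map_epi {K K' : QC X} (f : K ⟶ K') (hK : IsCoh K.obj) (hK' : IsCoh K'.obj) [Epi f] :
    Epi ((radF (adjQ i).unit).map f) := by
  refine DC_epi _ fun U hU t => ?_
  obtain ⟨-, e2, -⟩ := ses_sec ((ses_qc _ _).1 (DC_ses i K hK))
    (kernel ((adjQ i).unit.app K)).property K.property U hU
  obtain ⟨e1', e2', -⟩ := ses_sec ((ses_qc _ _).1 (DC_ses i K' hK'))
    (kernel ((adjQ i).unit.app K')).property K'.property U hU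
  set t' : Γ(K'.obj, U) := ap (kernel.ι ((adjQ i).unit.app K')).hom U t with ht'
  have h1 : t' ∈ RingHom.ker (i.app U).hom • (⊤ : Submodule Γ(X, U) Γ(K'.obj, U)) :=
    (DC_ker i K' hK' U hU t').1 ((e2' t').2 ⟨t, rfl⟩)
  have h2 : RingHom.ker (i.app U).hom • (⊤ : Submodule Γ(X, U) Γ(K'.obj, U)) =
      (RingHom.ker (i.app U).hom • (⊤ : Submodule Γ(X, U) Γ(K.obj, U))).map (ap f.hom U) := by
    rw [Submodule.map_smul'', Submodule.map_top, LinearMap.range_eq_top.2 (qc_surj f U hU)]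
  rw [h2] at h1
  obtain ⟨s, hs, hst⟩ := h1
  obtain ⟨s', hs'⟩ := (e2 s).1 ((DC_ker i K hK U hU s).2 hs)
  refine ⟨s', e1' ?_⟩
  have h3 : (radF (adjQ i).unit).map f ≫ kernel.ι ((adjQ i).unit.app K') =
      kernel.ι ((adjQ i).unit.app K) ≫ f := (radι (adjQ i).unit).naturality f
  have h4 := congrArg (fun g => ap (InducedCategory.Hom.hom g) U s') h3
  refine Eq.trans (show _ = ap f.hom U (ap (kernel.ι ((adjQ i).unit.app K)).hom U s') from h4) ?_
  rw [hs', hst]

end

/-- DC: the functorial quotients `K → K / I K` -/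
theorem thm_DC (_ : St_DA) (hDR : St_DR) : St_DC := by
  intro X Z _ i _ O hO
  refine ⟨{ σ := pbQ i ⋙ pfQ i
            η := (adjQ i).unit
            epi := ?_
            mem := ?_
            map_epi := ?_
            nil := ?_ }⟩
  · intro K hK
    exact DC_epi _ (DC_surj i K hK.1)
  · intro K hK
    have : IsLocallyNoetherian Z := LocallyOfFiniteType.isLocallyNoetherian i
    exact ⟨(pbQ i).obj K, all_P2.2.1 X Z i K.obj hK.1, ⟨Iso.refl _⟩⟩
  · intro K K' f hK hK' hf
    exact DC_map_epi i f hK.1 hK'.1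
  · intro K hK
    obtain ⟨n, hn⟩ := (thm_D2 Z X i).1 O hO K.obj hK.1 hK.2
    obtain ⟨ρ, hρ⟩ := hDR X Z i n
    obtain ⟨-, hm, hs⟩ := hρ K hK.1
    refine ⟨n, DC_zero _ fun U hU t => qc_inj (ρ.app K) U ?_⟩
    rw [map_zero]
    have h1 := (hs U hU _).1 ⟨t, rfl⟩
    have h2 : RingHom.ker (i.app U).hom ^ n • (⊤ : Submodule Γ(X, U) Γ(K.obj, U)) = ⊥ := by
      rw [eq_bot_iff, Submodule.smul_le]
      intro r hr s _
      rw [hn U hU r hr s]
      exact Submodule.zero_mem _
    rw [h2] at h1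
    exact h1

end Pool.Agent.KQG
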