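import Pool.Agent.KQG.StLD

/-!
# KQG, module DR: sections of the iterated kernels of the unit of a closed immersion
-/

set_option autoImplicit false

noncomputable section

namespace Pool.Agent.KQG

open CategoryTheory CategoryTheory.Limits AlgebraicGeometry TopologicalSpace
open Pool.Agent.KSS Pool.Agent.KIN Pool.Agent.KQ

/-- the unit of the adjunction of `QC X` and `QC Y` is the unit for sheaves of modules -/
theorem dr_unit {X Y : Scheme.{0}} (f : Y ⟶ X) [PfQ f] (M : QC X) :
    ((adjQ f).unit.app M).hom = eta f M.obj := by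
  have h := Adjunction.map_restrictFullyFaithful_unit_app
    (adj := Scheme.Modules.pullbackPushforwardAdjunction f) (L := pbQ f) (R := pfQ f)
    (qcP X).fullyFaithfulι (qcP Y).fullyFaithfulι (Iso.refl _) (Iso.refl _) M
  refine Eq.trans h ?_
  simp
  rfl

section

variable {X Z : Scheme.{0}} [IsLocallyNoetherian X] (i : Z ⟶ X) [IsClosedImmersion i]

/-- the unit is surjective over affine open sets, with kernel `I_U Γ(M, U)` -/
theorem dr_ses (M : QC X) (hM : IsCoh M.obj) :
    SES (kernel.ι ((adjQ i).unit.app M)) ((adjQ i).unit.app M) := by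
  have he : Epi ((adjQ i).unit.app M).hom := by
    refine (thm_S1 X).2.2.1 _ _ _ fun U hU => ?_
    rw [dr_unit]
    exact ((all_D1 Z X i).1 M.obj hM U hU).1
  have : Epi ((adjQ i).unit.app M) := (qcP X).ι.epi_of_epi_map he
  exact ⟨kernel.condition _,
    ShortComplex.ShortExact.mk' (ShortComplex.exact_kernel _) inferInstance ‹_›⟩

/-- the sections of the kernel of the unit -/
theorem dr_ker (M : QC X) (hM : IsCoh M.obj) (U : X.Opens) (hU : IsAffineOpen U)
    (s : Γ(M.obj, U)) : (∃ t, ap (kernel.ι ((adjQ i).unit.app M)).hom U t = s) ↔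
      s ∈ RingHom.ker (i.app U).hom • (⊤ : Submodule Γ(X, U) Γ(M.obj, U)) := by
  have h1 := (ses_sec ((ses_qc _ _).1 (dr_ses i M hM))
    (kernel ((adjQ i).unit.app M)).property M.property U hU).2.1 s
  rw [← h1, dr_unit]
  exact ((all_D1 Z X i).1 M.obj hM U hU).2 s

end

theorem thm_DR (hCL : St_CL) : St_DR := by
  intro X Z _ i _ n
  induction n with
  | zero =>
    refine ⟨𝟙 _, fun M hM => ⟨hM, inferInstanceAs (Mono (𝟙 M)), fun U hU s => ?_⟩⟩
    rw [pow_zero, Ideal.one_eq_top, Submodule.top_smul]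
    exact ⟨fun _ => trivial, fun _ => ⟨s, rfl⟩⟩
  | succ n ih =>
    obtain ⟨ρ, h⟩ := ih
    refine ⟨⟨fun M => (radι (adjQ i).unit).app ((radN (adjQ i).unit n).obj M) ≫ ρ.app M,
      fun {M N} f => ?_⟩, fun M hM => ?_⟩
    · have h1 := (radι (adjQ i).unit).naturality ((radN (adjQ i).unit n).map f)
      have h2 := ρ.naturality f
      have h1' : (radN (adjQ i).unit (n + 1)).map f ≫
          (radι (adjQ i).unit).app ((radN (adjQ i).unit n).obj N) =
          (radι (adjQ i).unit).app ((radN (adjQ i).unit n).obj M) ≫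
            (radN (adjQ i).unit n).map f := h1
      rw [← Category.assoc, h1']
      exact (Category.assoc _ _ _).trans ((congrArg _ h2).trans (Category.assoc _ _ _).symm)
    · obtain ⟨hc, hm, hs⟩ := h M hM
      have hk : Mono ((radι (adjQ i).unit).app ((radN (adjQ i).unit n).obj M)) :=
        inferInstanceAs (Mono (kernel.ι _))
      have hsub : SubC (Coh X).P := (hCL X).1
      refine ⟨@hsub _ _ (kernel.ι ((adjQ i).unit.app ((radN (adjQ i).unit n).obj M))) hk hc,
        @mono_comp _ _ _ _ _ _ hk _ hm, fun U hU s => ?_⟩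
      have h3 : Submodule.map (ap (ρ.app M).hom U) ⊤ =
          RingHom.ker (i.app U).hom ^ n • (⊤ : Submodule Γ(X, U) Γ(M.obj, U)) := by
        ext x
        rw [← hs U hU x]
        simp only [Submodule.mem_map, Submodule.mem_top, true_and]
      rw [pow_succ', mul_smul, ← h3, ← Submodule.map_smul'', Submodule.mem_map]
      constructor
      · rintro ⟨t, rfl⟩
        exact ⟨_, (dr_ker i _ hc U hU _).1 ⟨t, rfl⟩, rfl⟩
      · rintro ⟨y, hy, rfl⟩
        obtain ⟨t, ht⟩ := (dr_ker i _ hc U hU _).2 hy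
        refine ⟨t, ?_⟩
        rw [← ht]
        rfl

end Pool.Agent.KQG
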