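import Pool.Agent.KQG.StAsm
import Pool.Agent.KQG.StTh

/-!
# KQG, module FIN: the `ℤ`-graded theory
-/

set_option autoImplicit false

noncomputable section

namespace Pool.Agent.KQG

open CategoryTheory CategoryTheory.Limits AlgebraicGeometry TopologicalSpace
open Pool.Agent.KSS Pool.Agent.KIN Pool.Agent.KQ Pool.Agent.KTX

universe u

theorem thm_FIN (hAS : St_AS.{u}) (hHI : St_HI2.{u}) : St_FIN.{u} := by
  intro G
  obtain ⟨L, e, h1, h2, -⟩ := hAS G
  refine ⟨L.toLThy (hHI L), fun n X => e n X, fun n X x => rfl, fun n X Y _ _ f _ x => ?_,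
    fun n X Y f _ x => ?_⟩
  · exact h1 n X Y f x
  · exact h2 n X Y f x

end Pool.Agent.KQG
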