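import Pool.Agent.KQG.StGeo

/-!
# KQG, GB: base change as an isomorphism of exact functors

For a cartesian square with `f` finite and `g` flat, the base change morphism
`p4_c g' f' f g w M : g^* f_* M ⟶ f'_* g'^* M` is natural in `M` and an isomorphism for quasi-coherent `M`.
-/

set_option autoImplicit false

noncomputable section

namespace Pool.Agent.KQG

open CategoryTheory CategoryTheory.Limits AlgebraicGeometry TopologicalSpace
open Pool.Agent.KSS Pool.Agent.KIN Pool.Agent.KQ

variable {X' X Y' Y : Scheme.{0}} (g' : X' ⟶ X) (f' : X' ⟶ Y') (f : X ⟶ Y) (g : Y' ⟶ Y)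

/-- the transpose of the base change morphism is natural -/
theorem gb_theta (w : g' ≫ f = f' ≫ g) {M N : X.Modules} (a : M ⟶ N) :
    (Scheme.Modules.pushforward f).map a ≫ p4_theta g' f' f g w N =
      p4_theta g' f' f g w M ≫ (Scheme.Modules.pushforward g).map
        ((Scheme.Modules.pushforward f').map ((Scheme.Modules.pullback g').map a)) := by
  have h1 : a ≫ eta g' N = eta g' M ≫
      (Scheme.Modules.pushforward g').map ((Scheme.Modules.pullback g').map a) :=
    (Scheme.Modules.pullbackPushforwardAdjunction g').unit.naturality a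
  have h5 : (Scheme.Modules.pushforward f).map a ≫ (Scheme.Modules.pushforward f).map (eta g' N) =
      (Scheme.Modules.pushforward f).map (eta g' M) ≫ (Scheme.Modules.pushforward f).map
        ((Scheme.Modules.pushforward g').map ((Scheme.Modules.pullback g').map a)) := by
    rw [← Functor.map_comp, h1, Functor.map_comp]
  unfold p4_theta
  rw [← Category.assoc, h5]
  simp only [Category.assoc]
  refine congrArg (_ ≫ ·) ?_
  exact (Scheme.Modules.pushforwardCongr w).hom.naturality
    ((Scheme.Modules.pullback g').map a)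

/-- the base change morphism is natural -/
theorem gb_nat (w : g' ≫ f = f' ≫ g) {M N : X.Modules} (a : M ⟶ N) :
    (Scheme.Modules.pullback g).map ((Scheme.Modules.pushforward f).map a) ≫
        p4_c g' f' f g w N =
      p4_c g' f' f g w M ≫
        (Scheme.Modules.pushforward f').map ((Scheme.Modules.pullback g').map a) := by
  have h1 := (Scheme.Modules.pullbackPushforwardAdjunction g).homEquiv_naturality_left_symm
    ((Scheme.Modules.pushforward f).map a) (p4_theta g' f' f g w N)
  have h2 := (Scheme.Modules.pullbackPushforwardAdjunction g).homEquiv_naturality_right_symm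
    (p4_theta g' f' f g w M)
    ((Scheme.Modules.pushforward f').map ((Scheme.Modules.pullback g').map a))
  refine h1.symm.trans (Eq.trans ?_ h2)
  exact congrArg _ (gb_theta g' f' f g w a)

/-- the base change morphism is an isomorphism -/
theorem gb_iso [IsAffineHom f] [IsAffineHom f'] (H : IsPullback g' f' f g) (M : X.Modules)
    (hM : M.IsQuasicoherent) : IsIso (p4_c g' f' f g H.w M) := by
  have hq1 : (pb g (pf f M)).IsQuasicoherent := (thm_P1 Y Y' g (pf f M) (p4_qc f M hM)).1
  have hq2 : (pf f' (pb g' M)).IsQuasicoherent := p4_qc f' _ (thm_P1 X X' g' M hM).1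
  refine (thm_L0 Y').2.1 _ _ _ hq1 hq2 fun y => ?_
  obtain ⟨_, ⟨U, hU, rfl⟩, hyU, -⟩ := Y.isBasis_affineOpens.exists_subset_of_mem_open
    (Set.mem_univ (g y)) isOpen_univ
  obtain ⟨_, ⟨V, hV, rfl⟩, hyV, hVU⟩ := Y'.isBasis_affineOpens.exists_subset_of_mem_open
    (show y ∈ ((g ⁻¹ᵁ U : Y'.Opens) : Set Y') from hyU) (g ⁻¹ᵁ U).isOpen
  exact ⟨V, hV, hyV, p4_bij g' f' f g thm_A0 thm_P1 H M hM U V hU hV hVU⟩

theorem thm_GB : St_GB := by
  intro X' X Y' Y _ _ _ _ g' f' f g _ _ _ _ H
  have hi : ∀ M : (Coh X).Ob, IsIso (p4_c g' f' f g H.w M.obj.obj) := fun M =>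
    gb_iso g' f' f g H M.obj.obj M.obj.property
  refine ⟨NatIso.ofComponents (fun M => ObjectProperty.isoMk _ (ObjectProperty.isoMk _
    (@asIso _ _ _ _ (p4_c g' f' f g H.w M.obj.obj) (hi M)))) ?_⟩
  intro M N a
  apply ObjectProperty.hom_ext
  apply ObjectProperty.hom_ext
  exact gb_nat g' f' f g H.w a.hom.hom

end Pool.Agent.KQG
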