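import Pool.Agent.KQG.StGeo

/-!
# KQG, module GC: free algebras, `f_* f^*` is built from copies of the identity
-/

set_option autoImplicit false

noncomputable section

namespace Pool.Agent.KQG

open CategoryTheory CategoryTheory.Limits AlgebraicGeometry TopologicalSpace Function
open Pool.Agent.KSS Pool.Agent.KIN Pool.Agent.KQ
open scoped ZeroObject

/-! ### direct sums of exact functors -/

section gen

theorem gc_ses {C : Type*} [Category C] [Abelian C] (A B : C) :
    SES (biprod.inr : B ⟶ A ⊞ B) (biprod.fst : A ⊞ B ⟶ A) := by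
  rw [ses_iff]
  refine ⟨biprod.inr_fst, inferInstance, inferInstance, fun Z y hy => ⟨y ≫ biprod.snd, ?_⟩⟩
  apply biprod.hom_ext
  · rw [Category.assoc, Category.assoc, biprod.inr_fst, comp_zero, comp_zero, hy]
  · rw [Category.assoc, Category.assoc, biprod.inr_snd, Category.comp_id]

theorem gc_ses_map {C : Type*} [Category C] [Abelian C] {A B D A' B' D' : C} {f : A ⟶ B}
    {g : B ⟶ D} {f' : A' ⟶ B'} {g' : B' ⟶ D'} (h : SES f g) (h' : SES f' g') :
    SES (biprod.map f f') (biprod.map g g') := by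
  refine nine_mid (gc_ses A A') (gc_ses B B') (gc_ses D D') h' h ?_ ?_ ?_ ?_ ?_
  · apply biprod.hom_ext
    · rw [Category.assoc, biprod.map_fst, biprod.map_fst_assoc, h.w, comp_zero, zero_comp]
    · rw [Category.assoc, biprod.map_snd, biprod.map_snd_assoc, h'.w, comp_zero, zero_comp]
  · rw [biprod.inr_map]
  · rw [biprod.inr_map]
  · rw [biprod.map_fst]
  · rw [biprod.map_fst]

variable {E E' : ExCat.{0}}

/-- the zero functor -/
def gcZero (E E' : ExCat.{0}) : ExFun E E' where
  F :=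
    { obj := fun _ => ⟨0, E'.zero _ (isZero_zero _)⟩
      map := fun _ => ObjectProperty.homMk 0
      map_id := fun _ => by
        apply ObjectProperty.hom_ext
        exact (isZero_zero _).eq_of_src _ _
      map_comp := fun _ _ => by
        apply ObjectProperty.hom_ext
        exact (isZero_zero _).eq_of_src _ _ }
  add _ _ := by
    apply ObjectProperty.hom_ext
    exact (isZero_zero _).eq_of_src _ _
  exact _ _ _ := ses_of_isZero _ _ (isZero_zero _) (isZero_zero _) (isZero_zero _)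

/-- the direct sum of exact functors -/
def gcSum (F G : ExFun E E') : ExFun E E' where
  F :=
    { obj := fun M => ⟨(F.F.obj M).obj ⊞ (G.F.obj M).obj,
        E'.ext _ _ (gc_ses _ _) (G.F.obj M).property (F.F.obj M).property⟩
      map := fun a => ObjectProperty.homMk (biprod.map (F.F.map a).hom (G.F.map a).hom)
      map_id := fun M => by
        apply ObjectProperty.hom_ext
        have h1 : (F.F.map (𝟙 M)).hom = 𝟙 (F.F.obj M).obj := by
          rw [F.F.map_id]
          rfl
        have h2 : (G.F.map (𝟙 M)).hom = 𝟙 (G.F.obj M).obj := by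
          rw [G.F.map_id]
          rfl
        change biprod.map (F.F.map (𝟙 M)).hom (G.F.map (𝟙 M)).hom = 𝟙 _
        rw [h1, h2]
        apply biprod.hom_ext
        · rw [biprod.map_fst, Category.comp_id, Category.id_comp]
        · rw [biprod.map_snd, Category.comp_id, Category.id_comp]
      map_comp := fun a b => by
        apply ObjectProperty.hom_ext
        have h1 : (F.F.map (a ≫ b)).hom = (F.F.map a).hom ≫ (F.F.map b).hom := by
          rw [F.F.map_comp]
          rfl
        have h2 : (G.F.map (a ≫ b)).hom = (G.F.map a).hom ≫ (G.F.map b).hom := by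
          rw [G.F.map_comp]
          rfl
        change biprod.map (F.F.map (a ≫ b)).hom (G.F.map (a ≫ b)).hom =
          biprod.map _ _ ≫ biprod.map _ _
        rw [h1, h2]
        apply biprod.hom_ext
        · simp only [biprod.map_fst, Category.assoc, biprod.map_fst_assoc]
        · simp only [biprod.map_snd, Category.assoc, biprod.map_snd_assoc] }
  add {X Y} a b := by
    apply ObjectProperty.hom_ext
    have h1 : (F.F.map (a + b)).hom = (F.F.map a).hom + (F.F.map b).hom := by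
      rw [F.add]
      rfl
    have h2 : (G.F.map (a + b)).hom = (G.F.map a).hom + (G.F.map b).hom := by
      rw [G.add]
      rfl
    change biprod.map (F.F.map (a + b)).hom (G.F.map (a + b)).hom =
      biprod.map _ _ + biprod.map _ _
    rw [h1, h2]
    apply biprod.hom_ext
    · rw [Preadditive.add_comp, biprod.map_fst, biprod.map_fst, biprod.map_fst,
        Preadditive.comp_add]
    · rw [Preadditive.add_comp, biprod.map_snd, biprod.map_snd, biprod.map_snd,
        Preadditive.comp_add]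
  exact a b h := gc_ses_map (F.exact a b h) (G.exact a b h)

/-- the second summand -/
def gcInr (F G : ExFun E E') : G.F ⟶ (gcSum F G).F where
  app M := ObjectProperty.homMk (biprod.inr : (G.F.obj M).obj ⟶ (F.F.obj M).obj ⊞ (G.F.obj M).obj)
  naturality M N a := by
    apply ObjectProperty.hom_ext
    exact (biprod.inr_map (F.F.map a).hom (G.F.map a).hom).symm

/-- the first projection -/
def gcFst (F G : ExFun E E') : (gcSum F G).F ⟶ F.F where
  app M := ObjectProperty.homMk (biprod.fst : (F.F.obj M).obj ⊞ (G.F.obj M).obj ⟶ (F.F.obj M).obj)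
  naturality M N a := by
    apply ObjectProperty.hom_ext
    exact biprod.map_fst (F.F.map a).hom (G.F.map a).hom

/-- natural transformations on a direct sum -/
def gcDesc {F G H : ExFun E E'} (φ : F.F ⟶ H.F) (ψ : G.F ⟶ H.F) : (gcSum F G).F ⟶ H.F where
  app M := ObjectProperty.homMk (biprod.desc (φ.app M).hom (ψ.app M).hom)
  naturality M N a := by
    apply ObjectProperty.hom_ext
    have h1 : (F.F.map a).hom ≫ (φ.app N).hom = (φ.app M).hom ≫ (H.F.map a).hom :=
      congrArg InducedCategory.Hom.hom (φ.naturality a)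
    have h2 : (G.F.map a).hom ≫ (ψ.app N).hom = (ψ.app M).hom ≫ (H.F.map a).hom :=
      congrArg InducedCategory.Hom.hom (ψ.naturality a)
    change biprod.map (F.F.map a).hom (G.F.map a).hom ≫ biprod.desc _ _ =
      biprod.desc _ _ ≫ (H.F.map a).hom
    apply biprod.hom_ext'
    · rw [biprod.inl_map_assoc, biprod.inl_desc, biprod.inl_desc_assoc, h1]
    · rw [biprod.inr_map_assoc, biprod.inr_desc, biprod.inr_desc_assoc, h2]

/-- the powers of the identity -/
def gcPow (E : ExCat.{0}) : ℕ → ExFun E E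
  | 0 => gcZero E E
  | d + 1 => gcSum (ExFun.id E) (gcPow E d)

theorem gc_pow_mult (E : ExCat.{0}) (d : ℕ) : Mult (ExFun.id E) d (gcPow E d) := by
  induction d with
  | zero =>
    refine Mult.zero _ fun M => ?_
    have h : IsZero (((gcPow E 0).F.obj M).obj) := isZero_zero _
    exact ⟨fun Z => ⟨⟨⟨ObjectProperty.homMk 0⟩, fun a => by
      apply ObjectProperty.hom_ext
      exact h.eq_of_src _ _⟩⟩, fun Z => ⟨⟨⟨ObjectProperty.homMk 0⟩, fun a => by
      apply ObjectProperty.hom_ext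
      exact h.eq_of_tgt _ _⟩⟩⟩
  | succ d ih =>
    exact Mult.succ d _ (gcPow E d) (gcInr _ _) (gcFst _ _) (fun M => gc_ses _ _) ih

theorem gc_mult_iso {G : ExFun E E'} {d : ℕ} {F F' : ExFun E E'} (h : Mult G d F)
    (e : F.F ≅ F'.F) : Mult G d F' := by
  cases h with
  | zero _ h => exact Mult.zero _ fun M => (h M).of_iso (e.app M).symm
  | succ d _ F₁ α β h h' =>
    refine Mult.succ d F' F₁ (α ≫ e.hom) (e.inv ≫ β) (fun M => ?_) h'
    refine ses_of_iso (h M) (Iso.refl _) (E'.P.ι.mapIso (e.app M)) (Iso.refl _) ?_ ?_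
    · exact Category.id_comp _
    · have h1 : (e.hom.app M).hom ≫ (e.inv.app M).hom = 𝟙 _ :=
        congrArg InducedCategory.Hom.hom (e.hom_inv_id_app M)
      change (e.hom.app M).hom ≫ (e.inv.app M).hom ≫ (β.app M).hom = (β.app M).hom ≫ 𝟙 _
      rw [reassoc_of% h1, Category.comp_id]

/-- natural transformations on the powers of the identity -/
def gcPsi {E : ExCat.{0}} (H : ExFun E E) : ∀ d : ℕ, (Fin d → ((ExFun.id E).F ⟶ H.F)) →
    ((gcPow E d).F ⟶ H.F)
  | 0, _ =>
    { app := fun _ => ObjectProperty.homMk 0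
      naturality := fun _ _ _ => by
        apply ObjectProperty.hom_ext
        exact (isZero_zero _).eq_of_src _ _ }
  | d + 1, φ => gcDesc (φ 0) (gcPsi H d fun i => φ i.succ)

end gen

/-! ### sections -/

section geo

variable {X : Scheme.{0}}

/-- the underlying quasi-coherent sheaf -/
abbrev gcQ (M : (Coh X).Ob) : QC X := M.obj

/-- the underlying sheaf -/
abbrev gcS (M : (Coh X).Ob) : X.Modules := (gcQ M).obj

/-- the underlying morphism of sheaves -/
def gcH {M N : (Coh X).Ob} (a : M ⟶ N) : gcS M ⟶ gcS N :=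
  let b : gcQ M ⟶ gcQ N := a.hom
  b.hom

theorem gc_isIso {M N : (Coh X).Ob} (a : M ⟶ N) (h : IsIso (gcH a)) : IsIso a := by
  refine ⟨⟨ObjectProperty.homMk (show gcQ N ⟶ gcQ M from ObjectProperty.homMk (inv (gcH a))),
    ?_, ?_⟩⟩
  · apply ObjectProperty.hom_ext
    apply ObjectProperty.hom_ext
    exact IsIso.hom_inv_id (gcH a)
  · apply ObjectProperty.hom_ext
    apply ObjectProperty.hom_ext
    exact IsIso.inv_hom_id (gcH a)

theorem gc_sum_eq {A B : QC X} (U : X.Opens) (s : Γ((A ⊞ B).obj, U)) :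
    ap (InducedCategory.Hom.hom (biprod.inl : A ⟶ A ⊞ B)) U
      (ap (InducedCategory.Hom.hom (biprod.fst : A ⊞ B ⟶ A)) U s) +
    ap (InducedCategory.Hom.hom (biprod.inr : B ⟶ A ⊞ B)) U
      (ap (InducedCategory.Hom.hom (biprod.snd : A ⊞ B ⟶ B)) U s) = s := by
  have h : (biprod.fst ≫ biprod.inl + biprod.snd ≫ biprod.inr : A ⊞ B ⟶ A ⊞ B) = 𝟙 _ :=
    biprod.total
  exact congrArg (fun φ => ap (InducedCategory.Hom.hom φ) U s) h

theorem gc_fst_inl {A B : QC X} (U : X.Opens) (s : Γ(A.obj, U)) :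
    ap (InducedCategory.Hom.hom (biprod.fst : A ⊞ B ⟶ A)) U
      (ap (InducedCategory.Hom.hom (biprod.inl : A ⟶ A ⊞ B)) U s) = s := by
  have h : (biprod.inl ≫ biprod.fst : A ⟶ A) = 𝟙 _ := biprod.inl_fst (X := A) (Y := B)
  exact congrArg (fun φ => ap (InducedCategory.Hom.hom φ) U s) h

theorem gc_fst_inr {A B : QC X} (U : X.Opens) (s : Γ(B.obj, U)) :
    ap (InducedCategory.Hom.hom (biprod.fst : A ⊞ B ⟶ A)) U
      (ap (InducedCategory.Hom.hom (biprod.inr : B ⟶ A ⊞ B)) U s) = 0 := by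
  have h : (biprod.inr ≫ biprod.fst : B ⟶ A) = 0 := biprod.inr_fst (X := A) (Y := B)
  exact congrArg (fun φ => ap (InducedCategory.Hom.hom φ) U s) h

theorem gc_snd_inl {A B : QC X} (U : X.Opens) (s : Γ(A.obj, U)) :
    ap (InducedCategory.Hom.hom (biprod.snd : A ⊞ B ⟶ B)) U
      (ap (InducedCategory.Hom.hom (biprod.inl : A ⟶ A ⊞ B)) U s) = 0 := by
  have h : (biprod.inl ≫ biprod.snd : A ⟶ B) = 0 := biprod.inl_snd (X := A) (Y := B)
  exact congrArg (fun φ => ap (InducedCategory.Hom.hom φ) U s) h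

theorem gc_snd_inr {A B : QC X} (U : X.Opens) (s : Γ(B.obj, U)) :
    ap (InducedCategory.Hom.hom (biprod.snd : A ⊞ B ⟶ B)) U
      (ap (InducedCategory.Hom.hom (biprod.inr : B ⟶ A ⊞ B)) U s) = s := by
  have h : (biprod.inr ≫ biprod.snd : B ⟶ B) = 𝟙 _ := biprod.inr_snd (X := A) (Y := B)
  exact congrArg (fun φ => ap (InducedCategory.Hom.hom φ) U s) h

theorem gc_desc_ap {A B D : QC X} (a : A ⟶ D) (b : B ⟶ D) (U : X.Opens)
    (s : Γ((A ⊞ B).obj, U)) :
    ap (InducedCategory.Hom.hom (biprod.desc a b)) U s =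
      ap (InducedCategory.Hom.hom a) U
        (ap (InducedCategory.Hom.hom (biprod.fst : A ⊞ B ⟶ A)) U s) +
      ap (InducedCategory.Hom.hom b) U
        (ap (InducedCategory.Hom.hom (biprod.snd : A ⊞ B ⟶ B)) U s) := by
  have h : biprod.desc a b = biprod.fst ≫ a + biprod.snd ≫ b := biprod.desc_eq
  exact congrArg (fun φ => ap (InducedCategory.Hom.hom φ) U s) h

theorem gc_psi_ap (H : ExFun (Coh X) (Coh X)) : ∀ (d : ℕ)
    (φ : Fin d → ((ExFun.id (Coh X)).F ⟶ H.F)) (M : (Coh X).Ob) (U : X.Opens),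
    ∃ e : Γ(gcS ((gcPow (Coh X) d).F.obj M), U) → (Fin d → Γ(gcS M, U)), Bijective e ∧
      ∀ s, ap (gcH ((gcPsi H d φ).app M)) U s = ∑ i, ap (gcH ((φ i).app M)) U (e s i) := by
  intro d
  induction d with
  | zero =>
    intro φ M U
    have h0 : IsZero (gcS ((gcPow (Coh X) 0).F.obj M)) :=
      (qcP X).ι.map_isZero (isZero_zero (QC X))
    refine ⟨fun _ i => i.elim0, ⟨fun s t _ => ?_, fun y => ⟨0, ?_⟩⟩, fun s => ?_⟩
    · exact (ap_isZero h0 U s).trans (ap_isZero h0 U t).symm
    · funext i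
      exact i.elim0
    · rw [Finset.univ_eq_empty, Finset.sum_empty, ap_isZero h0 U s, map_zero]
  | succ d ih =>
    intro φ M U
    obtain ⟨e, he, hs⟩ := ih (fun i => φ i.succ) M U
    let A : QC X := gcQ M
    let B : QC X := gcQ ((gcPow (Coh X) d).F.obj M)
    refine ⟨fun s => Fin.cons (ap (InducedCategory.Hom.hom (biprod.fst : A ⊞ B ⟶ A)) U s)
      (e (ap (InducedCategory.Hom.hom (biprod.snd : A ⊞ B ⟶ B)) U s)), ⟨fun s t hst => ?_,
      fun y => ?_⟩, fun s => ?_⟩
    · have e0 : ap (InducedCategory.Hom.hom (biprod.fst : A ⊞ B ⟶ A)) U s =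
          ap (InducedCategory.Hom.hom (biprod.fst : A ⊞ B ⟶ A)) U t := congrFun hst 0
      have e1 : ap (InducedCategory.Hom.hom (biprod.snd : A ⊞ B ⟶ B)) U s =
          ap (InducedCategory.Hom.hom (biprod.snd : A ⊞ B ⟶ B)) U t :=
        he.1 (funext fun i => congrFun hst i.succ)
      have h1 := gc_sum_eq (A := A) (B := B) U s
      have h2 := gc_sum_eq (A := A) (B := B) U t
      rw [e0, e1] at h1
      exact h1.symm.trans h2
    · obtain ⟨p, hp⟩ := he.2 fun i => y i.succ
      refine ⟨ap (InducedCategory.Hom.hom (biprod.inl : A ⟶ A ⊞ B)) U (y 0) +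
        ap (InducedCategory.Hom.hom (biprod.inr : B ⟶ A ⊞ B)) U p, ?_⟩
      funext i
      refine Fin.cases ?_ (fun i => ?_) i
      · show ap (InducedCategory.Hom.hom (biprod.fst : A ⊞ B ⟶ A)) U _ = _
        rw [map_add, gc_fst_inl, gc_fst_inr, add_zero]
      · show e (ap (InducedCategory.Hom.hom (biprod.snd : A ⊞ B ⟶ B)) U _) i = _
        rw [map_add, gc_snd_inl, gc_snd_inr, zero_add]
        exact congrFun hp i
    · rw [Fin.sum_univ_succ]
      refine (gc_desc_ap (A := A) (B := B) (D := gcQ (H.F.obj M)) ((φ 0).app M).hom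
        ((gcPsi H d fun i => φ i.succ).app M).hom U s).trans ?_
      exact congrArg₂ (· + ·) rfl (hs _)

end geo

/-! ### the theorem -/

/-- the unit followed by the multiplication by a global function, on the quasi-coherent sheaves -/
def gcPhiM {X Y : Scheme.{0}} (f : Y ⟶ X) (c : Γ(Y, ⊤)) (M : X.Modules) :
    M ⟶ pf f (pb f M) :=
  eta f M ≫ (Scheme.Modules.pushforward f).map (p5_mul (pb f M) c)

theorem gc_mul_nat {Y : Scheme.{0}} {M N : Y.Modules} (a : M ⟶ N) (c : Γ(Y, ⊤)) :
    p5_mul M c ≫ a = a ≫ p5_mul N c := by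
  apply hom_ext_ap
  intro U s
  rw [ap_comp, ap_comp, p5_mul_ap, p5_mul_ap]
  exact (ap a U).map_smul _ _

theorem gc_phi_nat {X Y : Scheme.{0}} (f : Y ⟶ X) (c : Γ(Y, ⊤)) {M N : X.Modules} (a : M ⟶ N) :
    a ≫ gcPhiM f c N = gcPhiM f c M ≫ (Scheme.Modules.pushforward f).map
      ((Scheme.Modules.pullback f).map a) := by
  have h1 : a ≫ eta f N = eta f M ≫ (Scheme.Modules.pushforward f).map
      ((Scheme.Modules.pullback f).map a) :=
    (Scheme.Modules.pullbackPushforwardAdjunction f).unit.naturality a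
  unfold gcPhiM
  rw [reassoc_of% h1, Category.assoc, ← Functor.map_comp, ← Functor.map_comp, gc_mul_nat]

/-- the natural transformation `id ⟶ f_* f^*` of a global function -/
def gcPhi {X Y : Scheme.{0}} [IsLocallyNoetherian X] [IsLocallyNoetherian Y] (f : Y ⟶ X) [Flat f]
    [IsFinite f] (c : Γ(Y, ⊤)) :
    (ExFun.id (Coh X)).F ⟶ ((pullE f).comp (pushE f)).F where
  app M := ObjectProperty.homMk (show gcQ M ⟶ gcQ (((pullE f).comp (pushE f)).F.obj M) from
    ObjectProperty.homMk (gcPhiM f c (gcS M)))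
  naturality M N a := by
    apply ObjectProperty.hom_ext
    apply ObjectProperty.hom_ext
    exact gc_phi_nat f c (gcH a)

theorem thm_GC : St_GC := by
  intro X Y _ _ R R' _ _ _ d b f g h _ _ hs
  let c : Fin d → Γ(Y, ⊤) := fun i =>
    g.appTop.hom ((Scheme.ΓSpecIso (CommRingCat.of R')).inv.hom (b i))
  let H : ExFun (Coh X) (Coh X) := (pullE f).comp (pushE f)
  let φ : Fin d → ((ExFun.id (Coh X)).F ⟶ H.F) := fun i => gcPhi f (c i)
  have hφ : ∀ (M : (Coh X).Ob) (U : X.Opens), IsAffineOpen U →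
      Bijective fun m : Fin d → Γ(gcS M, U) => ∑ i, ap (gcH ((φ i).app M)) U (m i) := by
    intro M U hU
    let _ : Algebra Γ(X, U) Γ(Y, f ⁻¹ᵁ U) := (f.appLE U (f ⁻¹ᵁ U) le_rfl).hom.toAlgebra
    obtain ⟨b', hb'⟩ := p5_basis (A := Γ(X, U)) (B := Γ(Y, f ⁻¹ᵁ U))
      ((Scheme.ΓSpecIso (CommRingCat.of R)).inv ≫ h.appLE ⊤ U le_top).hom
      ((Scheme.ΓSpecIso (CommRingCat.of R')).inv ≫ g.appLE ⊤ (f ⁻¹ᵁ U) le_top).hom d b
      (p5_sq R R' f g h hs U hU)
    have hB : BCh (algebraMap Γ(X, U) Γ(Y, f ⁻¹ᵁ U)) (es f (gcS M) U (f ⁻¹ᵁ U) le_rfl) :=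
      (thm_P1 X Y f (gcS M) (gcQ M).property).2 U (f ⁻¹ᵁ U) le_rfl hU (hU.preimage f)
    have h1 := thm_A0.2.2.2.2.2.2.2.2.2.1 Γ(X, U) Γ(Y, f ⁻¹ᵁ U) Γ(gcS M, U)
      Γ(pb f (gcS M), f ⁻¹ᵁ U) d b' (es f (gcS M) U (f ⁻¹ᵁ U) le_rfl) hB
    have h2 : (fun m : Fin d → Γ(gcS M, U) => ∑ i, ap (gcH ((φ i).app M)) U (m i)) =
        fun m : Fin d → Γ(gcS M, U) => ∑ i, b' i • es f (gcS M) U (f ⁻¹ᵁ U) le_rfl (m i) := by
      funext m
      refine Finset.sum_congr rfl fun i _ => ?_
      rw [hb' i]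
      have h3 : es f (gcS M) U (f ⁻¹ᵁ U) le_rfl (m i) =
          (show Γ(pb f (gcS M), f ⁻¹ᵁ U) from ap (eta f (gcS M)) U (m i)) := rM_self _ _
      rw [h3]
      rfl
    rw [h2]
    exact h1
  have key : ∀ M : (Coh X).Ob, IsIso ((gcPsi H d φ).app M) := by
    intro M
    apply gc_isIso
    refine (thm_L0 X).2.1 _ _ _ (gcQ _).property (gcQ _).property fun y => ?_
    obtain ⟨V, hV, hy, -⟩ := exists_isAffineOpen_mem_and_subset (x := y) (U := ⊤) trivial
    refine ⟨V, hV, hy, ?_⟩
    obtain ⟨e, he, hs⟩ := gc_psi_ap H d φ M V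
    have e1 : (ap (gcH ((gcPsi H d φ).app M)) V : _ → _) =
        (fun m : Fin d → Γ(gcS M, V) => ∑ i, ap (gcH ((φ i).app M)) V (m i)) ∘ e := by
      funext s
      exact hs s
    rw [e1]
    exact (hφ M V hV).comp he
  have := NatIso.isIso_of_isIso_app (gcPsi H d φ)
  exact gc_mult_iso (gc_pow_mult (Coh X) d) (asIso (gcPsi H d φ))

end Pool.Agent.KQG
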