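import Pool.Agent.KQG.StLD
import Pool.Agent.KIN.All

/-!
# KQG GD: the data for devissage

`F = pushV i O h`, `B = kI i`. The counit of `pbQ i ⊣ pfQ i` is an isomorphism (`St_DA` (1)), so `pfQ i` is fully
faithful, and a fully faithful additive functor reflects short exact sequences.
-/

set_option autoImplicit false

noncomputable section

namespace Pool.Agent.KQG

open CategoryTheory CategoryTheory.Limits AlgebraicGeometry TopologicalSpace
open Pool.Agent.KSS Pool.Agent.KIN Pool.Agent.KQ

/-- a fully faithful additive functor reflects short exact sequences -/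
theorem GD_refl {C C' : Type*} [Category C] [Category C'] [Abelian C] [Abelian C'] (F : C ⥤ C')
    [F.Full] [F.Faithful] [F.Additive] {X Y Z : C} (f : X ⟶ Y) (g : Y ⟶ Z)
    (h : SES (F.map f) (F.map g)) : SES f g := by
  have hm : Mono (F.map f) := h.mono
  have he : Epi (F.map g) := h.epi
  rw [ses_iff]
  refine ⟨?_, F.mono_of_mono_map hm, F.epi_of_epi_map he, fun A y hy => ?_⟩
  · apply F.map_injective
    rw [F.map_comp, F.map_zero]
    exact h.w
  · obtain ⟨x, hx⟩ := h.lift (F.map y) (by rw [← F.map_comp, hy, F.map_zero])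
    obtain ⟨x', rfl⟩ := F.map_surjective x
    exact ⟨x', F.map_injective (by rw [F.map_comp, hx])⟩

theorem thm_GD (_ : St_CL) (hDA : St_DA) (hDB : St_DB) (hDC : St_DC) : St_GD := by
  intro X Z _ i _ O h hr
  have hc : IsIso (adjQ i).counit := (hDA X Z i).1
  have hff : (pfQ i).FullyFaithful := (adjQ i).fullyFaithfulROfIsIsoCounit
  have hFull : (pfQ i).Full := hff.full
  have hFaith : (pfQ i).Faithful := hff.faithful
  obtain ⟨R⟩ := hDC X Z i O hr
  refine ⟨{ F := pushV i O h
            full := ?_
            faithful := ?_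
            refl := ?_
            B := kI i
            img := ?_
            cl := hDB X Z i O h
            rad := R }, rfl⟩
  · intro M N g
    refine ⟨ObjectProperty.homMk (hff.preimage g.hom), ?_⟩
    apply ObjectProperty.hom_ext
    exact hff.map_preimage (X := (M.obj : QC Z)) (Y := (N.obj : QC Z)) g.hom
  · intro M N f f' e
    apply ObjectProperty.hom_ext
    have e1 := congrArg InducedCategory.Hom.hom e
    exact hff.map_injective (X := (M.obj : QC Z)) (Y := (N.obj : QC Z)) e1
  · intro M N K f g hs
    exact GD_refl (pfQ i) f.hom g.hom hs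
  · intro M
    constructor
    · rintro ⟨N, hN, e⟩
      exact ⟨⟨N, hN⟩, e⟩
    · rintro ⟨N, e⟩
      exact ⟨N.obj, N.property, e⟩

end Pool.Agent.KQG
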