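import Pool.Agent.KQG.StLD

/-!
# KQG, module GL: the data for localization
-/

set_option autoImplicit false

noncomputable section

namespace Pool.Agent.KQG

open CategoryTheory CategoryTheory.Limits AlgebraicGeometry TopologicalSpace
open Pool.Agent.KSS Pool.Agent.KIN Pool.Agent.KQ

theorem thm_GL (hCL : St_CL) (hLA : St_LA) (hLB : St_LB) (hAR : St_AR) : St_GL := by
  intro X U _ _ j _
  obtain ⟨h1, h2, h3⟩ := hLA X U j
  let D : LocD (Coh X) (Coh U) :=
    { L := pbQ j
      R := pfQ j
      adj := adjQ j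
      add := inferInstanceAs (pbQ j).Additive
      lim := h1
      counit := h2
      subB := (hCL X).1
      quoB := (hCL X).2.1
      subC := (hCL U).1
      quoC := (hCL U).2.1
      mapP := fun M hM => all_P2.2.1 X U j M.obj hM
      lift := fun c hc => by
        obtain ⟨b, m, hm, hb, hi⟩ := hLB X U j c hc
        exact ⟨b, m, hm, hb, hi⟩
      ar := fun b K k hk hb hK => by
        obtain ⟨b', m, hm, hv, hx⟩ := hAR X U j b K k hk hb ((h3 K).1 hK)
        exact ⟨b', m, hm, (h3 _).2 hv, hx⟩ }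
  refine ⟨D, fun M => ?_, ⟨Iso.refl _⟩⟩
  exact ⟨fun h => ⟨h.1, (h3 M).1 h.2⟩, fun h => ⟨h.1, (h3 M).2 h.2⟩⟩

end Pool.Agent.KQG
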