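import Pool.Agent.KQG.StTh

/-!
# KQG, module HI1: homotopy invariance for affine schemes
-/

set_option autoImplicit false

noncomputable section

namespace Pool.Agent.KQG

open CategoryTheory CategoryTheory.Limits AlgebraicGeometry TopologicalSpace
open Pool.Agent.KTX

universe u

/-- the cartesian square of polynomial rings -/
theorem hi1_sq {R A : Type} [CommRing R] [CommRing A] (φ : R →+* A) :
    IsPullback (Sm (Polynomial.C : A →+* Polynomial A)) (Sm (Polynomial.mapRingHom φ)) (Sm φ)
      (Sm (Polynomial.C : R →+* Polynomial R)) := by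
  algebraize [φ, Polynomial.mapRingHom φ]
  exact isPullback_SpecMap_of_isPushout _ _ _ _
    (CommRingCat.isPushout_of_isPushout R A (Polynomial R) (Polynomial A))

theorem hi1_flatC (R : Type) [CommRing R] : Flat (Sm (Polynomial.C : R →+* Polynomial R)) := by
  rw [Flat.SpecMap_iff]
  show (algebraMap R (Polynomial R)).Flat
  rw [RingHom.flat_algebraMap_iff]
  infer_instance

theorem hi1_congr (T : STh0.{u}) {X Y : Scheme.{0}} {f g : X ⟶ Y} [Flat f] [Flat g] (h : f = g)
    (x : T.T Y) : T.pull f x = T.pull g x := by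
  subst h
  rfl

/-- pull-back along isomorphisms -/
theorem hi1_iso (T : STh0.{u}) {X Y : Scheme.{0}} [IsNoetherian X] [IsNoetherian Y] (e : X ≅ Y) :
    Function.Bijective (T.pull e.hom) := by
  have h1 : ∀ x, T.pull e.inv (T.pull e.hom x) = x := by
    intro x
    rw [← T.pull_comp, hi1_congr T e.inv_hom_id, T.pull_id]
  have h2 : ∀ x, T.pull e.hom (T.pull e.inv x) = x := by
    intro x
    rw [← T.pull_comp, hi1_congr T e.hom_inv_id, T.pull_id]
  exact ⟨Function.LeftInverse.injective h1, Function.RightInverse.surjective h2⟩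

theorem hi1_comp (T : STh0.{u}) {X Y Z : Scheme.{0}} [IsNoetherian X] [IsNoetherian Y]
    [IsNoetherian Z] (f : X ⟶ Y) (g : Y ⟶ Z) [Flat f] [Flat g]
    (hf : Function.Bijective (T.pull f)) (hg : Function.Bijective (T.pull g)) :
    Function.Bijective (T.pull (f ≫ g)) := by
  have h : (T.pull (f ≫ g) : _ → _) = T.pull f ∘ T.pull g := funext fun x => T.pull_comp f g x
  rw [h]
  exact hf.comp hg

theorem hi1_noeth {X Y : Scheme.{0}} (e : Y ≅ X) [IsNoetherian X] : IsNoetherian Y := by
  have h1 : IsLocallyNoetherian Y := isLocallyNoetherian_of_isOpenImmersion e.hom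
  have h2 : CompactSpace Y := QuasiCompact.compactSpace_of_compactSpace e.hom
  exact { }

theorem hi1_main (L : LThy0.{u}) (n : ℕ) (X Y : Scheme.{0}) [IsNoetherian X] [IsAffine X]
    (R : Type) [CommRing R] (f : Y ⟶ X) (g : Y ⟶ Spec (CommRingCat.of (Polynomial R)))
    (h : X ⟶ Spec (CommRingCat.of R)) [Flat f]
    (sq : IsPullback f g h (Spec.map (CommRingCat.ofHom (Polynomial.C : R →+* Polynomial R)))) :
    Function.Bijective ((L.th n).pull f) := by
  let A : Type := Γ(X, ⊤)
  have hA : IsNoetherianRing A :=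
    IsLocallyNoetherian.component_noetherian ⟨⊤, isAffineOpen_top X⟩
  let e : X ≅ Sp A := X.isoSpec
  let φ : R →+* A := (Spec.preimage (e.inv ≫ h)).hom
  have hφ : Sm φ = e.inv ≫ h := Spec.map_preimage _
  have hfl := hi1_flatC A
  have sq1 := hi1_sq φ
  have sq2 : IsPullback (Sm (Polynomial.C : A →+* Polynomial A) ≫ e.inv)
      (Sm (Polynomial.mapRingHom φ)) h (Sm (Polynomial.C : R →+* Polynomial R)) := by
    refine sq1.of_iso (Iso.refl _) e.symm (Iso.refl _) (Iso.refl _) ?_ ?_ ?_ ?_
    · simp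
    · simp
    · rw [hφ]
      simp
    · simp
  let i : Y ≅ Sp (Polynomial A) := sq.isoIsPullback _ _ sq2
  have hi : i.hom ≫ (Sm (Polynomial.C : A →+* Polynomial A) ≫ e.inv) = f :=
    sq.isoIsPullback_hom_fst _ _ sq2
  have n1 : IsNoetherian (Sp A) := inferInstance
  have n2 : IsNoetherian (Sp (Polynomial A)) := inferInstance
  have n3 : IsNoetherian Y := hi1_noeth i
  have h1 : Function.Bijective ((L.th n).pull (Sm (Polynomial.C : A →+* Polynomial A))) :=
    L.aff n A
  have h2 : Function.Bijective ((L.th n).pull e.inv) := hi1_iso (L.th n) e.symm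
  have h3 : Function.Bijective ((L.th n).pull i.hom) := hi1_iso (L.th n) i
  have h4 := hi1_comp (L.th n) i.hom _ h3
    (hi1_comp (L.th n) (Sm (Polynomial.C : A →+* Polynomial A)) e.inv h1 h2)
  have h5 : ((L.th n).pull f : _ → _) =
      (L.th n).pull (i.hom ≫ (Sm (Polynomial.C : A →+* Polynomial A) ≫ e.inv)) :=
    funext fun x => hi1_congr (L.th n) hi.symm x
  rw [h5]
  exact h4

/-- **HI1.** -/
theorem thm_HI1 : St_HI1.{u} := by
  intro L n X Y _ _ R _ f g h _ sq
  exact hi1_main L n X Y R f g h sq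

end Pool.Agent.KQG
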