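import Pool.Agent.KQG.StTh
import Pool.Agent.KIN.H2

/-!
# KQG HI2: homotopy invariance of an abstract graded theory, by noetherian induction
-/

set_option autoImplicit false

noncomputable section

namespace Pool.Agent.KQG

open CategoryTheory AlgebraicGeometry TopologicalSpace Pool.Agent.KTX
open Pool.Agent.KIN (h2_base h2_noeth)

universe u

private theorem hi2_pull_congr (T : STh0.{u}) {X Y : Scheme.{0}} {f g : X ⟶ Y} [Flat f] [Flat g]
    (h : f = g) (x : T.T Y) : T.pull f x = T.pull g x := by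
  subst h
  rfl

/-- noetherian induction over the closed subschemes -/
private theorem hi2_ind (hHI1 : St_HI1.{u}) (L : LThy0.{u}) {X : Scheme.{0}} [IsNoetherian X]
    {R : Type} [CommRing R] (h : X ⟶ Spec (CommRingCat.of R)) (C : Closeds X) :
    ∀ (Z Y : Scheme.{0}) (i : Z ⟶ X) [IsClosedImmersion i], Set.range i = (C : Set X) →
      ∀ (f : Y ⟶ Z) [Flat f] (g : Y ⟶ Spec (CommRingCat.of (Polynomial R))),
      IsPullback f g (i ≫ h) (Spec.map (CommRingCat.ofHom (Polynomial.C : R →+* Polynomial R))) →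
        ∀ n : ℕ, Function.Bijective ((L.th n).pull f) := by
  induction C using WellFoundedLT.induction with
  | ind C ih =>
  intro Z Y i _ hC f _ g sq
  have hZ : IsNoetherian Z := h2_noeth i
  obtain ⟨-, hY⟩ := h2_base sq
  rcases isEmpty_or_nonempty Z with hem | ⟨⟨z⟩⟩
  · exact fun n => hHI1 L n Z Y R f g (i ≫ h) sq
  obtain ⟨W, hW, hzW, -⟩ := exists_isAffineOpen_mem_and_subset (x := z) (U := ⊤) trivial
  -- the affine open subscheme
  have hWa : IsAffine W.toScheme := hW
  have hWn : IsNoetherian W.toScheme := { }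
  let j : W.toScheme ⟶ Z := W.ι
  let jY : Limits.pullback f j ⟶ Y := Limits.pullback.fst f j
  let fW : Limits.pullback f j ⟶ W.toScheme := Limits.pullback.snd f j
  have sq1 : IsPullback jY fW f j := IsPullback.of_hasPullback f j
  have sqW := (sq1.paste_horiz sq.flip).flip
  obtain ⟨hfW, hYW⟩ := h2_base sqW
  -- the closed complement
  let C0 : Closeds Z := ⟨(W : Set Z)ᶜ, W.isOpen.isClosed_compl⟩
  let I : Z.IdealSheafData := Scheme.IdealSheafData.vanishingIdeal C0
  let i' : I.subscheme ⟶ Z := I.subschemeι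
  have hi' : Set.range i' = (W : Set Z)ᶜ := by
    change Set.range I.subschemeι = _
    rw [Scheme.IdealSheafData.range_subschemeι, Scheme.IdealSheafData.coe_support_vanishingIdeal]
    rfl
  have hij : Set.range i' = (Set.range j)ᶜ := by
    rw [hi']
    change _ = (Set.range W.ι)ᶜ
    rw [Scheme.Opens.range_ι]
  have hZ' : IsNoetherian I.subscheme := h2_noeth i'
  let iY : Limits.pullback f i' ⟶ Y := Limits.pullback.fst f i'
  let fY : Limits.pullback f i' ⟶ I.subscheme := Limits.pullback.snd f i'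
  have sq2 : IsPullback iY fY f i' := IsPullback.of_hasPullback f i'
  have sqY := (sq2.paste_horiz sq.flip).flip
  obtain ⟨hfY, hY'⟩ := h2_base sqY
  have hrange : Set.range iY = (Set.range jY)ᶜ := by
    change Set.range (Limits.pullback.fst f i') = (Set.range (Limits.pullback.fst f j))ᶜ
    rw [Scheme.Pullback.range_fst, Scheme.Pullback.range_fst, hij, ← Set.preimage_compl]
  -- the induction hypothesis
  let C' : Closeds X := ⟨Set.range (i' ≫ i), (i' ≫ i).isClosedEmbedding.isClosed_range⟩
  have hlt : C' < C := by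
    refine lt_of_le_of_ne ?_ ?_
    · rintro _ ⟨x, rfl⟩
      rw [Scheme.Hom.comp_apply]
      change i (i' x) ∈ (C : Set X)
      rw [← hC]
      exact ⟨_, rfl⟩
    · intro he
      have h1 : i z ∈ (C' : Set X) := by
        rw [he, ← hC]
        exact ⟨z, rfl⟩
      obtain ⟨x, hx⟩ := h1
      rw [Scheme.Hom.comp_apply] at hx
      have h2 := i.isClosedEmbedding.injective hx
      have h3 : z ∈ Set.range i' := ⟨x, h2⟩
      rw [hi'] at h3
      exact h3 hzW
  have bY : ∀ n : ℕ, Function.Bijective ((L.th n).pull fY) := by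
    refine ih C' hlt I.subscheme _ (i' ≫ i) rfl fY (iY ≫ g) ?_
    rw [Category.assoc]
    exact sqY
  have bW : ∀ n : ℕ, Function.Bijective ((L.th n).pull fW) := fun n =>
    hHI1 L n W.toScheme _ R fW (jY ≫ g) (j ≫ i ≫ h) sqW
  have c1 : ∀ (n : ℕ) (x : (L.th n).T Z), (L.th n).pull fW ((L.th n).pull j x) =
      (L.th n).pull jY ((L.th n).pull f x) := by
    intro n x
    rw [← (L.th n).pull_comp, ← (L.th n).pull_comp]
    exact hi2_pull_congr _ sq1.w.symm x
  have c2 : ∀ (n : ℕ) (x : (L.th n).T I.subscheme), (L.th n).pull f ((L.th n).push i' x) =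
      (L.th n).push iY ((L.th n).pull fY x) := fun n x =>
    (L.th n).bc fY iY i' f sq2.flip x
  have c3 : ∀ (n : ℕ) (u : (L.th (n + 1)).T W.toScheme), (L.th n).pull fY (L.bd n i' j u) =
      L.bd n iY jY ((L.th (n + 1)).pull fW u) := fun n u =>
    L.nat n i' j iY jY fY f fW hij sq2.flip sq1.flip u
  intro n
  refine ⟨?_, ?_⟩
  · rw [injective_iff_map_eq_zero]
    intro x hx
    have h1 : (L.th n).pull j x = 0 := by
      refine (bW n).1 ?_
      rw [c1, hx, map_zero, map_zero]
    obtain ⟨z', rfl⟩ := (L.th n).ex i' j hij x h1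
    rw [c2] at hx
    obtain ⟨y, hy⟩ := L.exZ n iY jY hrange _ hx
    obtain ⟨w, rfl⟩ := (bW (n + 1)).2 y
    rw [← c3] at hy
    rw [← (bY n).1 hy, L.push_bd n i' j hij]
  · intro y
    obtain ⟨w, hw⟩ := (bW n).2 ((L.th n).pull jY y)
    have hl : ∃ x : (L.th n).T Z, (L.th n).pull j x = w := by
      cases n with
      | zero => exact L.onto j w
      | succ m =>
        refine L.exU m i' j hij w ?_
        refine (bY m).1 ?_
        rw [c3, hw, L.bd_pull m iY jY hrange, map_zero]
    obtain ⟨x0, rfl⟩ := hl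
    have h0 : (L.th n).pull jY (y - (L.th n).pull f x0) = 0 := by
      rw [map_sub, ← c1, hw, sub_self]
    obtain ⟨y', hy'⟩ := (L.th n).ex iY jY hrange _ h0
    obtain ⟨z', rfl⟩ := (bY n).2 y'
    refine ⟨x0 + (L.th n).push i' z', ?_⟩
    rw [map_add, c2, hy', add_sub_cancel]

theorem thm_HI2 (hHI1 : St_HI1.{u}) : St_HI2.{u} := by
  intro L n X Y _ R _ f g h _ sq
  refine hi2_ind hHI1 L h ⊤ X Y (𝟙 X) ?_ f g ?_ n
  · simp
  · rw [Category.id_comp]
    exact sq

end Pool.Agent.KQG
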