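import Pool.Agent.KQG.GDefs

/-!
# KQG: the geometric end: statements of the modules (first part)

Geometric end of the library KQ (Quillen's `K'_n`), architect helper12; definitions in
`Pool/Agent/KQG/GDefs.lean`. Every `def St_X : Prop` is one module `Pool/Agent/KQG/X.lean` with
`theorem thm_X (h.. : St_..) : St_X` in the namespace `Pool.Agent.KQG`. The theorems
`Pool.Agent.KSS.thm_S1`, `thm_S2`, `all_S3`, …, `Pool.Agent.KIN.thm_A0`, `thm_L0`, `thm_P1`, `all_P2`, `all_P4`,
`thm_E0`, `all_E1`, `all_D1`, `thm_D2` (`import Pool.Agent.KIN.All`; statements with hints in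
`Pool/Agent/KSS/St.lean` and `Pool/Agent/KIN/St.lean`) may be used everywhere; `ap`, `rM`, `rO`, `QLoc`, `Van`
are explained in `Pool/Agent/KSS/Basic.lean`.

A morphism of `QC X` or of `(Coh X).Ob` is a morphism of `X.Modules` in one or two structures with the
projection `.hom`; a natural isomorphism of functors into full subcategories is obtained from one of the
underlying functors by `NatIso.ofComponents (fun M => ObjectProperty.isoMk _ (ObjectProperty.isoMk _ e))`.
-/

set_option autoImplicit false

noncomputable section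

namespace Pool.Agent.KQG

open CategoryTheory CategoryTheory.Limits AlgebraicGeometry TopologicalSpace
open Pool.Agent.KSS Pool.Agent.KIN Pool.Agent.KQ

/-- **GA** (1 h). Functoriality of pull-back and push-forward: `Scheme.Modules.pullbackId`,
`pullbackComp`, `pushforwardId`, `pushforwardComp`, restricted to the full subcategories (in two steps).
needs: nothing -/
def St_GA : Prop :=
  (∀ (X : Scheme.{0}) [IsLocallyNoetherian X], NI (pullE (𝟙 X)) (ExFun.id (Coh X))) ∧
  (∀ (X Y Z : Scheme.{0}) [IsLocallyNoetherian X] [IsLocallyNoetherian Y] [IsLocallyNoetherian Z]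
    (f : X ⟶ Y) (g : Y ⟶ Z) [Flat f] [Flat g],
    NI (pullE (f ≫ g)) ((pullE g).comp (pullE f))) ∧
  (∀ X : Scheme.{0}, NI (pushE (𝟙 X)) (ExFun.id (Coh X))) ∧
  (∀ (X Y Z : Scheme.{0}) (f : X ⟶ Y) (g : Y ⟶ Z) [IsFinite f] [IsFinite g],
    NI (pushE (f ≫ g)) ((pushE f).comp (pushE g)))

/-- **GB** (1 h). Base change. `Pool/Agent/KIN/P4.lean` proves that the morphism
`p4_c g' f' f g w M : g^* f_* M ⟶ f'_* g'^* M` is an isomorphism; it is natural in `M` (the transpose of a
composition of natural transformations). needs: nothing -/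
def St_GB : Prop := ∀ (X' X Y' Y : Scheme.{0}) [IsLocallyNoetherian X'] [IsLocallyNoetherian X]
  [IsLocallyNoetherian Y'] [IsLocallyNoetherian Y] (g' : X' ⟶ X) (f' : X' ⟶ Y') (f : X ⟶ Y)
  (g : Y' ⟶ Y) [Flat g] [IsFinite f] [Flat g'] [IsFinite f'], IsPullback g' f' f g →
    NI ((pushE f).comp (pullE g)) ((pullE g').comp (pushE f'))

/-- **GC** (2 h). Free algebras: `f_* f^* ≅ id ^ d`. Direct sums of exact functors: for `F G : ExFun E E'`
the functor `M ↦ F M ⊞ G M` (`E'.P` is closed under extensions) with the conflation `F ⟶ F ⊞ G ⟶ G`, so by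
induction on `d` there is a functor `P_d` with `Mult id d P_d` and natural projections `π_i : P_d ⟶ id` (`i < d`) which
are bijective together on sections (see `p5_pow` in `Pool/Agent/KIN/P5.lean`). The morphism `∑ π_i ≫ φ_i`, where
`φ_i : M ⟶ f_* f^* M` is the unit followed by the multiplication by the `i`-th basis element (`p5_mul`; natural in
`M`), is an isomorphism by `p5_cl`'s proof (bijective on sections over affine opens, `St_L0` (2)). Finally `Mult` is
invariant under natural isomorphisms of `F`. needs: nothing -/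
def St_GC : Prop := ∀ (X Y : Scheme.{0}) [IsLocallyNoetherian X] [IsLocallyNoetherian Y]
  (R R' : Type) [CommRing R] [CommRing R'] [Algebra R R'] (d : ℕ)
  (_ : Module.Basis (Fin d) R R') (f : Y ⟶ X) (g : Y ⟶ Spec (CommRingCat.of R'))
  (h : X ⟶ Spec (CommRingCat.of R)) [Flat f] [IsFinite f],
  IsPullback f g h (Spec.map (CommRingCat.ofHom (algebraMap R R'))) →
    Mult (ExFun.id (Coh X)) d ((pullE f).comp (pushE f))

end Pool.Agent.KQG
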