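import Pool.Agent.KQG.KInt
import Pool.Agent.KQG.StGeo

/-!
# KQG, module KG: from the interface `KInt` to the interface `GInt`
-/

set_option autoImplicit false
set_option linter.unusedVariables false

noncomputable section

namespace Pool.Agent.KQG

open CategoryTheory CategoryTheory.Limits AlgebraicGeometry TopologicalSpace
open Pool.Agent.KSS Pool.Agent.KIN Pool.Agent.KQ Pool.Agent.KTX

universe u

theorem NI.refl {E E' : ExCat.{0}} (F : ExFun E E') : NI F F := ⟨Iso.refl _⟩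

theorem NI.symm {E E' : ExCat.{0}} {F G : ExFun E E'} (h : NI F G) : NI G F := by
  obtain ⟨e⟩ := h
  exact ⟨e.symm⟩

theorem NI.trans {E E' : ExCat.{0}} {F G H : ExFun E E'} (h : NI F G) (h' : NI G H) : NI F H := by
  obtain ⟨e⟩ := h
  obtain ⟨e'⟩ := h'
  exact ⟨e ≪≫ e'⟩

theorem NI.comp {E E' E'' : ExCat.{0}} {F F' : ExFun E E'} {G G' : ExFun E' E''} (h : NI F F')
    (h' : NI G G') : NI (F.comp G) (F'.comp G') := by
  obtain ⟨e⟩ := h
  obtain ⟨e'⟩ := h'
  exact ⟨NatIso.hcomp e e'⟩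

theorem kg_congr {X Y : Scheme.{0}} [IsLocallyNoetherian X] [IsLocallyNoetherian Y] (f f' : Y ⟶ X)
    (hf : Flat f) (hf' : Flat f') (h : f = f') : NI (pullE f) (pullE f') := by
  subst h
  exact NI.refl _

/-- the square of pull-backs -/
theorem kg_sq (hGA : St_GA) {X U X' U' : Scheme.{0}} [IsLocallyNoetherian X]
    [IsLocallyNoetherian X'] [IsLocallyNoetherian U] [IsLocallyNoetherian U'] (j : U ⟶ X)
    (j' : U' ⟶ X') (g : X' ⟶ X) (b : U' ⟶ U) [Flat j] [Flat j'] [Flat g] [Flat b]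
    (h : b ≫ j = j' ≫ g) : NI ((pullE g).comp (pullE j')) ((pullE j).comp (pullE b)) :=
  ((hGA.2.1 U' X' X j' g).symm.trans (kg_congr _ _ inferInstance inferInstance h.symm)).trans
    (hGA.2.1 U' U X b j)

section incl

variable {E : ExCat.{0}} (A B : SubP E) (h : ∀ M, A.P M ↔ B.P M) (K : KInt.{u}) (n : ℕ)

theorem kg_inv (x : K.K n (E.sub A)) : K.map n (E.incl B A fun M => (h M).2)
    (K.map n (E.incl A B fun M => (h M).1) x) = x := by
  rw [← K.map_comp]
  exact K.map_id n _ x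

theorem kg_incl (x : K.K n (E.sub A)) : K.map n (E.incl' B)
    (K.map n (E.incl A B fun M => (h M).1) x) = K.map n (E.incl' A) x := by
  rw [← K.map_comp]
  rfl

end incl


section flds

variable (K : KInt.{u}) {X U : Scheme.{0}} (j : U ⟶ X) [IsOpenImmersion j]
  (D : LocD (Coh X) (Coh U)) (hA : ∀ M : QC X, D.A.P M ↔ (VanS j.opensRange).P M)

/-- the boundary with values in the `K`-groups of the sheaves which vanish on the open subscheme -/
def kgBd (n : ℕ) : K.K (n + 1) (Coh U) →+ K.K n ((Coh X).sub (VanS j.opensRange)) :=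
  (K.map n ((Coh X).incl D.A (VanS j.opensRange) fun M => (hA M).1)).comp (K.bd n D)

theorem kgBd_apply (n : ℕ) (x : K.K (n + 1) (Coh U)) : kgBd K j D hA n x =
    K.map n ((Coh X).incl D.A (VanS j.opensRange) fun M => (hA M).1) (K.bd n D x) := rfl

theorem kg_exZ (n : ℕ) (z : K.K n ((Coh X).sub (VanS j.opensRange))) :
    K.map n ((Coh X).incl' (VanS j.opensRange)) z = 0 ↔ ∃ x, kgBd K j D hA n x = z := by
  have h2 := kg_incl (VanS j.opensRange) D.A (fun M => (hA M).symm) K n z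
  constructor
  · intro h
    rw [h] at h2
    obtain ⟨x, hx⟩ := (K.exA n D _).1 h2
    refine ⟨x, ?_⟩
    rw [kgBd_apply, hx]
    exact kg_inv (VanS j.opensRange) D.A (fun M => (hA M).symm) K n z
  · rintro ⟨x, rfl⟩
    rw [kgBd_apply, kg_incl D.A (VanS j.opensRange) hA K n (K.bd n D x)]
    exact (K.exA n D _).2 ⟨x, rfl⟩

variable [IsLocallyNoetherian X] [IsLocallyNoetherian U] (hL : NI D.LF (pullE j))

include hL in
theorem kg_exU (n : ℕ) (x : K.K (n + 1) (Coh U)) : kgBd K j D hA n x = 0 ↔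
    ∃ y, K.map (n + 1) (pullE j) y = x := by
  constructor
  · intro h
    have h1 := kg_inv D.A (VanS j.opensRange) hA K n (K.bd n D x)
    rw [kgBd_apply] at h
    rw [h, map_zero] at h1
    obtain ⟨y, hy⟩ := (K.exC n D x).1 h1.symm
    exact ⟨y, by rw [← hy]; exact (K.ni (n + 1) _ _ hL y).symm⟩
  · rintro ⟨y, rfl⟩
    have h1 := (K.exC n D (K.map (n + 1) (pullE j) y)).2 ⟨y, K.ni (n + 1) _ _ hL y⟩
    rw [kgBd_apply, h1, map_zero]

include hL hA in
theorem kg_exX (n : ℕ) (y : K.K n (Coh X)) : K.map n (pullE j) y = 0 ↔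
    ∃ z, K.map n ((Coh X).incl' (VanS j.opensRange)) z = y := by
  constructor
  · intro h
    obtain ⟨z, hz⟩ := (K.exB n D y).1 ((K.ni n _ _ hL y).trans h)
    exact ⟨_, (kg_incl D.A (VanS j.opensRange) hA K n z).trans hz⟩
  · rintro ⟨z, rfl⟩
    refine (K.ni n _ _ hL _).symm.trans ((K.exB n D _).2 ⟨_,
      kg_incl (VanS j.opensRange) D.A (fun M => (hA M).symm) K n z⟩)

include hL in
theorem kg_onto (x : K.K 0 (Coh U)) : ∃ y, K.map 0 (pullE j) y = x := by
  obtain ⟨y, hy⟩ := K.onto D x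
  exact ⟨y, by rw [← hy]; exact (K.ni 0 _ _ hL y).symm⟩

end flds

section nat

variable {X U X' U' : Scheme.{0}} [IsLocallyNoetherian X] [IsLocallyNoetherian X']
  [IsLocallyNoetherian U] [IsLocallyNoetherian U'] (j : U ⟶ X) (j' : U' ⟶ X') (g : X' ⟶ X)
  (b : U' ⟶ U) [IsOpenImmersion j] [IsOpenImmersion j'] [Flat g] [Flat b]
  (D : LocD (Coh X) (Coh U)) (hA : ∀ M : QC X, D.A.P M ↔ (VanS j.opensRange).P M)
  (D' : LocD (Coh X') (Coh U')) (hA' : ∀ M : QC X', D'.A.P M ↔ (VanS j'.opensRange).P M)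
  (h : j'.opensRange ≤ g ⁻¹ᵁ j.opensRange)

/-- the pull-back between the kernels -/
def kgF : ExFun ((Coh X).sub D.A) ((Coh X').sub D'.A) :=
  ((Coh X).incl D.A (VanS j.opensRange) fun M => (hA M).1).comp
    ((pullV g j.opensRange j'.opensRange h).comp
      ((Coh X').incl (VanS j'.opensRange) D'.A fun M => (hA' M).2))

omit [IsLocallyNoetherian U] [IsLocallyNoetherian U'] in
theorem kgF_ni : NI ((kgF j j' g D hA D' hA' h).comp ((Coh X').incl' D'.A))
    (((Coh X).incl' D.A).comp (pullE g)) := by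
  refine ⟨NatIso.ofComponents (fun M => Iso.refl _) ?_⟩
  intro M N f
  exact (Category.comp_id _).trans (Category.id_comp _).symm

theorem kg_nat (hGA : St_GA) (K : KInt.{u}) (hL : NI D.LF (pullE j)) (hL' : NI D'.LF (pullE j'))
    (hs : b ≫ j = j' ≫ g) (n : ℕ) (x : K.K (n + 1) (Coh U)) :
    K.map n (pullV g j.opensRange j'.opensRange h) (kgBd K j D hA n x) =
      kgBd K j' D' hA' n (K.map (n + 1) (pullE b) x) := by
  have h0 : NI ((pullE g).comp D'.LF) (D.LF.comp (pullE b)) :=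
    ((NI.refl _).comp hL').trans ((kg_sq hGA j j' g b hs).trans (hL.symm.comp (NI.refl _)))
  have h1 := K.nat n D D' (pullE g) (pullE b) (kgF j j' g D hA D' hA' h)
    (kgF_ni j j' g D hA D' hA' h) h0 x
  rw [kgBd_apply, kgBd_apply, ← h1]
  have h2 : K.map n (kgF j j' g D hA D' hA' h) (K.bd n D x) =
      K.map n ((Coh X').incl (VanS j'.opensRange) D'.A fun M => (hA' M).2)
        (K.map n (pullV g j.opensRange j'.opensRange h)
          (K.map n ((Coh X).incl D.A (VanS j.opensRange) fun M => (hA M).1) (K.bd n D x))) := by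
    rw [← K.map_comp, ← K.map_comp]
    rfl
  rw [h2]
  exact (kg_inv (VanS j'.opensRange) D'.A (fun M => (hA' M).symm) K n _).symm

end nat

theorem kg_data (hGL : St_GL) : ∀ {X U : Scheme.{0}} [IsNoetherian X] (j : U ⟶ X)
    [IsOpenImmersion j], ∃ D : LocD (Coh X) (Coh U),
      (∀ M : QC X, D.A.P M ↔ (VanS j.opensRange).P M) ∧
        ∀ [IsLocallyNoetherian U], NI D.LF (pullE j) := by
  intro X U _ j _
  have := isLocallyNoetherian_of_isOpenImmersion j
  obtain ⟨D, h1, h2⟩ := hGL X U j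
  exact ⟨D, h1, h2⟩

theorem kg_dev (hGD : St_GD) (K : KInt.{u}) (n : ℕ) {X Z : Scheme.{0}} [IsNoetherian X]
    (i : Z ⟶ X) [IsClosedImmersion i] (O : X.Opens) (h : i ⁻¹ᵁ O = ⊥)
    (hr : Set.range i = (O : Set X)ᶜ) : Function.Bijective (K.map n (pushV i O h)) := by
  obtain ⟨D, hD⟩ := hGD X Z i O h hr
  rw [← hD]
  exact K.dev n D

/-- the interface `GInt` -/
def kgG (hGA : St_GA) (hGL : St_GL) (hGD : St_GD) (K : KInt.{u}) : GInt.{u} where
  K := K.K
  grp := K.grp
  map := K.map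
  map_id := K.map_id
  map_comp := K.map_comp
  ni := K.ni
  add := K.add
  bd n X U _ j _ := kgBd K j (kg_data hGL j).choose (kg_data hGL j).choose_spec.1 n
  exU n X U _ _ j _ x := kg_exU K j (kg_data hGL j).choose (kg_data hGL j).choose_spec.1
    (kg_data hGL j).choose_spec.2 n x
  exZ n X U _ j _ z := kg_exZ K j (kg_data hGL j).choose (kg_data hGL j).choose_spec.1 n z
  exX n X U _ _ j _ y := kg_exX K j (kg_data hGL j).choose (kg_data hGL j).choose_spec.1
    (kg_data hGL j).choose_spec.2 n y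
  onto j _ x := kg_onto K j (kg_data hGL j).choose (kg_data hGL j).choose_spec.2 x
  nat n X U X' U' _ _ _ _ j j' g b _ _ _ _ h hs x := kg_nat j j' g b (kg_data hGL j).choose
    (kg_data hGL j).choose_spec.1 (kg_data hGL j').choose (kg_data hGL j').choose_spec.1 h hGA K
    (kg_data hGL j).choose_spec.2 (kg_data hGL j').choose_spec.2 hs n x
  dev n X Z _ i _ O h hr := kg_dev hGD K n i O h hr
  hom := K.hom

theorem thm_KG (hGA : St_GA) (hGL : St_GL) (hGD : St_GD) : St_KG.{u} := fun K =>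
  ⟨kgG hGA hGL hGD K, fun _ _ => AddEquiv.refl _, fun _ _ _ _ _ => rfl⟩

end Pool.Agent.KQG
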