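import Pool.Agent.KQG.StLD

/-!
# KQG LA: restriction to an open subscheme on quasi-coherent sheaves
-/

set_option autoImplicit false

noncomputable section

namespace Pool.Agent.KQG

open CategoryTheory CategoryTheory.Limits AlgebraicGeometry TopologicalSpace
open Pool.Agent.KSS Pool.Agent.KIN Pool.Agent.KQ

/-- flat pull-back preserves short exact sequences of quasi-coherent sheaves -/
theorem la_ses {X Y : Scheme.{0}} (f : Y ⟶ X) [Flat f] {M N K : QC X} {a : M ⟶ N} {b : N ⟶ K}
    (h : SES a b) : SES ((pbQ f).map a) ((pbQ f).map b) := by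
  obtain ⟨w, hs⟩ := (ses_qc a b).1 h
  exact (ses_qc _ _).2 ⟨_, all_P2.1 X Y f (ShortComplex.mk _ _ w) M.property N.property
    K.property hs⟩

/-- flat pull-back of quasi-coherent sheaves is exact -/
theorem la_exact {X Y : Scheme.{0}} (f : Y ⟶ X) [Flat f] : PreservesFiniteLimits (pbQ f) := by
  have h : ∀ S : ShortComplex (QC X), S.ShortExact → (S.map (pbQ f)).ShortExact := fun S hS => by
    obtain ⟨_, h1⟩ := la_ses f (a := S.f) (b := S.g) ⟨S.zero, hS⟩
    exact h1
  exact (((pbQ f).exact_tfae.out 0 3 rfl rfl).1 h).1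

/-- the counit is an isomorphism -/
theorem la_counit {X U : Scheme.{0}} [IsLocallyNoetherian X] (j : U ⟶ X) [IsOpenImmersion j] :
    IsIso (adjQ j).counit := by
  have e : pfQ j ⋙ (qcP X).ι ≅ (qcP U).ι ⋙ Scheme.Modules.pushforward j := Iso.refl _
  have h1 : (pfQ j).Full := Functor.Full.of_comp_faithful_iso e
  have h2 : (pfQ j).Faithful := Functor.Faithful.of_comp_iso e
  infer_instance

/-- the kernel of the restriction -/
theorem la_zero {X U : Scheme.{0}} (j : U ⟶ X) [IsOpenImmersion j] (M : QC X) :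
    IsZero ((pbQ j).obj M) ↔ Van j.opensRange M.obj := by
  constructor
  · intro h W hW hA s
    have h1 : IsZero (pb j M.obj) := (qcP U).ι.map_isZero h
    refine (all_P2.2.2.2 X U j M.obj M.property W hA hW).1 ?_
    rw [ap_isZero h1 _ (es j M.obj W (j ⁻¹ᵁ W) le_rfl s),
      ap_isZero h1 _ (es j M.obj W (j ⁻¹ᵁ W) le_rfl 0)]
  · intro h
    have h1 : Van ⊤ (pb j M.obj) := by
      intro V _ hV s
      have h2 : IsAffineOpen (j ''ᵁ V) := hV.image_of_isOpenImmersion j
      have h3 : j ''ᵁ V ≤ j.opensRange := j.image_le_opensRange V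
      have h4 : j ⁻¹ᵁ (j ''ᵁ V) = V := j.preimage_image_eq V
      have h5 : ∀ t : Γ(pb j M.obj, j ⁻¹ᵁ (j ''ᵁ V)), t = 0 := by
        intro t
        obtain ⟨m, rfl⟩ := (all_P2.2.2.2 X U j M.obj M.property _ h2 h3).2 t
        rw [h _ h3 h2 m, map_zero]
      have h6 : ∀ V' : U.Opens, V' = V → (∀ t : Γ(pb j M.obj, V'), t = 0) →
          ∀ s : Γ(pb j M.obj, V), s = 0 := by
        rintro _ rfl h
        exact h
      exact h6 _ h4 h5 s
    have h2 := (thm_S1 U).2.2.2.1 (pb j M.obj) ⊤ h1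
    rw [IsZero.iff_id_eq_zero]
    apply ObjectProperty.hom_ext
    exact hom_ext_ap fun W s => (h2 W le_top _).trans (h2 W le_top _).symm

/-- **LA** -/
theorem thm_LA : St_LA := fun _ _ _ j _ => ⟨la_exact j, la_counit j, fun M => la_zero j M⟩

end Pool.Agent.KQG
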