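import Pool.Agent.KQG.StLD

/-!
# KQG, module LB: coherent sheaves extend
-/

set_option autoImplicit false

noncomputable section

namespace Pool.Agent.KQG

open CategoryTheory CategoryTheory.Limits AlgebraicGeometry TopologicalSpace
open Pool.Agent.KSS Pool.Agent.KIN Pool.Agent.KQ

namespace LB

/-- a morphism which is injective on all sections is a monomorphism -/
theorem mono_of_inj {X : Scheme.{0}} {M N : X.Modules} (u : M ⟶ N)
    (h : ∀ W : X.Opens, Function.Injective (ap u W)) : Mono u := by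
  refine Preadditive.mono_of_cancel_zero u fun {A} g hg => ?_
  refine hom_ext_ap fun W s => h W ?_
  rw [← ap_comp, hg]
  exact (map_zero (ap u W)).symm

/-- the counit of the restricted adjunction -/
theorem counit_hom {X U : Scheme.{0}} (j : U ⟶ X) [PfQ j] (c : QC U) :
    ((adjQ j).counit.app c).hom =
      (Scheme.Modules.pullbackPushforwardAdjunction j).counit.app c.obj := by
  have h := (Scheme.Modules.pullbackPushforwardAdjunction j).map_restrictFullyFaithful_counit_app
    (qcP X).fullyFaithfulι (qcP U).fullyFaithfulι (L := pbQ j) (R := pfQ j) (Iso.refl _)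
    (Iso.refl _) c
  refine Eq.trans h ?_
  change 𝟙 _ ≫ (Scheme.Modules.pullback j).map (𝟙 _) ≫ _ = _
  rw [CategoryTheory.Functor.map_id, Category.id_comp]
  exact Category.id_comp _

/-- the transpose of a morphism which is bijective over the affine open sets of `j.opensRange` -/
theorem iso_transpose {X U : Scheme.{0}} (j : U ⟶ X) [IsOpenImmersion j] (F : X.Modules)
    (c : U.Modules) (hF : F.IsQuasicoherent) (hc : c.IsQuasicoherent) (u : F ⟶ pf j c)
    (hu : ∀ W : X.Opens, IsAffineOpen W → W ≤ j.opensRange → Function.Bijective (ap u W)) :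
    IsIso ((Scheme.Modules.pullback j).map u ≫
      (Scheme.Modules.pullbackPushforwardAdjunction j).counit.app c) := by
  set φ : pb j F ⟶ c := (Scheme.Modules.pullback j).map u ≫
      (Scheme.Modules.pullbackPushforwardAdjunction j).counit.app c with hφ
  have htri : eta j F ≫ (Scheme.Modules.pushforward j).map φ = u := by
    have h1 : φ = ((Scheme.Modules.pullbackPushforwardAdjunction j).homEquiv F c).symm u := by
      rw [Adjunction.homEquiv_counit]
    have h2 := (Scheme.Modules.pullbackPushforwardAdjunction j).homEquiv_unit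
      (X := F) (Y := c) (f := φ)
    rw [h1, Equiv.apply_symm_apply, ← h1] at h2
    exact h2.symm
  have hb : ∀ W : X.Opens, IsAffineOpen W → W ≤ j.opensRange →
      Function.Bijective (ap φ (j ⁻¹ᵁ W)) := by
    intro W hW hWj
    have h1 : ∀ s : Γ(F, W), ap φ (j ⁻¹ᵁ W) (es j F W (j ⁻¹ᵁ W) le_rfl s) =
        (show Γ(c, j ⁻¹ᵁ W) from ap u W s) := by
      intro s
      have h2 : es j F W (j ⁻¹ᵁ W) le_rfl s =
          (show Γ(pb j F, j ⁻¹ᵁ W) from ap (eta j F) W s) := rM_self le_rfl _
      rw [h2]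
      have h3 : ap (eta j F ≫ (Scheme.Modules.pushforward j).map φ) W s = ap u W s := by
        rw [htri]
      exact h3
    have h4 : Function.Bijective (es j F W (j ⁻¹ᵁ W) le_rfl) := all_P2.2.2.2 X U j F hF W hW hWj
    have h5 := hu W hW hWj
    have h6 : Function.Bijective (fun s : Γ(F, W) =>
        ap φ (j ⁻¹ᵁ W) (es j F W (j ⁻¹ᵁ W) le_rfl s)) := by
      have h7 : (fun s : Γ(F, W) => ap φ (j ⁻¹ᵁ W) (es j F W (j ⁻¹ᵁ W) le_rfl s)) =
          fun s => (show Γ(c, j ⁻¹ᵁ W) from ap u W s) := funext h1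
      rw [h7]
      exact h5
    constructor
    · intro a b hab
      obtain ⟨s, rfl⟩ := h4.2 a
      obtain ⟨t, rfl⟩ := h4.2 b
      rw [h6.1 hab]
    · intro t
      obtain ⟨s, hs⟩ := h6.2 t
      exact ⟨_, hs⟩
  refine (thm_L0 U).2.1 _ _ φ (thm_P1 X U j F hF).1 hc fun y => ?_
  obtain ⟨V, hV, hy⟩ := d1_aff U y
  have h8 : j ⁻¹ᵁ j ''ᵁ V = V := j.preimage_image_eq V
  have h9 := hb (j ''ᵁ V) (hV.image_of_isOpenImmersion j) (j.image_le_opensRange V)
  rw [h8] at h9
  exact ⟨V, hV, hy, h9⟩

end LB

/-- LB. -/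
theorem thm_LB : St_LB := by
  intro X U _ j _ c hc
  obtain ⟨F, u, hF, hinj, hbij⟩ := all_E1 X U j c.obj hc
  let m : QC.mk F hF.1 ⟶ (pfQ j).obj c := ObjectProperty.homMk u
  have hm : Mono u := LB.mono_of_inj u hinj
  refine ⟨QC.mk F hF.1, m, (qcP X).ι.mono_of_mono_map (f := m) hm, hF, ?_⟩
  have h1 := LB.iso_transpose j F c.obj hF.1 c.property u hbij
  have h2 : IsIso ((qcP U).ι.map ((pbQ j).map m ≫ (adjQ j).counit.app c)) := by
    have h3 : (qcP U).ι.map ((pbQ j).map m ≫ (adjQ j).counit.app c) =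
        (Scheme.Modules.pullback j).map u ≫
          (Scheme.Modules.pullbackPushforwardAdjunction j).counit.app c.obj := by
      rw [Functor.map_comp]
      exact congrArg _ (LB.counit_hom j c)
    rw [h3]
    exact h1
  exact isIso_of_reflects_iso _ (qcP U).ι

end Pool.Agent.KQG
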