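import Pool.Agent.KQG.KInt

/-!
# KQG, module THY: the graded theory from the interface `KInt`
-/

set_option autoImplicit false

noncomputable section

namespace Pool.Agent.KQG

open CategoryTheory CategoryTheory.Limits AlgebraicGeometry TopologicalSpace
open Pool.Agent.KSS Pool.Agent.KIN Pool.Agent.KQ Pool.Agent.KTX

universe u

theorem thm_THY (hKG : St_KG.{u}) (hFIN : St_FIN.{u}) : St_THY.{u} := by
  intro K
  obtain ⟨G, e, he⟩ := hKG K
  obtain ⟨L, e', h1, h2, h3⟩ := hFIN G
  refine ⟨L, fun n X => (e' n X).trans (e n (Coh X)), h1, fun n X Y _ _ f _ x => ?_,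
    fun n X Y f _ x => ?_⟩
  · rw [AddEquiv.trans_apply, AddEquiv.trans_apply, h2, he]
  · rw [AddEquiv.trans_apply, AddEquiv.trans_apply, h3, he]

end Pool.Agent.KQG
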