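import Pool.Agent.KQG.GA
import Pool.Agent.KQG.GB
import Pool.Agent.KQG.GC
import Pool.Agent.KQG.GE
import Pool.Agent.KQG.HI1
import Pool.Agent.KQG.HI2
import Pool.Agent.KQG.AS
import Pool.Agent.KQG.FIN
import Pool.Agent.KQG.CL
import Pool.Agent.KQG.LA
import Pool.Agent.KQG.LB
import Pool.Agent.KQG.AR
import Pool.Agent.KQG.GL
import Pool.Agent.KQG.DA
import Pool.Agent.KQG.DB
import Pool.Agent.KQG.DR
import Pool.Agent.KQG.DC
import Pool.Agent.KQG.GD
import Pool.Agent.KQG.KG
import Pool.Agent.KQG.THY

/-!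
# KQG: the geometric end, all modules

`all_THY`: every `KInt` (K-theory of exact categories) gives a graded theory `Pool.Agent.KTX.LThy` with the
groups `K n (Coh X)`.
-/

set_option autoImplicit false

noncomputable section

namespace Pool.Agent.KQG

universe u

theorem all_AS : St_AS.{u} := thm_AS thm_GA thm_GB thm_GC thm_GE

theorem all_HI2 : St_HI2.{u} := thm_HI2 thm_HI1

theorem all_FIN : St_FIN.{u} := thm_FIN all_AS all_HI2

theorem all_AR : St_AR := thm_AR thm_CL

theorem all_GL : St_GL := thm_GL thm_CL thm_LA thm_LB all_AR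

theorem all_DB : St_DB := thm_DB thm_CL thm_DA

theorem all_DR : St_DR := thm_DR thm_CL

theorem all_DC : St_DC := thm_DC thm_DA all_DR

theorem all_GD : St_GD := thm_GD thm_CL thm_DA all_DB all_DC

theorem all_KG : St_KG.{u} := thm_KG thm_GA all_GL all_GD

theorem all_THY : St_THY.{u} := thm_THY all_KG all_FIN

end Pool.Agent.KQG
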