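import Pool.Agent.KQG.All
import Pool.Agent.KQ.AllLoc

/-!
# KQG: Quillen's groups `K_n` of exact categories are an instance of the interface `KInt`

`kInt h : KInt.{1}` with the groups `Kn n E` and the maps `Kmap n F`, from homotopy invariance
`St_HOMK` for noetherian rings (helper12).
-/

set_option autoImplicit false

noncomputable section

namespace Pool.Agent.KQG

open CategoryTheory CategoryTheory.Limits AlgebraicGeometry TopologicalSpace
open Pool.Agent.KSS Pool.Agent.KIN Pool.Agent.KQ Pool.Agent.KTX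

universe u

/-- homotopy invariance of the K-groups of finitely generated modules over noetherian rings -/
def St_HOMK : Prop := ∀ (n : ℕ) (A : Type) [CommRing A] [IsNoetherianRing A]
  (h : (Polynomial.C : A →+* Polynomial A).Flat),
    Function.Bijective (Kmap n (E := MA A) (E' := MA (Polynomial A)) (bcE Polynomial.C h))

namespace KI

/-- a functor isomorphic to a functor with values in `A` -/
theorem maps_of_ni {EB EB' : ExCat.{0}} {A : SubP EB} {A' : SubP EB'} {F : ExFun EB EB'}
    {FA : ExFun (EB.sub A) (EB'.sub A')}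
    (h : NI (FA.comp (EB'.incl' A')) ((EB.incl' A).comp F)) : F.Maps A A' := by
  intro X hX
  obtain ⟨e⟩ := h
  have e1 := (ObjectProperty.ι _).mapIso (e.app ⟨X.obj, hX⟩)
  exact A'.iso e1 (FA.F.obj ⟨X.obj, hX⟩).property

/-- the functor on the subcategories is determined up to isomorphism -/
theorem ni_sub {EB EB' : ExCat.{0}} {A : SubP EB} {A' : SubP EB'} {F : ExFun EB EB'}
    {FA : ExFun (EB.sub A) (EB'.sub A')}
    (h : NI (FA.comp (EB'.incl' A')) ((EB.incl' A).comp F)) (h1 : F.Maps A A') :
    NI FA (F.sub h1) := by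
  obtain ⟨e⟩ := h
  refine ⟨NatIso.ofComponents (fun X => ⟨ObjectProperty.homMk (e.hom.app X).hom,
    ObjectProperty.homMk (e.inv.app X).hom, ?_, ?_⟩) ?_⟩
  · apply ObjectProperty.hom_ext
    have h2 := congrArg InducedCategory.Hom.hom (e.hom_inv_id_app X)
    exact h2
  · apply ObjectProperty.hom_ext
    have h2 := congrArg InducedCategory.Hom.hom (e.inv_hom_id_app X)
    exact h2
  · intro X Y f
    apply ObjectProperty.hom_ext
    have h2 := congrArg InducedCategory.Hom.hom (e.hom.naturality f)
    exact h2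

end KI

/-- the boundary maps of the localization sequences of the K-groups -/
def bdK : ∀ (n : ℕ) {EB EC : ExCat.{0}} (D : LocD EB EC), Kn (n + 1) EC →+ Kn n (EB.sub D.A) :=
  all_LocK.{0}.choose

theorem bdK_spec : LocH.{0} bdK := all_LocK.{0}.choose_spec

/-- Quillen's K-groups -/
def kInt (h : St_HOMK) : KInt.{1} where
  K n E := Kn n E
  grp n E := inferInstance
  map n {E E'} F := Kmap n (E := E) (E' := E') F
  map_id n E x := Kmap_id n E x
  map_comp n {E E' E''} F G x := Kmap_comp n (E := E) (E' := E') (E'' := E'') F G x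
  ni n {E E'} F G := by
    rintro ⟨e⟩ x
    exact DFunLike.congr_fun (Kmap_ni (E := E) (E' := E') (F := F) (G := G) e n) x
  add n {E E'} F' F F'' α β hs x := all_ADD F' F F'' ⟨α, β, hs⟩ n x
  dev n {E E'} D := all_DevK D n
  bd n {EB EC} D := bdK n D
  exC n {EB EC} D x := bdK_spec.exC n D x
  exA n {EB EC} D z := bdK_spec.exA n D z
  exB n {EB EC} D y := bdK_spec.exB n D y
  onto {EB EC} D := bdK_spec.surj D
  nat n {EB EC EB' EC'} D D' F G FA h1 h2 x := by
    have h3 := KI.maps_of_ni h1
    obtain ⟨e⟩ := KI.ni_sub h1 h3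
    have h4 := DFunLike.congr_fun (Kmap_ni (E := EB.sub D.A) (E' := EB'.sub D'.A) (F := FA)
      (G := F.sub h3) e n) (bdK n D x)
    obtain ⟨e2⟩ := h2
    exact h4.trans (bdK_spec.nat n D D' F G h3 ⟨e2.symm⟩ x)
  hom n A _ _ hf := h n A hf

theorem kInt_K (h : St_HOMK) (n : ℕ) (E : ExCat.{0}) : (kInt h).K n E = Kn n E := rfl

theorem kInt_map (h : St_HOMK) (n : ℕ) {E E' : ExCat.{0}} (F : ExFun E E') :
    (kInt h).map n F = Kmap n (E := E) (E' := E') F := rfl

end Pool.Agent.KQG
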