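import Pool.Agent.KQG.StLD
import Pool.Agent.KQG.StAsm

/-!
# KQG: the interface of the K-theory of exact categories

`KInt`: the properties of Quillen's groups `K_n(E)` of exact categories (`Pool.Agent.KQ.ExCat`) which are
used by the geometric end. Statements of the last modules. Architect helper12.
-/

set_option autoImplicit false

noncomputable section

namespace Pool.Agent.KQG

open CategoryTheory CategoryTheory.Limits AlgebraicGeometry TopologicalSpace
open Pool.Agent.KSS Pool.Agent.KIN Pool.Agent.KQ Pool.Agent.KTX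

universe u

/-- The interface of the K-theory of exact categories. -/
structure KInt where
  /-- the groups -/
  K : ℕ → ExCat.{0} → Type u
  /-- the group structure -/
  grp : ∀ n E, AddCommGroup (K n E)
  /-- functoriality -/
  map : ∀ (n : ℕ) {E E' : ExCat.{0}}, ExFun E E' → K n E →+ K n E'
  map_id : ∀ (n : ℕ) (E : ExCat.{0}) (x : K n E), map n (ExFun.id E) x = x
  map_comp : ∀ (n : ℕ) {E E' E'' : ExCat.{0}} (F : ExFun E E') (G : ExFun E' E'') (x : K n E),
    map n (F.comp G) x = map n G (map n F x)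
  /-- isomorphic functors -/
  ni : ∀ (n : ℕ) {E E' : ExCat.{0}} (F G : ExFun E E'), NI F G → ∀ x : K n E,
    map n F x = map n G x
  /-- additivity -/
  add : ∀ (n : ℕ) {E E' : ExCat.{0}} (F' F F'' : ExFun E E') (α : F'.F ⟶ F.F) (β : F.F ⟶ F''.F),
    (∀ M : E.Ob, E'.Conf (α.app M) (β.app M)) → ∀ x : K n E, map n F x = map n F' x + map n F'' x
  /-- devissage -/
  dev : ∀ (n : ℕ) {E E' : ExCat.{0}} (D : DevD E E'), Function.Bijective (map n D.F)
  /-- the boundary of the localization sequence -/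
  bd : ∀ (n : ℕ) {EB EC : ExCat.{0}} (D : LocD EB EC), K (n + 1) EC →+ K n (EB.sub D.A)
  exC : ∀ (n : ℕ) {EB EC : ExCat.{0}} (D : LocD EB EC) (x : K (n + 1) EC), bd n D x = 0 ↔
    ∃ y : K (n + 1) EB, map (n + 1) D.LF y = x
  exA : ∀ (n : ℕ) {EB EC : ExCat.{0}} (D : LocD EB EC) (z : K n (EB.sub D.A)),
    map n (EB.incl' D.A) z = 0 ↔ ∃ x : K (n + 1) EC, bd n D x = z
  exB : ∀ (n : ℕ) {EB EC : ExCat.{0}} (D : LocD EB EC) (y : K n EB), map n D.LF y = 0 ↔
    ∃ z : K n (EB.sub D.A), map n (EB.incl' D.A) z = y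
  onto : ∀ {EB EC : ExCat.{0}} (D : LocD EB EC), Function.Surjective (map 0 D.LF)
  /-- naturality of the boundary -/
  nat : ∀ (n : ℕ) {EB EC EB' EC' : ExCat.{0}} (D : LocD EB EC) (D' : LocD EB' EC')
    (F : ExFun EB EB') (G : ExFun EC EC') (FA : ExFun (EB.sub D.A) (EB'.sub D'.A)),
    NI (FA.comp (EB'.incl' D'.A)) ((EB.incl' D.A).comp F) → NI (F.comp D'.LF) (D.LF.comp G) →
      ∀ x : K (n + 1) EC, map n FA (bd n D x) = bd n D' (map (n + 1) G x)
  /-- homotopy invariance for noetherian rings -/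
  hom : ∀ (n : ℕ) (A : Type) [CommRing A] [IsNoetherianRing A]
    (h : (Polynomial.C : A →+* Polynomial A).Flat), Function.Bijective (map n (bcE _ h))

attribute [instance] KInt.grp

/-- **KG** (2 h). From `KInt` to `GInt`: `bd n j` is the boundary for the `D` of `St_GL` followed by the
isomorphism of exact categories `(Coh X).sub D.A ⟶ (Coh X).sub (VanS j.opensRange)` (`ExCat.incl` in both
directions). Exactness: `exC`, `exA`, `exB`, `NI D.LF (pullE j)`, `map_comp`. `nat`: `KInt.nat` for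
`F = pullE g`, `G = pullE b`; `NI ((pullE g).comp (pullE j')) ((pullE j).comp (pullE b))` by `St_GA` (both are the
pull-back along `b ≫ j = j' ≫ g`). `dev`: `St_GD`. needs: GA, GL, GD -/
def St_KG : Prop := ∀ K : KInt.{u}, ∃ (G : GInt.{u}) (e : ∀ n E, G.K n E ≃+ K.K n E),
  ∀ (n : ℕ) (E E' : ExCat.{0}) (F : ExFun E E') (x : G.K n E),
    e n E' (G.map n F x) = K.map n F (e n E x)

/-- **THY** (0.5 h). The graded theory in the sense of `Pool.Agent.KTX.LThy` with the groups
`K.K n (Coh X)`. needs: KG, FIN -/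
def St_THY : Prop := ∀ K : KInt.{u}, ∃ (L : LThy.{u})
  (e : ∀ (n : ℕ) (X : Scheme.{0}), (L.th n).T X ≃+ K.K n (Coh X)),
  (∀ (n : ℕ) (X : Scheme.{0}) (x : (L.th (Int.negSucc n)).T X), x = 0) ∧
  (∀ (n : ℕ) (X Y : Scheme.{0}) [IsLocallyNoetherian X] [IsLocallyNoetherian Y] (f : Y ⟶ X)
    [Flat f] (x : (L.th n).T X), e n Y ((L.th n).pull f x) = K.map n (pullE f) (e n X x)) ∧
  (∀ (n : ℕ) (X Y : Scheme.{0}) (f : Y ⟶ X) [IsFinite f] (x : (L.th n).T Y),
    e n X ((L.th n).push f x) = K.map n (pushE f) (e n Y x))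

end Pool.Agent.KQG
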