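import Pool.Agent.KQG.GDefs
import Pool.Agent.KQG.MDefs
import Pool.Agent.KQG.ThDefs

/-!
# KQG: the assembly of the graded theory: definitions

* `pullV g O O' h : ExFun ((Coh X).sub (VanS O)) ((Coh X').sub (VanS O'))`: pull-back along the flat
  morphism `g : X' ⟶ X`, `O' ≤ g⁻¹ O`;
* `pushV i O h : ExFun (Coh Z) ((Coh X).sub (VanS O))`: push-forward along the finite morphism `i : Z ⟶ X`,
  `i⁻¹ O = ∅`;
* `GInt`: what is needed of a sequence of functors `K n` from exact categories to abelian groups in order to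
  construct a theory in the sense of `LThy0`.
-/

set_option autoImplicit false

noncomputable section

namespace Pool.Agent.KQG

open CategoryTheory CategoryTheory.Limits AlgebraicGeometry TopologicalSpace
open Pool.Agent.KSS Pool.Agent.KIN Pool.Agent.KQ Pool.Agent.KTX

universe u

/-- the pull-back of a sheaf which vanishes on `O` vanishes on the preimage of `O` -/
theorem van_pb {X Y : Scheme.{0}} (f : Y ⟶ X) (O : X.Opens) (M : X.Modules)
    (hM : M.IsQuasicoherent) (h : Van O M) : Van (f ⁻¹ᵁ O) (pb f M) := by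
  refine (thm_L0 Y).2.2.1 (pb f M) (f ⁻¹ᵁ O) (thm_P1 X Y f M hM).1 fun y hy => ?_
  obtain ⟨U, hU, hyU, hUO⟩ := exists_isAffineOpen_mem_and_subset (X := X) (x := f y) (U := O) hy
  obtain ⟨V, hV, hyV, hVU⟩ := exists_isAffineOpen_mem_and_subset (X := Y) (x := y)
    (U := f ⁻¹ᵁ U) hyU
  refine ⟨V, hV, hyV, fun s => ?_⟩
  letI := (f.appLE U V hVU).hom.toAlgebra
  obtain ⟨e, -⟩ := (thm_P1 X Y f M hM).2 U V hVU hU hV
  have h0 : Subsingleton Γ(M, U) := ⟨fun a b => (h U hUO hU a).trans (h U hUO hU b).symm⟩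
  have h1 : Subsingleton (TensorProduct Γ(X, U) Γ(Y, V) Γ(M, U)) := inferInstance
  rw [← e.apply_symm_apply s, Subsingleton.elim (e.symm s) 0, map_zero]

/-- the push-forward of a sheaf vanishes where the fibres are empty -/
theorem van_pf {X Y : Scheme.{0}} (f : Y ⟶ X) (O : X.Opens) (h : f ⁻¹ᵁ O = ⊥) (N : Y.Modules) :
    Van O (pf f N) := by
  intro W hW _ s
  have h1 : f ⁻¹ᵁ W = ⊥ := by
    rw [eq_bot_iff, ← h]
    exact fun x hx => hW hx
  have h2 : ∀ (V : Y.Opens), V = ⊥ → ∀ t : Γ(N, V), t = 0 := by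
    rintro V rfl t
    exact (thm_S1 Y).2.2.2.1 N ⊥ ((thm_S5 thm_S1 thm_S2 Y).2.2.1 N) ⊥ le_rfl t
  exact h2 _ h1 s

/-- pull-back of coherent sheaves which vanish on an open set -/
def pullV {X X' : Scheme.{0}} [IsLocallyNoetherian X] [IsLocallyNoetherian X'] (g : X' ⟶ X)
    [Flat g] (O : X.Opens) (O' : X'.Opens) (h : O' ≤ g ⁻¹ᵁ O) :
    ExFun ((Coh X).sub (VanS O)) ((Coh X').sub (VanS O')) :=
  @ExFun.ofFunctor ((Coh X).sub (VanS O)) ((Coh X').sub (VanS O')) (pbQ g)
    (inferInstanceAs (pbQ g).Additive)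
    (fun M hM => ⟨all_P2.2.1 X X' g M.obj hM.1, fun W hW =>
      van_pb g O M.obj M.property hM.2 W (hW.trans h)⟩)
    fun {M N K} a b h1 h2 h3 h => by
      obtain ⟨w, hs⟩ := (ses_qc a b).1 h
      exact (ses_qc _ _).2 ⟨_, all_P2.1 X X' g (ShortComplex.mk _ _ w) M.property N.property
        K.property hs⟩

/-- push-forward with values in the sheaves which vanish on an open set -/
def pushV {X Z : Scheme.{0}} (i : Z ⟶ X) [IsFinite i] (O : X.Opens) (h : i ⁻¹ᵁ O = ⊥) :
    ExFun (Coh Z) ((Coh X).sub (VanS O)) :=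
  @ExFun.ofFunctor (Coh Z) ((Coh X).sub (VanS O)) (pfQ i) (inferInstanceAs (pfQ i).Additive)
    (fun M hM => ⟨coh_pf i M.obj hM, van_pf i O h M.obj⟩) fun {M N K} a b _ _ _ h => by
      obtain ⟨w, hs⟩ := (ses_qc a b).1 h
      exact (ses_qc _ _).2 ⟨_, (all_S6 X Z i).2.1 (ShortComplex.mk _ _ w) hs M.property
        N.property⟩

/-- The interface of the K-theory of exact categories, specialised to coherent sheaves on noetherian
schemes: `K n` is a functor from exact categories to abelian groups, invariant under natural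
isomorphisms, additive for conflations of functors, with long exact sequences
`K (n+1) (Coh U) → K n (Coh_Z X) → K n (Coh X) → K n (Coh U)` (`Z` the complement of the open
subscheme `U` of `X`, `Coh_Z X` the coherent sheaves which vanish on `U`) natural for flat pull-backs, surjective at
the end, devissage for `Coh Z → Coh_Z X`, and homotopy invariance for noetherian rings. -/
structure GInt where
  /-- the groups -/
  K : ℕ → ExCat.{0} → Type u
  /-- the group structure -/
  grp : ∀ n E, AddCommGroup (K n E)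
  /-- functoriality -/
  map : ∀ (n : ℕ) {E E' : ExCat.{0}}, ExFun E E' → K n E →+ K n E'
  map_id : ∀ (n : ℕ) (E : ExCat.{0}) (x : K n E), map n (ExFun.id E) x = x
  map_comp : ∀ (n : ℕ) {E E' E'' : ExCat.{0}} (F : ExFun E E') (G : ExFun E' E'') (x : K n E),
    map n (F.comp G) x = map n G (map n F x)
  ni : ∀ (n : ℕ) {E E' : ExCat.{0}} (F G : ExFun E E'), NI F G → ∀ x : K n E,
    map n F x = map n G x
  add : ∀ (n : ℕ) {E E' : ExCat.{0}} (F' F F'' : ExFun E E') (α : F'.F ⟶ F.F) (β : F.F ⟶ F''.F),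
    (∀ M : E.Ob, E'.Conf (α.app M) (β.app M)) → ∀ x : K n E, map n F x = map n F' x + map n F'' x
  /-- the boundary -/
  bd : ∀ (n : ℕ) {X U : Scheme.{0}} [IsNoetherian X] (j : U ⟶ X) [IsOpenImmersion j],
    K (n + 1) (Coh U) →+ K n ((Coh X).sub (VanS j.opensRange))
  exU : ∀ (n : ℕ) {X U : Scheme.{0}} [IsNoetherian X] [IsLocallyNoetherian U] (j : U ⟶ X)
    [IsOpenImmersion j] (x : K (n + 1) (Coh U)), bd n j x = 0 ↔
      ∃ y : K (n + 1) (Coh X), map (n + 1) (pullE j) y = x
  exZ : ∀ (n : ℕ) {X U : Scheme.{0}} [IsNoetherian X] (j : U ⟶ X) [IsOpenImmersion j]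
    (z : K n ((Coh X).sub (VanS j.opensRange))), map n ((Coh X).incl' (VanS j.opensRange)) z = 0 ↔
      ∃ x : K (n + 1) (Coh U), bd n j x = z
  exX : ∀ (n : ℕ) {X U : Scheme.{0}} [IsNoetherian X] [IsLocallyNoetherian U] (j : U ⟶ X)
    [IsOpenImmersion j] (y : K n (Coh X)), map n (pullE j) y = 0 ↔
      ∃ z : K n ((Coh X).sub (VanS j.opensRange)), map n ((Coh X).incl' (VanS j.opensRange)) z = y
  onto : ∀ {X U : Scheme.{0}} [IsNoetherian X] [IsLocallyNoetherian U] (j : U ⟶ X)
    [IsOpenImmersion j], Function.Surjective (map 0 (pullE j))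
  /-- naturality of the boundary -/
  nat : ∀ (n : ℕ) {X U X' U' : Scheme.{0}} [IsNoetherian X] [IsNoetherian X']
    [IsLocallyNoetherian U] [IsLocallyNoetherian U'] (j : U ⟶ X) (j' : U' ⟶ X') (g : X' ⟶ X)
    (b : U' ⟶ U) [IsOpenImmersion j] [IsOpenImmersion j'] [Flat g] [Flat b]
    (h : j'.opensRange ≤ g ⁻¹ᵁ j.opensRange), b ≫ j = j' ≫ g → ∀ x : K (n + 1) (Coh U),
      map n (pullV g j.opensRange j'.opensRange h) (bd n j x) = bd n j' (map (n + 1) (pullE b) x)
  /-- devissage -/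
  dev : ∀ (n : ℕ) {X Z : Scheme.{0}} [IsNoetherian X] (i : Z ⟶ X) [IsClosedImmersion i]
    (O : X.Opens) (h : i ⁻¹ᵁ O = ⊥), Set.range i = (O : Set X)ᶜ →
      Function.Bijective (map n (pushV i O h))
  /-- homotopy invariance for noetherian rings -/
  hom : ∀ (n : ℕ) (A : Type) [CommRing A] [IsNoetherianRing A]
    (h : (Polynomial.C : A →+* Polynomial A).Flat), Function.Bijective (map n (bcE _ h))

attribute [instance] GInt.grp

end Pool.Agent.KQG
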