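import Pool.Agent.KQG.StGeo

/-!
# GA: functoriality of pull-back and push-forward of coherent sheaves
-/

set_option autoImplicit false

noncomputable section

namespace Pool.Agent.KQG

open CategoryTheory CategoryTheory.Limits AlgebraicGeometry TopologicalSpace
open Pool.Agent.KSS Pool.Agent.KIN Pool.Agent.KQ

/-- the underlying sheaf of modules of a coherent sheaf -/
abbrev GA_ob {X : Scheme.{0}} (M : (Coh X).Ob) : X.Modules :=
  (show QC X from M.obj).obj

/-- the underlying morphism of sheaves of modules -/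
abbrev GA_mor {X : Scheme.{0}} {M N : (Coh X).Ob} (f : M ⟶ N) : GA_ob M ⟶ GA_ob N :=
  (show (show QC X from M.obj) ⟶ (show QC X from N.obj) from f.hom).hom

/-- isomorphisms of coherent sheaves from isomorphisms of sheaves of modules -/
def GA_iso {X : Scheme.{0}} {M N : (Coh X).Ob} (e : GA_ob M ≅ GA_ob N) : M ≅ N :=
  ObjectProperty.isoMk _ (show (show QC X from M.obj) ≅ (show QC X from N.obj) from
    ObjectProperty.isoMk _ e)

theorem GA_ext {X : Scheme.{0}} {M N : (Coh X).Ob} {f g : M ⟶ N} (h : GA_mor f = GA_mor g) :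
    f = g := by
  apply ObjectProperty.hom_ext
  exact ObjectProperty.hom_ext _ h

/-- natural isomorphisms of exact functors from natural isomorphisms of sheaves of modules -/
theorem GA_ni {X Y : Scheme.{0}} (F G : ExFun (Coh X) (Coh Y))
    (e : ∀ M : (Coh X).Ob, GA_ob (F.F.obj M) ≅ GA_ob (G.F.obj M))
    (h : ∀ (M N : (Coh X).Ob) (f : M ⟶ N),
      GA_mor (F.F.map f) ≫ (e N).hom = (e M).hom ≫ GA_mor (G.F.map f)) : NI F G :=
  ⟨NatIso.ofComponents (fun M => GA_iso (e M)) fun {M N} f => GA_ext (h M N f)⟩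

theorem thm_GA : St_GA := by
  refine ⟨?_, ?_, ?_, ?_⟩
  · intro X _
    exact GA_ni _ _ (fun M => (Scheme.Modules.pullbackId X).app (GA_ob M)) fun M N f =>
      (Scheme.Modules.pullbackId X).hom.naturality (GA_mor f)
  · intro X Y Z _ _ _ f g _ _
    exact GA_ni _ _ (fun M => (Scheme.Modules.pullbackComp f g).symm.app (GA_ob M)) fun M N φ =>
      (Scheme.Modules.pullbackComp f g).symm.hom.naturality (GA_mor φ)
  · intro X
    exact GA_ni _ _ (fun M => (Scheme.Modules.pushforwardId X).app (GA_ob M)) fun M N f =>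
      (Scheme.Modules.pushforwardId X).hom.naturality (GA_mor f)
  · intro X Y Z f g _ _
    exact GA_ni _ _ (fun M => (Scheme.Modules.pushforwardComp f g).symm.app (GA_ob M))
      fun M N φ => (Scheme.Modules.pushforwardComp f g).symm.hom.naturality (GA_mor φ)

end Pool.Agent.KQG
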