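import Pool.Agent.KQH.HomAll

/-!
# KQG: Quillen's groups `K_n` as an instance of the interface `KInt`, without hypotheses
-/

set_option autoImplicit false

noncomputable section

namespace Pool.Agent.KQG

open Pool.Agent.KTX

/-- Quillen's K-groups of exact categories -/
def KI : KInt.{1} := kInt Pool.Agent.KQH.all_HOMK

end Pool.Agent.KQG
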