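import Pool.Agent.KQG.AsmDefs
import Pool.Agent.KQ.DLoc

/-!
# KQG: statements of the modules (fourth part): the data for localization and devissage

Architect helper12. Rules as in `Pool/Agent/KQG/StGeo.lean`: every `def St_X : Prop` is one module
`Pool/Agent/KQG/X.lean` with `theorem thm_X (h.. : St_..) : St_X` in the namespace `Pool.Agent.KQG`. `LocD`, `DevD`,
`DevC`, `RadD` are in `Pool/Agent/KQ/DLoc.lean`, `SubC`, `QuoC`, … in `Pool/Agent/KQ/DSA.lean`. Remember that a
morphism `f` of `QC X` has the underlying morphism `f.hom` of sheaves of modules, that `f` is mono (epi) if and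
only if `f.hom` is (`(qcP X).preservesMonomorphisms_ι_of_isNormalEpiCategory`, `…Epimorphisms…`, see the proof of
`ses_qc`), and that sections of short exact sequences over affine open sets are exact (`ses_sec`).
-/

set_option autoImplicit false

noncomputable section

namespace Pool.Agent.KQG

open CategoryTheory CategoryTheory.Limits AlgebraicGeometry TopologicalSpace
open Pool.Agent.KSS Pool.Agent.KIN Pool.Agent.KQ

/-! ### closure properties -/

/-- **CL** (1 h). Quasi-coherent subsheaves and quotients of coherent sheaves on a locally noetherian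
scheme are coherent (sections over affine open sets: submodules, quotients of finitely generated modules over
noetherian rings; for a mono `f` use `thm_S1` (1), for an epi `f` the `SES (kernel.ι f) f` and `ses_sec`); the same for
the sheaves which vanish on `O`. needs: nothing -/
def St_CL : Prop := ∀ (X : Scheme.{0}) [IsLocallyNoetherian X],
  SubC (Coh X).P ∧ QuoC (Coh X).P ∧
    ∀ O : X.Opens, SubC (C := QC X) (VanS O).P ∧ QuoC (C := QC X) (VanS O).P

/-! ### localization -/

/-- **LA** (2 h). Restriction to an open subscheme, on quasi-coherent sheaves. (1) exact: `pbQ j`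
preserves short exact sequences (`all_P2` (1), `ses_qc`), then `Functor.exact_tfae` or
`Functor.preservesFiniteLimits_tfae` (as in `Mathlib/Algebra/Category/ModuleCat/ChangeOfRingsExact.lean`).
(2) the counit is an isomorphism: it is enough that `pfQ j` is fully faithful, or: for `N` quasi-coherent
the counit `ε : j^* j_* N ⟶ N` is bijective on sections over the affine open sets `j⁻¹ W`, `W` affine,
`W ≤ j.opensRange`: `es j (j_* N) W (j⁻¹ W)` is bijective (`all_P2` (4)) and
`ε ∘ es = id` (triangle identity, as in `d1_three` of `Pool/Agent/KIN/D1.lean`); `thm_L0` (2).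
Alternative: `Scheme.Modules.restrictFunctorIsoPullback`, `restrictAdjunction` of Mathlib.
(3) `j^* M = 0` if and only if `M` vanishes on the image: `all_P2` (4), `thm_L0` (3), `thm_S1`, `thm_S5`
(a sheaf of modules with no sections over affine open sets is zero). needs: nothing -/
def St_LA : Prop := ∀ (X U : Scheme.{0}) [IsLocallyNoetherian X] (j : U ⟶ X)
  [IsOpenImmersion j], PreservesFiniteLimits (pbQ j) ∧ IsIso (adjQ j).counit ∧
    ∀ M : QC X, IsZero ((pbQ j).obj M) ↔ Van j.opensRange M.obj

/-- **LB** (1.5 h). Coherent sheaves extend: `all_E1` gives `u : F ⟶ j_* c`, injective on sections (so mono),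
bijective over the affine `W ≤ j.opensRange`. The transpose `j^* F ⟶ c` is bijective over the affine open
sets `j⁻¹ W` (`es_nat`, `all_P2` (4), the triangle identity), so an isomorphism (`thm_L0` (2)). needs: nothing -/
def St_LB : Prop := ∀ (X U : Scheme.{0}) [IsNoetherian X] (j : U ⟶ X) [IsOpenImmersion j]
  (c : QC U), IsCoh c.obj → ∃ (b : QC X) (m : b ⟶ (pfQ j).obj c), Mono m ∧ IsCoh b.obj ∧
    IsIso ((pbQ j).map m ≫ (adjQ j).counit.app c)

/-- **AR** (3 h). Artin-Rees. Let `i : Z ⟶ X` be the closed immersion of the complement of the image of `j`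
with the reduced structure (`Pool/Agent/KIN/H2.lean`, `h2_ind`, constructs one), `I_V` the kernel of
`i.app V`. `K` is coherent (`St_CL`) and killed by `I ^ m` (`thm_D2` (1)). Let `b_n ⟶ b` be the subsheaf with the sections
`I_V ^ n Γ(b, V)` over affine `V` (iterate `all_D1` (4); state it as a lemma: for all `n` there is a coherent `b_n`
and a mono `b_n ⟶ b` of `QC X` with these sections). For `V` in a finite affine cover of `X` (compact) there is `k` with
`I ^ n b ⊓ K = I ^ (n - k) (I ^ k b ⊓ K)` for `n ≥ k` (`Ideal.exists_pow_inf_eq_pow_smul`), so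
`I ^ n Γ(b, V) ⊓ Γ(K, V) ≤ I ^ m Γ(K, V) = 0` for `n ≥ k + m`; take `n` large for all `V` of the cover and
`b' = b_n`. If `x ≫ k = y ≫ m` then `x ≫ k` is zero on sections over the `V` of the cover, so zero (its kernel is an
isomorphism by `thm_L0` (2)). The cokernel vanishes on the image of `j`: for affine `W ≤ j.opensRange` the ring
`Γ(Z, i⁻¹ W)` is zero, so `I_W = ⊤`. needs: CL -/
def St_AR : Prop := ∀ (X U : Scheme.{0}) [IsNoetherian X] (j : U ⟶ X) [IsOpenImmersion j]
  (b K : QC X) (k : K ⟶ b), Mono k → IsCoh b.obj → Van j.opensRange K.obj →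
    ∃ (b' : QC X) (m : b' ⟶ b), Mono m ∧ Van j.opensRange (cokernel m).obj ∧
      ∀ (T : QC X) (x : T ⟶ K) (y : T ⟶ b'), x ≫ k = y ≫ m → x ≫ k = 0

/-- **GL** (1 h). The data for localization: `L = pbQ j`, `R = pfQ j`, `adj = adjQ j`; `D.LF = pullE j` and
`D.A` is `VanS j.opensRange` (`St_LA` (3)). needs: CL, LA, LB, AR -/
def St_GL : Prop := ∀ (X U : Scheme.{0}) [IsNoetherian X] [IsLocallyNoetherian U] (j : U ⟶ X)
  [IsOpenImmersion j], ∃ D : LocD (Coh X) (Coh U),
    (∀ M : QC X, D.A.P M ↔ (VanS j.opensRange).P M) ∧ NI D.LF (pullE j)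

/-! ### devissage -/

/-- the quasi-coherent sheaves isomorphic to push-forwards of coherent sheaves on `Z` -/
def kI {X Z : Scheme.{0}} (i : Z ⟶ X) [IsAffineHom i] : ObjectProperty (QC X) := fun M =>
  ∃ N : QC Z, IsCoh N.obj ∧ Nonempty ((pfQ i).obj N ≅ M)

/-- **DA** (2 h). Closed immersions: (1) the counit is an isomorphism (so `pfQ i` is fully faithful): the
proof of `d1_three` in `Pool/Agent/KIN/D1.lean`. (2) The sheaves in `kI i` are the coherent sheaves
killed by the ideal of `Z`: `→`: `r • s = (i.app U r) • s` on `i_* N`, `coh_pf`; `←`: `N = i^* M` and the unit, an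
isomorphism by `all_D1` (2). needs: nothing -/
def St_DA : Prop := ∀ (X Z : Scheme.{0}) [IsLocallyNoetherian X] (i : Z ⟶ X)
  [IsClosedImmersion i], IsIso (adjQ i).counit ∧
    ∀ M : QC X, kI i M ↔ IsCoh M.obj ∧ ∀ U : X.Opens, IsAffineOpen U →
      ∀ r ∈ RingHom.ker (i.app U).hom, ∀ s : Γ(M.obj, U), r • s = 0

/-- **DB** (1.5 h). The closure properties for devissage (all from `St_CL`, `St_DA` (2) and sections over
affine open sets; `kI i ≤ VanS O`: `van_pf`). needs: CL, DA -/
def St_DB : Prop := ∀ (X Z : Scheme.{0}) [IsLocallyNoetherian X] (i : Z ⟶ X)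
  [IsClosedImmersion i] (O : X.Opens), i ⁻¹ᵁ O = ⊥ → DevC (C := QC X) (VanS O).P (kI i)

/-- **DR** (2.5 h). Sections of the iterated kernels `radN η n` (`Pool/Agent/KQ/DLoc.lean`) of the unit
`η : 1 ⟶ i_* i^*` of the closed immersion `i`, `I_U` the kernel of `i.app U`: there is a monomorphism
`ρ_n : radN η n M ⟶ M` (composition of the `radι`) which is natural in `M` and whose image on sections
over affine `U` is `I_U ^ n Γ(M, U)`. Induction on `n`: `thm_S1` (1), (2) for `kernel.ι` (a mono of sheaves of
modules, exact) and `all_D1` (1) for `radN η n M`, coherent by `St_CL`. needs: CL -/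
def St_DR : Prop := ∀ (X Z : Scheme.{0}) [IsLocallyNoetherian X] (i : Z ⟶ X)
  [IsClosedImmersion i] (n : ℕ), ∃ ρ : radN (adjQ i).unit n ⟶ 𝟭 (QC X),
    ∀ M : QC X, IsCoh M.obj → IsCoh ((radN (adjQ i).unit n).obj M).obj ∧ Mono (ρ.app M) ∧
      ∀ U : X.Opens, IsAffineOpen U → ∀ s : Γ(M.obj, U),
        (∃ t, ap (ρ.app M).hom U t = s) ↔
          s ∈ RingHom.ker (i.app U).hom ^ n • (⊤ : Submodule Γ(X, U) Γ(M.obj, U))

/-- **DC** (2 h). The functorial quotients `K → K / I K`: `σ = pbQ i ⋙ pfQ i`, `η` the unit. `epi`: `all_D1` (1),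
`thm_S1` (3); `mem`: `St_DA`; `map_epi`: `St_DR` for `n = 1` (`I Γ(K, U) → I Γ(K', U)` is surjective if
`Γ(K, U) → Γ(K', U)` is, `thm_S1` (3)); `nil`: `thm_D2` (1) and `St_DR`. needs: CL, DA, DR -/
def St_DC : Prop := ∀ (X Z : Scheme.{0}) [IsNoetherian X] (i : Z ⟶ X)
  [IsClosedImmersion i] (O : X.Opens), Set.range i = (O : Set X)ᶜ →
    Nonempty (RadD (C := QC X) (VanS O).P (kI i))

/-- **GD** (1.5 h). The data for devissage: `F = pushV i O h`, `B = kI i`; `full`, `faithful`: `St_DA` (1)
(`Adjunction.fullyFaithfulROfIsIsoCounit`); `refl`: the conflations of `Coh Z` are detected on the affine open sets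
`i⁻¹ U` (`ses_sec`, `thm_L0` (1), `ses_qc`) or from full faithfulness and the exactness of `i^*` on `kI i`.
needs: CL, DA, DB, DC -/
def St_GD : Prop := ∀ (X Z : Scheme.{0}) [IsNoetherian X] (i : Z ⟶ X) [IsClosedImmersion i]
  (O : X.Opens) (h : i ⁻¹ᵁ O = ⊥), Set.range i = (O : Set X)ᶜ →
    ∃ D : DevD (Coh Z) ((Coh X).sub (VanS O)), D.F = pushV i O h

end Pool.Agent.KQG
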